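import Pool.Agent.TH109.SS.Sphere

/-!
Torus data of a symmetric space, and the second order expansion
(following `H842R4.Asm1`, `H842R4.Asm2`, `H842R4.Asm3`, `H842R4.Asm4`).
-/

open MeasureTheory Filter Topology Pool.Agent.H842R4 Pool.Agent.H842R4.Calc
open Pool.Agent.TH109.CG2

noncomputable section

namespace Pool.Agent.TH109.SS

variable {P 𝔤 : Type} [NormedAddCommGroup 𝔤] [InnerProductSpace ℝ 𝔤]

namespace SPert

variable {K : Calc P 𝔤} {𝔭 : Submodule ℝ 𝔤} (S : SPert K 𝔭)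

lemma ev_met (j : ℕ) (p : P) (u v : 𝔤) :
    K.ev p (K.met (S.t j) (S.h j) u v) = inner ℝ u v + S.t j * K.ev p (S.h j u v) := by
  simp only [Calc.met, LinearMap.add_apply, LinearMap.smul_apply, map_add, map_smul, smul_eq_mul,
    Calc.base_apply, AlgHom.commutes]
  rfl

lemma ev_h_le (j : ℕ) (p : P) (u v : 𝔤) : |K.ev p (S.h j u v)| ≤ ‖u‖ * ‖v‖ := by
  have := S.bound j [] (by simp) u v p
  simpa [Calc.Dl] using this

lemma indep_of_gram (j : ℕ) (p : P) (u v : 𝔤)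
    (hg : 0 < K.gram (K.met (S.t j) (S.h j)) p u v) : LinearIndependent ℝ ![u, v] := by
  rw [LinearIndependent.pair_iff]
  intro a b hab
  have hs : K.ev p (K.met (S.t j) (S.h j) v u) = K.ev p (K.met (S.t j) (S.h j) u v) := by
    rw [ev_met, ev_met, S.symm, real_inner_comm]
  have h1 : a * K.ev p (K.met (S.t j) (S.h j) u u) + b * K.ev p (K.met (S.t j) (S.h j) u v) = 0 := by
    have : K.ev p (K.met (S.t j) (S.h j) u (a • u + b • v)) = 0 := by rw [hab]; simp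
    simpa using this
  have h2 : a * K.ev p (K.met (S.t j) (S.h j) u v) + b * K.ev p (K.met (S.t j) (S.h j) v v) = 0 := by
    have : K.ev p (K.met (S.t j) (S.h j) v (a • u + b • v)) = 0 := by rw [hab]; simp
    simpa [hs] using this
  simp only [Calc.gram] at hg
  generalize K.ev p (K.met (S.t j) (S.h j) u u) = x at *
  generalize K.ev p (K.met (S.t j) (S.h j) u v) = y at *
  generalize K.ev p (K.met (S.t j) (S.h j) v v) = z at *
  constructor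
  · have : a * (x * z - y ^ 2) = 0 := by linear_combination z * h1 - y * h2
    exact (mul_eq_zero.1 this).resolve_right hg.ne'
  · have : b * (x * z - y ^ 2) = 0 := by linear_combination x * h2 - y * h1
    exact (mul_eq_zero.1 this).resolve_right hg.ne'

lemma ev_met_close (j : ℕ) (p : P) (X Y U V : 𝔤) (R : ℝ) (hX : ‖X‖ ≤ R) (hY : ‖Y‖ ≤ R)
    (hU : ‖U‖ ≤ R) (hV : ‖V‖ ≤ R) (ht : S.t j ≤ 1) :
    |K.ev p (K.met (S.t j) (S.h j) (X + S.t j • U) (Y + S.t j • V)) - inner ℝ X Y| ≤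
      7 * R ^ 2 * S.t j := by
  have t0 := S.t_pos j
  have hR : 0 ≤ R := (norm_nonneg _).trans hX
  rw [ev_met]
  have hu : ‖X + S.t j • U‖ ≤ 2 * R := by
    refine (norm_add_le _ _).trans ?_
    rw [norm_smul, Real.norm_of_nonneg t0.le]
    nlinarith [norm_nonneg U]
  have hv : ‖Y + S.t j • V‖ ≤ 2 * R := by
    refine (norm_add_le _ _).trans ?_
    rw [norm_smul, Real.norm_of_nonneg t0.le]
    nlinarith [norm_nonneg V]
  have e1 : |K.ev p (S.h j (X + S.t j • U) (Y + S.t j • V))| ≤ 4 * R ^ 2 := by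
    refine (S.ev_h_le j p _ _).trans ?_
    calc _ ≤ (2 * R) * (2 * R) := mul_le_mul hu hv (norm_nonneg _) (by positivity)
      _ = 4 * R ^ 2 := by ring
  have e2 : |(inner ℝ X V : ℝ)| ≤ R ^ 2 := (abs_real_inner_le_norm _ _).trans (by nlinarith [norm_nonneg X, norm_nonneg V])
  have e3 : |(inner ℝ U Y : ℝ)| ≤ R ^ 2 := (abs_real_inner_le_norm _ _).trans (by nlinarith [norm_nonneg U, norm_nonneg Y])
  have e4 : |(inner ℝ U V : ℝ)| ≤ R ^ 2 := (abs_real_inner_le_norm _ _).trans (by nlinarith [norm_nonneg U, norm_nonneg V])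
  simp only [inner_add_left, inner_add_right, real_inner_smul_left, real_inner_smul_right]
  rw [abs_le] at e1 e2 e3 e4 ⊢
  generalize K.ev p (S.h j (X + S.t j • U) (Y + S.t j • V)) = a at *
  generalize (inner ℝ X V : ℝ) = b at *
  generalize (inner ℝ U Y : ℝ) = c at *
  generalize (inner ℝ U V : ℝ) = d at *
  generalize S.t j = t at *
  have hR2 : 0 ≤ R ^ 2 := sq_nonneg R
  have f1 : t * a ≤ t * (4 * R ^ 2) := mul_le_mul_of_nonneg_left e1.2 t0.le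
  have f1' : t * (-(4 * R ^ 2)) ≤ t * a := mul_le_mul_of_nonneg_left e1.1 t0.le
  have f2 : t * b ≤ t * (R ^ 2) := mul_le_mul_of_nonneg_left e2.2 t0.le
  have f2' : t * (-(R ^ 2)) ≤ t * b := mul_le_mul_of_nonneg_left e2.1 t0.le
  have f3 : t * c ≤ t * (R ^ 2) := mul_le_mul_of_nonneg_left e3.2 t0.le
  have f3' : t * (-(R ^ 2)) ≤ t * c := mul_le_mul_of_nonneg_left e3.1 t0.le
  have tt : t * t ≤ t := by nlinarith
  have f4 : t * (t * d) ≤ t * (R ^ 2) := by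
    have g1 : t * d ≤ t * R ^ 2 := mul_le_mul_of_nonneg_left e4.2 t0.le
    have g2 : t * (t * d) ≤ t * (t * R ^ 2) := mul_le_mul_of_nonneg_left g1 t0.le
    nlinarith [mul_le_mul_of_nonneg_right tt hR2]
  have f4' : t * (-(R ^ 2)) ≤ t * (t * d) := by
    have g1 : t * (-(R ^ 2)) ≤ t * d := mul_le_mul_of_nonneg_left e4.1 t0.le
    have g2 : t * (t * (-(R ^ 2))) ≤ t * (t * d) := mul_le_mul_of_nonneg_left g1 t0.le
    nlinarith [mul_le_mul_of_nonneg_right tt hR2]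
  constructor <;> nlinarith

lemma gram_low (X Y : 𝔤) (hi : LinearIndependent ℝ ![X, Y]) (M : ℝ) :
    ∀ᶠ j in atTop, ∀ p U V, ‖U‖ ≤ M → ‖V‖ ≤ M →
      (‖X‖ ^ 2 * ‖Y‖ ^ 2 - inner ℝ X Y ^ 2) / 2 ≤
        K.gram (K.met (S.t j) (S.h j)) p (X + S.t j • U) (Y + S.t j • V) := by
  set R : ℝ := ‖X‖ + ‖Y‖ + |M| + 1 with hR
  have hR1 : 1 ≤ R := by
    have := norm_nonneg X; have := norm_nonneg Y; have := abs_nonneg M; linarith
  have hg := gram_pos hi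
  set g0 := ‖X‖ ^ 2 * ‖Y‖ ^ 2 - inner ℝ X Y ^ 2 with hg0
  have h1 : ∀ᶠ j in atTop, S.t j < min 1 (g0 / (400 * R ^ 4)) :=
    (tendsto_order.1 S.t_lim).2 _ (by positivity)
  filter_upwards [h1] with j hj p U V hU hV
  have t0 := S.t_pos j
  have ht1 : S.t j ≤ 1 := (hj.trans_le (min_le_left _ _)).le
  have ht2 : S.t j < g0 / (400 * R ^ 4) := hj.trans_le (min_le_right _ _)
  have hXR : ‖X‖ ≤ R := by
    have := norm_nonneg Y; have := abs_nonneg M; linarith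
  have hYR : ‖Y‖ ≤ R := by
    have := norm_nonneg X; have := abs_nonneg M; linarith
  have hUR : ‖U‖ ≤ R := by
    have := norm_nonneg X; have := norm_nonneg Y; have := le_abs_self M; linarith
  have hVR : ‖V‖ ≤ R := by
    have := norm_nonneg X; have := norm_nonneg Y; have := le_abs_self M; linarith
  have a1 := S.ev_met_close j p X X U U R hXR hXR hUR hUR ht1
  have a2 := S.ev_met_close j p X Y U V R hXR hYR hUR hVR ht1
  have a3 := S.ev_met_close j p Y Y V V R hYR hYR hVR hVR ht1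
  rw [real_inner_self_eq_norm_sq] at a1 a3
  have b1 : ‖X‖ ^ 2 ≤ R ^ 2 := pow_le_pow_left₀ (norm_nonneg _) hXR 2
  have b3 : ‖Y‖ ^ 2 ≤ R ^ 2 := pow_le_pow_left₀ (norm_nonneg _) hYR 2
  have b2 : |(inner ℝ X Y : ℝ)| ≤ R ^ 2 :=
    (abs_real_inner_le_norm _ _).trans (by nlinarith [norm_nonneg X, norm_nonneg Y])
  have b1' : 0 ≤ ‖X‖ ^ 2 := sq_nonneg _
  have b3' : 0 ≤ ‖Y‖ ^ 2 := sq_nonneg _
  rw [lt_div_iff₀ (by positivity)] at ht2
  simp only [Calc.gram]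
  generalize K.ev p (K.met (S.t j) (S.h j) (X + S.t j • U) (X + S.t j • U)) = x at *
  generalize K.ev p (K.met (S.t j) (S.h j) (X + S.t j • U) (Y + S.t j • V)) = y at *
  generalize K.ev p (K.met (S.t j) (S.h j) (Y + S.t j • V) (Y + S.t j • V)) = z at *
  generalize ‖X‖ ^ 2 = x0 at *
  generalize ‖Y‖ ^ 2 = z0 at *
  generalize (inner ℝ X Y : ℝ) = y0 at *
  generalize S.t j = t at *
  set δ := 7 * R ^ 2 * t with hδ
  have hR2 : 1 ≤ R ^ 2 := one_le_pow₀ hR1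
  have hδ0 : 0 ≤ δ := by positivity
  have hδ7 : δ ≤ 7 * R ^ 2 := by
    rw [hδ]
    have : 7 * R ^ 2 * t ≤ 7 * R ^ 2 * 1 := mul_le_mul_of_nonneg_left ht1 (by positivity)
    linarith
  -- write `x = x0 + α` etc.
  obtain ⟨α, rfl⟩ : ∃ α, x = x0 + α := ⟨x - x0, by ring⟩
  obtain ⟨β, rfl⟩ : ∃ β, y = y0 + β := ⟨y - y0, by ring⟩
  obtain ⟨γ, rfl⟩ : ∃ γ, z = z0 + γ := ⟨z - z0, by ring⟩
  simp only [add_sub_cancel_left] at a1 a2 a3
  have c1 : |x0 * γ| ≤ R ^ 2 * δ := by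
    rw [abs_mul, abs_of_nonneg b1']
    exact mul_le_mul b1 a3 (abs_nonneg _) (by positivity)
  have c2 : |z0 * α| ≤ R ^ 2 * δ := by
    rw [abs_mul, abs_of_nonneg b3']
    exact mul_le_mul b3 a1 (abs_nonneg _) (by positivity)
  have c3 : |α * γ| ≤ δ * δ := by
    rw [abs_mul]
    exact mul_le_mul a1 a3 (abs_nonneg _) hδ0
  have c4 : |y0 * β| ≤ R ^ 2 * δ := by
    rw [abs_mul]
    exact mul_le_mul b2 a2 (abs_nonneg _) (by positivity)
  have c5 : |β * β| ≤ δ * δ := by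
    rw [abs_mul]
    exact mul_le_mul a2 a2 (abs_nonneg _) hδ0
  have c6 : δ * δ ≤ 7 * R ^ 2 * δ := mul_le_mul_of_nonneg_right hδ7 hδ0
  have c7 : R ^ 2 * δ * 18 ≤ g0 / 2 := by
    have e : R ^ 2 * δ * 18 = 126 * (t * R ^ 4) := by rw [hδ]; ring
    have e' : t * (400 * R ^ 4) = 400 * (t * R ^ 4) := by ring
    have e0 : 0 ≤ t * R ^ 4 := by positivity
    rw [e]
    rw [e'] at ht2
    linarith
  have d1 := (abs_le.1 c1).1
  have d2 := (abs_le.1 c2).1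
  have d3 := (abs_le.1 c3).1
  have d4 := (abs_le.1 c4).2
  have d5 := (abs_le.1 c5).2
  have hgg : g0 = x0 * z0 - y0 ^ 2 := hg0
  have e : (x0 + α) * (z0 + γ) - (y0 + β) ^ 2 =
      g0 + x0 * γ + z0 * α + α * γ - 2 * (y0 * β) - β * β := by rw [hgg]; ring
  rw [e]
  clear_value δ
  linarith

end SPert

/-- A closed 2-torus in `𝔭` with its weight decomposition. For a root with weight `(m, n)` the
vectors `B = r X + s Y` and `W = n X - m Y` satisfy: `k B` and `W` generate closed flows. -/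
structure SDatum (K : Calc P 𝔤) (𝔭 : Submodule ℝ 𝔤) where
  X : 𝔤
  Y : 𝔤
  pX : X ∈ 𝔭
  pY : Y ∈ 𝔭
  brXY : K.br X Y = 0
  clX : K.Cl X
  clY : K.Cl Y
  ind : LinearIndependent ℝ ![X, Y]
  q11 : ℝ
  q12 : ℝ
  q22 : ℝ
  ιC : Type
  fC : Fintype ιC
  C : ιC → 𝔤
  w : ιC → ℝ
  pC : ∀ i, C i ∈ 𝔭
  clC : ∀ i, K.Cl (C i)
  brXC : ∀ i, K.br X (C i) = 0
  brYC : ∀ i, K.br Y (C i) = 0
  indC : ∀ i, LinearIndependent ℝ ![X, Y, C i]
  ιR : Type
  fR : Fintype ιR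
  m : ιR → ℝ
  n : ιR → ℝ
  r : ιR → ℝ
  s : ιR → ℝ
  k : ιR → ℝ
  unim' : ∀ a, r a * m a + s a * n a = 1
  k_ne : ∀ a, k a ≠ 0
  clB' : ∀ a, K.Cl (k a • (r a • X + s a • Y))
  clW' : ∀ a, K.Cl (n a • X + (-(m a)) • Y)
  Z : ιR → 𝔤
  J : ιR → 𝔤
  pZ : ∀ a, Z a ∈ 𝔭
  pJ : ∀ a, J a ∈ 𝔭ᗮ
  brX1 : ∀ a, K.br X (Z a) = m a • J a
  brX2 : ∀ a, K.br X (J a) = -(m a • Z a)
  brY1 : ∀ a, K.br Y (Z a) = n a • J a
  brY2 : ∀ a, K.br Y (J a) = -(n a • Z a)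
  orth : Orthonormal ℝ J
  parseval : ∀ u v : 𝔤, u ∈ 𝔭 → v ∈ 𝔭 → inner ℝ u v =
    q11 * (inner ℝ u X * inner ℝ v X) + q12 * (inner ℝ u X * inner ℝ v Y + inner ℝ u Y * inner ℝ v X)
    + q22 * (inner ℝ u Y * inner ℝ v Y) + ∑ i, w i * (inner ℝ u (C i) * inner ℝ v (C i))
    + ∑ a, inner ℝ u (Z a) * inner ℝ v (Z a)

attribute [instance] SDatum.fC SDatum.fR

namespace SDatum

variable {K : Calc P 𝔤} {𝔭 : Submodule ℝ 𝔤} (T : SDatum K 𝔭)

/-- the direction `B = r X + s Y` of a root -/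
def B (a : T.ιR) : 𝔤 := (T.r a : ℝ) • T.X + (T.s a : ℝ) • T.Y

/-- the direction `W = n X - m Y` of a root -/
def W (a : T.ιR) : 𝔤 := (T.n a : ℝ) • T.X + (-(T.m a : ℝ)) • T.Y

lemma pB (a : T.ιR) : T.B a ∈ 𝔭 := 𝔭.add_mem (𝔭.smul_mem _ T.pX) (𝔭.smul_mem _ T.pY)

lemma pW (a : T.ιR) : T.W a ∈ 𝔭 := 𝔭.add_mem (𝔭.smul_mem _ T.pX) (𝔭.smul_mem _ T.pY)

lemma brBW (a : T.ιR) : K.br (T.B a) (T.W a) = 0 := by
  have h : K.br T.Y T.X = 0 := by rw [K.br_anti, T.brXY, neg_zero]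
  simp [B, W, T.brXY, h, K.br_self]

lemma brW1 (a : T.ιR) : K.br (T.W a) (T.Z a) = 0 := by
  simp only [W, map_add, map_smul, LinearMap.add_apply, LinearMap.smul_apply, T.brX1, T.brY1]
  module

lemma brW2 (a : T.ιR) : K.br (T.W a) (T.J a) = 0 := by
  simp only [W, map_add, map_smul, LinearMap.add_apply, LinearMap.smul_apply, T.brX2, T.brY2]
  module

lemma brB1 (a : T.ιR) : K.br (T.B a) (T.Z a) = T.J a := by
  simp only [B, map_add, map_smul, LinearMap.add_apply, LinearMap.smul_apply, T.brX1, T.brY1]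
  rw [smul_smul, smul_smul, ← add_smul, T.unim' a, one_smul]

lemma brB2 (a : T.ιR) : K.br (T.B a) (T.J a) = - T.Z a := by
  simp only [B, map_add, map_smul, LinearMap.add_apply, LinearMap.smul_apply, T.brX2, T.brY2]
  rw [smul_neg, smul_neg, smul_smul, smul_smul, ← neg_add, ← add_smul, T.unim' a, one_smul]

lemma clB (a : T.ιR) : K.Cl (T.k a • T.B a) := T.clB' a

lemma clW (a : T.ιR) : K.Cl (T.W a) := T.clW' a

lemma indBW (a : T.ιR) : LinearIndependent ℝ ![T.B a, T.W a] := by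
  have hi := LinearIndependent.pair_iff.1 T.ind
  rw [LinearIndependent.pair_iff]
  intro x y hxy
  have h := T.unim' a
  have h1 : (x * T.r a + y * T.n a) • T.X + (x * T.s a - y * T.m a) • T.Y = 0 := by
    rw [← hxy, B, W]
    module
  obtain ⟨h2, h3⟩ := hi _ _ h1
  constructor
  · have : x * ((T.r a : ℝ) * T.m a + T.s a * T.n a) = 0 := by
      linear_combination (T.m a : ℝ) * h2 + (T.n a : ℝ) * h3
    rwa [h, mul_one] at this
  · have : y * ((T.r a : ℝ) * T.m a + T.s a * T.n a) = 0 := by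
      linear_combination (T.s a : ℝ) * h2 - (T.r a : ℝ) * h3
    rwa [h, mul_one] at this

/-- the tangential part -/
def F0 (h : 𝔤 →ₗ[ℝ] 𝔤 →ₗ[ℝ] K.𝒜) : K.𝒜 :=
  T.q11 • (K.eta h T.X T.Y T.X ^ 2 - K.eta h T.X T.X T.X * K.eta h T.Y T.Y T.X)
  + T.q12 • ((2 : ℝ) • (K.eta h T.X T.Y T.X * K.eta h T.X T.Y T.Y)
      - K.eta h T.X T.X T.X * K.eta h T.Y T.Y T.Y - K.eta h T.X T.X T.Y * K.eta h T.Y T.Y T.X)
  + T.q22 • (K.eta h T.X T.Y T.Y ^ 2 - K.eta h T.X T.X T.Y * K.eta h T.Y T.Y T.Y)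

/-- the zero weight part -/
def F1 (h : 𝔤 →ₗ[ℝ] 𝔤 →ₗ[ℝ] K.𝒜) (i : T.ιC) : K.𝒜 :=
  K.eta h T.X T.Y (T.C i) ^ 2 - K.eta h T.X T.X (T.C i) * K.eta h T.Y T.Y (T.C i)

/-- the part of a root -/
def F2 (h : 𝔤 →ₗ[ℝ] 𝔤 →ₗ[ℝ] K.𝒜) (a : T.ιR) : K.𝒜 :=
  K.eta h (T.B a) (T.W a) (T.Z a) ^ 2
    - K.eta h (T.B a) (T.B a) (T.Z a) * K.eta h (T.W a) (T.W a) (T.Z a)
    - K.R1 h (T.W a) (T.B a) (T.B a) (T.Z a) ^ 2

/-- the second order function -/
def F (h : 𝔤 →ₗ[ℝ] 𝔤 →ₗ[ℝ] K.𝒜) : K.𝒜 :=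
  T.F0 h + ∑ i, T.w i • T.F1 h i + ∑ a, T.F2 h a

/-- the condition on the `W`-invariant part of the root terms -/
def Ok (M : Mean K) (h : 𝔤 →ₗ[ℝ] 𝔤 →ₗ[ℝ] K.𝒜) : Prop :=
  ∀ a, M.E ((K.Av (T.W a) (K.eta h (T.B a) (T.W a) (T.Z a))) ^ 2) ≤
      M.E ((K.D (T.B a) (K.Av (T.W a) (K.eta h (T.B a) (T.W a) (T.Z a)))) ^ 2)

end SDatum

variable [FiniteDimensional ℝ 𝔤]

variable {K : Calc P 𝔤} {𝔭 : Submodule ℝ 𝔤} (S : SPert K 𝔭) (T : SDatum K 𝔭)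

lemma F0_small : K.sm (fun j => K.Av T.X (K.Av T.Y (T.F0 (S.h j)))) := by
  have h1 := S.tang1 T.X T.Y T.pX T.pY T.brXY T.clX T.clY T.ind
  have h2 := S.tang2 T.X T.Y T.pX T.pY T.brXY T.clX T.clY T.ind
  have h3 := S.tang3 T.X T.Y T.pX T.pY T.brXY T.clX T.clY T.ind
  refine (((h1.smul T.q11).add (h3.smul T.q12)).add (h2.smul T.q22)).congr fun j => ?_
  simp only [SDatum.F0, map_add, map_smul]

lemma F1_small : K.sm (fun j => K.Av T.X (K.Av T.Y (∑ i, T.w i • T.F1 (S.h j) i))) := by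
  have h1 : ∀ i, K.sm (fun j => K.Av T.X (K.Av T.Y (T.w i • T.F1 (S.h j) i))) := by
    intro i
    have := S.zero_small T.X T.Y (T.C i) T.pX T.pY (T.pC i) T.brXY (T.brXC i) (T.brYC i) T.clX
      T.clY (T.clC i) (T.indC i)
    refine (this.smul (T.w i)).congr fun j => ?_
    simp only [SDatum.F1, map_smul]
  refine (Pool.Agent.H842R4.sm_sum _ h1).congr fun j => ?_
  simp only [map_sum]

/-- the mean of the second order function, eventually -/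
theorem F_le (hS : SymP K 𝔭) (M : Mean K) (hok : ∀ j, T.Ok M (S.h j)) (ε' : ℝ) (hε : 0 < ε') :
    ∀ᶠ j in atTop, M.E (T.F (S.h j)) ≤ ε' := by
  have h0 := E_small M (F0_small S T) (ε' / 3) (by positivity)
  have h1 := E_small M (F1_small S T) (ε' / 3) (by positivity)
  have h2 : ∀ a, ∀ᶠ j in atTop, M.E (T.F2 (S.h j) a) ≤ ε' / 3 / (Fintype.card T.ιR + 1) := by
    intro a
    exact J_le S hS M (T.B a) (T.W a) (T.Z a) (T.J a) (T.k a) (T.k_ne a) (T.pB a) (T.pW a) (T.pJ a)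
      (T.brBW a) (T.clB a) (T.clW a) (T.indBW a) (T.brW1 a) (T.brB1 a) (T.brB2 a)
      (fun j => hok j a) _ (by positivity)
  filter_upwards [h0, h1, Filter.eventually_all.2 h2] with j a0 a1 a2
  rw [M.E_Av _ T.clX, M.E_Av _ T.clY] at a0 a1
  have b0 := (abs_le.1 a0).2
  have b1 := (abs_le.1 a1).2
  have b2 : ∑ a, M.E (T.F2 (S.h j) a) ≤ ε' / 3 := by
    calc ∑ a, M.E (T.F2 (S.h j) a) ≤ ∑ _a : T.ιR, ε' / 3 / (Fintype.card T.ιR + 1) :=
          Finset.sum_le_sum fun a _ => a2 a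
      _ = Fintype.card T.ιR * (ε' / 3 / (Fintype.card T.ιR + 1)) := by
          rw [Finset.sum_const, Finset.card_univ, nsmul_eq_mul]
      _ ≤ ε' / 3 := by
          have : (0 : ℝ) ≤ Fintype.card T.ιR := Nat.cast_nonneg _
          rw [mul_div_assoc', div_le_iff₀ (by positivity)]
          nlinarith
  rw [SDatum.F, map_add, map_add, map_sum M.E (fun a => T.F2 (S.h j) a)]
  linarith

section noFD

omit [FiniteDimensional ℝ 𝔤]

namespace SDatum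

variable {K : Calc P 𝔤} {𝔭 : Submodule ℝ 𝔤} (T : SDatum K 𝔭) (h : 𝔤 →ₗ[ℝ] 𝔤 →ₗ[ℝ] K.𝒜)

/-- tilt vector of a root at `p` -/
def V (p : P) (a : T.ιR) : 𝔤 :=
  (-K.ev p (K.R1 h (T.W a) (T.B a) (T.B a) (T.Z a))) • T.Z a

/-- tilt of `X` -/
def UX (p : P) : 𝔤 := ∑ a, (T.s a : ℝ) • T.V h p a

/-- tilt of `Y` -/
def UY (p : P) : 𝔤 := ∑ a, (-(T.r a : ℝ)) • T.V h p a

lemma pUX (p : P) : T.UX h p ∈ 𝔭 :=
  Submodule.sum_mem _ fun a _ => 𝔭.smul_mem _ (𝔭.smul_mem _ (T.pZ a))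

lemma pUY (p : P) : T.UY h p ∈ 𝔭 :=
  Submodule.sum_mem _ fun a _ => 𝔭.smul_mem _ (𝔭.smul_mem _ (T.pZ a))

lemma R1_WBB (a : T.ιR) (Z : 𝔤) :
    K.R1 h (T.W a) (T.B a) (T.B a) Z =
      (T.s a : ℝ) • K.R1 h T.X T.Y T.Y Z - (T.r a : ℝ) • K.R1 h T.Y T.X T.X Z := by
  have hu := T.unim' a
  have h1 : K.R1 h T.Y T.X T.Y Z = - K.R1 h T.X T.Y T.Y Z := K.R1_anti h _ _ _ _
  have h2 : K.R1 h T.X T.Y T.X Z = - K.R1 h T.Y T.X T.X Z := K.R1_anti h _ _ _ _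
  simp only [SDatum.W, SDatum.B, Datum2.R1_add_left, Datum2.R1_smul_left, Datum2.R1_add_second,
    Datum2.R1_smul_second, Datum2.R1_add_third, Datum2.R1_smul_third, Datum2.R1_self, h1, h2,
    smul_zero, smul_smul, smul_add, smul_neg]
  have e : ∀ u v : K.𝒜, (T.s a : ℝ) • u - (T.r a : ℝ) • v =
    ((T.s a : ℝ) * (T.r a * T.m a + T.s a * T.n a)) • u -
      ((T.r a : ℝ) * (T.r a * T.m a + T.s a * T.n a)) • v := by
    intro u v
    rw [hu, mul_one, mul_one]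
  rw [e]
  module

/-- `br X UY + br UX Y = ∑ [V, B]` -/
lemma br_tilt (p : P) : K.br T.X (T.UY h p) + K.br (T.UX h p) T.Y =
    ∑ a, K.ev p (K.R1 h (T.W a) (T.B a) (T.B a) (T.Z a)) • T.J a := by
  rw [K.br_anti (T.UX h p) T.Y, UX, UY, map_sum, map_sum, ← Finset.sum_neg_distrib,
    ← Finset.sum_add_distrib]
  refine Finset.sum_congr rfl fun a _ => ?_
  have h1 := T.brB1 a
  have h3 : K.br (T.B a) (T.V h p a) =
      (-K.ev p (K.R1 h (T.W a) (T.B a) (T.B a) (T.Z a))) • T.J a := by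
    rw [V, map_smul, h1]
  have h4 : K.br T.X ((-(T.r a : ℝ)) • T.V h p a) + - K.br T.Y ((T.s a : ℝ) • T.V h p a) =
      - K.br (T.B a) (T.V h p a) := by
    rw [SDatum.B, map_add, LinearMap.add_apply, map_smul, map_smul, map_smul, map_smul]
    simp only [LinearMap.smul_apply]
    module
  rw [h4, h3]
  module

lemma norm_tilt (p : P) : ‖K.br T.X (T.UY h p) + K.br (T.UX h p) T.Y‖ ^ 2 =
    ∑ a, K.ev p (K.R1 h (T.W a) (T.B a) (T.B a) (T.Z a)) ^ 2 := by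
  classical
  rw [T.br_tilt h p, ← real_inner_self_eq_norm_sq, T.orth.inner_sum]
  refine Finset.sum_congr rfl fun a _ => ?_
  simp only [conj_trivial]
  ring

lemma R1_tilt (p : P) : 2 * K.ev p (K.R1 h T.X T.Y T.Y (T.UX h p))
    + 2 * K.ev p (K.R1 h T.Y T.X T.X (T.UY h p)) =
    ∑ a, -2 * K.ev p (K.R1 h (T.W a) (T.B a) (T.B a) (T.Z a)) ^ 2 := by
  have h1 : K.R1 h T.X T.Y T.Y (T.UX h p) = ∑ a, (T.s a : ℝ) • K.R1 h T.X T.Y T.Y (T.V h p a) := by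
    have := map_sum (K.R1L h T.X T.Y T.Y) (fun a => (T.s a : ℝ) • T.V h p a) Finset.univ
    simp only [map_smul] at this
    exact this
  have h2 : K.R1 h T.Y T.X T.X (T.UY h p) =
      ∑ a, (-(T.r a : ℝ)) • K.R1 h T.Y T.X T.X (T.V h p a) := by
    have := map_sum (K.R1L h T.Y T.X T.X) (fun a => (-(T.r a : ℝ)) • T.V h p a) Finset.univ
    simp only [map_smul] at this
    exact this
  rw [h1, h2, map_sum, map_sum, Finset.mul_sum, Finset.mul_sum, ← Finset.sum_add_distrib]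
  refine Finset.sum_congr rfl fun a _ => ?_
  have h3 := congrArg (K.ev p) (T.R1_WBB h a (T.V h p a))
  have h4 : K.R1 h (T.W a) (T.B a) (T.B a) (T.V h p a) =
    (-K.ev p (K.R1 h (T.W a) (T.B a) (T.B a) (T.Z a))) •
        K.R1 h (T.W a) (T.B a) (T.B a) (T.Z a) := by
    rw [V, K.R1_smul_right]
  rw [h4] at h3
  simp only [map_add, map_sub, map_smul, smul_eq_mul] at h3 ⊢
  linear_combination (-2 : ℝ) * h3

lemma det_inv (hs : ∀ A B, h A B = h B A) (a : T.ιR) (Z : 𝔤) :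
    K.eta h (T.B a) (T.W a) Z ^ 2 - K.eta h (T.B a) (T.B a) Z * K.eta h (T.W a) (T.W a) Z =
      K.eta h T.X T.Y Z ^ 2 - K.eta h T.X T.X Z * K.eta h T.Y T.Y Z := by
  have hu := T.unim' a
  have hc : K.eta h T.Y T.X Z = K.eta h T.X T.Y Z :=
    (K.eta_comm_of h T.X T.Y Z hs T.brXY).symm
  have e1 : ∀ (c : ℝ) (f : K.𝒜), c • f = algebraMap ℝ K.𝒜 c * f := fun c f => Algebra.smul_def c f
  have hu' : algebraMap ℝ K.𝒜 (T.r a) * algebraMap ℝ K.𝒜 (T.m a)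
      + algebraMap ℝ K.𝒜 (T.s a) * algebraMap ℝ K.𝒜 (T.n a) = 1 := by
    rw [← map_mul, ← map_mul, ← map_add, hu, map_one]
  simp only [SDatum.B, SDatum.W, K.eta_add_left, K.eta_add_mid, K.eta_smul_left,
    K.eta_smul_mid, hc, e1, map_neg]
  generalize algebraMap ℝ K.𝒜 (T.r a) = r at *
  generalize algebraMap ℝ K.𝒜 (T.s a) = s at *
  generalize algebraMap ℝ K.𝒜 (T.m a) = m at *
  generalize algebraMap ℝ K.𝒜 (T.n a) = n at *
  generalize K.eta h T.X T.Y Z = y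
  generalize K.eta h T.X T.X Z = x
  generalize K.eta h T.Y T.Y Z = z
  linear_combination ((y ^ 2 - x * z) * (r * m + s * n + 1)) * hu'

/-- the second order term of the optimal tilt is `F` -/
theorem tilt_identity (hs : ∀ A B, h A B = h B A) (p : P) (EXX EXY EYY : 𝔤)
    (pXX : EXX ∈ 𝔭) (pXY : EXY ∈ 𝔭) (pYY : EYY ∈ 𝔭)
    (h1 : K.IsEta h p T.X T.X EXX) (h2 : K.IsEta h p T.X T.Y EXY) (h3 : K.IsEta h p T.Y T.Y EYY) :
    inner ℝ EXY EXY - inner ℝ EXX EYY + 2 * K.ev p (K.R1 h T.X T.Y T.Y (T.UX h p))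
      + 2 * K.ev p (K.R1 h T.Y T.X T.X (T.UY h p))
      + ‖K.br T.X (T.UY h p) + K.br (T.UX h p) T.Y‖ ^ 2 = K.ev p (T.F h) := by
  have e1 := T.R1_tilt h p
  have e2 := T.norm_tilt h p
  have e3 := T.parseval EXY EXY pXY pXY
  have e4 := T.parseval EXX EYY pXX pYY
  have d1 : ∀ a, K.ev p (T.F2 h a) =
      (K.ev p (K.eta h T.X T.Y (T.Z a)) ^ 2
        - K.ev p (K.eta h T.X T.X (T.Z a)) * K.ev p (K.eta h T.Y T.Y (T.Z a)))
      - K.ev p (K.R1 h (T.W a) (T.B a) (T.B a) (T.Z a)) ^ 2 := by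
    intro a
    have f1 := congrArg (K.ev p) (T.det_inv h hs a (T.Z a))
    simp only [map_sub, map_mul, map_pow] at f1
    simp only [F2, map_sub, map_mul, map_pow]
    linear_combination f1
  have d2 : ∀ i, K.ev p (T.w i • T.F1 h i) = T.w i * (K.ev p (K.eta h T.X T.Y (T.C i)) ^ 2
        - K.ev p (K.eta h T.X T.X (T.C i)) * K.ev p (K.eta h T.Y T.Y (T.C i))) := by
    intro i
    simp only [F1, map_sub, map_mul, map_pow, map_smul, smul_eq_mul]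
  have d0 : K.ev p (T.F h) = K.ev p (T.F0 h)
      + ∑ i, T.w i * (K.ev p (K.eta h T.X T.Y (T.C i)) ^ 2
        - K.ev p (K.eta h T.X T.X (T.C i)) * K.ev p (K.eta h T.Y T.Y (T.C i)))
      + ∑ a, ((K.ev p (K.eta h T.X T.Y (T.Z a)) ^ 2
        - K.ev p (K.eta h T.X T.X (T.Z a)) * K.ev p (K.eta h T.Y T.Y (T.Z a)))
      - K.ev p (K.R1 h (T.W a) (T.B a) (T.B a) (T.Z a)) ^ 2) := by
    simp only [F, map_add, map_sum, d1, d2]
  rw [add_assoc (inner ℝ EXY EXY - inner ℝ EXX EYY), e1, e2, d0, e3, e4]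
  have h1' : ∀ C, inner ℝ EXX C = K.ev p (K.eta h T.X T.X C) := h1
  have h2' : ∀ C, inner ℝ EXY C = K.ev p (K.eta h T.X T.Y C) := h2
  have h3' : ∀ C, inner ℝ EYY C = K.ev p (K.eta h T.Y T.Y C) := h3
  have g1 : ∑ i, T.w i * (K.ev p (K.eta h T.X T.Y (T.C i)) ^ 2
        - K.ev p (K.eta h T.X T.X (T.C i)) * K.ev p (K.eta h T.Y T.Y (T.C i))) =
      ∑ i, T.w i * (inner ℝ EXY (T.C i) * inner ℝ EXY (T.C i))
      - ∑ i, T.w i * (inner ℝ EXX (T.C i) * inner ℝ EYY (T.C i)) := by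
    rw [← Finset.sum_sub_distrib]
    refine Finset.sum_congr rfl fun i _ => ?_
    rw [h1', h2', h3']
    ring
  have g2 : ∑ a, ((K.ev p (K.eta h T.X T.Y (T.Z a)) ^ 2
        - K.ev p (K.eta h T.X T.X (T.Z a)) * K.ev p (K.eta h T.Y T.Y (T.Z a)))
      - K.ev p (K.R1 h (T.W a) (T.B a) (T.B a) (T.Z a)) ^ 2) =
      ∑ a, inner ℝ EXY (T.Z a) * inner ℝ EXY (T.Z a)
      - ∑ a, inner ℝ EXX (T.Z a) * inner ℝ EYY (T.Z a)
      + ∑ a, -2 * K.ev p (K.R1 h (T.W a) (T.B a) (T.B a) (T.Z a)) ^ 2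
      + ∑ a, K.ev p (K.R1 h (T.W a) (T.B a) (T.B a) (T.Z a)) ^ 2 := by
    rw [← Finset.sum_sub_distrib, ← Finset.sum_add_distrib,
      ← Finset.sum_add_distrib]
    refine Finset.sum_congr rfl fun a _ => ?_
    rw [h1', h2', h3']
    ring
  rw [g1, g2, F0]
  simp only [h1', h2', h3', map_add, map_sub, map_mul, map_pow, map_smul, smul_eq_mul]
  ring

end SDatum

end noFD

lemma exists_tilt_bound : ∃ M : ℝ, ∀ j p, ‖T.UX (S.h j) p‖ ≤ M ∧ ‖T.UY (S.h j) p‖ ≤ M := by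
  obtain ⟨C, hC, hb⟩ := S.R1_bound
  have h1 : ∀ j p a Z, |K.ev p (K.R1 (S.h j) (T.W a) (T.B a) (T.B a) Z)| ≤
      C * ‖T.W a‖ * ‖T.B a‖ * ‖T.B a‖ * ‖Z‖ := by
    intro j p a Z
    have := hb j [] (by simp) (T.W a) (T.B a) (T.B a) Z p
    simpa [Calc.Dl] using this
  set D : T.ιR → ℝ := fun a => (C * ‖T.W a‖ * ‖T.B a‖ * ‖T.B a‖ * ‖T.Z a‖) * ‖T.Z a‖ with hD
  have h2 : ∀ j p a, ‖T.V (S.h j) p a‖ ≤ D a := by
    intro j p a
    rw [SDatum.V, norm_smul, Real.norm_eq_abs, abs_neg]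
    exact mul_le_mul_of_nonneg_right (h1 j p a (T.Z a)) (norm_nonneg _)
  have hD0 : ∀ a, 0 ≤ D a := fun a => by positivity
  refine ⟨∑ a, (|(T.s a : ℝ)| + |(T.r a : ℝ)|) * D a, fun j p => ⟨?_, ?_⟩⟩
  · refine (norm_sum_le _ _).trans (Finset.sum_le_sum fun a _ => ?_)
    rw [norm_smul, Real.norm_eq_abs]
    exact mul_le_mul (by linarith [abs_nonneg (T.r a : ℝ)]) (h2 j p a) (norm_nonneg _)
      (by positivity)
  · refine (norm_sum_le _ _).trans (Finset.sum_le_sum fun a _ => ?_)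
    rw [norm_smul, Real.norm_eq_abs, abs_neg]
    exact mul_le_mul (by linarith [abs_nonneg (T.s a : ℝ)]) (h2 j p a) (norm_nonneg _)
      (by positivity)

include S in
lemma mem_of_isEta (j : ℕ) (p : P) (A B E : 𝔤) (hA : A ∈ 𝔭) (hB : B ∈ 𝔭) (hS : SymP K 𝔭)
    (hE : K.IsEta (S.h j) p A B E) : E ∈ 𝔭 := by
  rw [← Submodule.orthogonal_orthogonal 𝔭, Submodule.mem_orthogonal]
  intro κ hκ
  rw [real_inner_comm]
  have h1 : inner ℝ E κ = K.ev p (K.eta (S.h j) A B κ) := hE κ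
  rw [h1, S.eta_k hS j A B κ hA hB hκ, map_zero]

/-- the pointwise inequality -/
lemma pt_ineq (hS : SymP K 𝔭) : ∃ C : ℝ, 0 < C ∧ ∀ᶠ j in atTop, ∀ p,
    S.ε * S.t j ^ 2 * ((‖T.X‖ ^ 2 * ‖T.Y‖ ^ 2 - inner ℝ T.X T.Y ^ 2) / 2) ≤
      S.t j * K.ev p (K.Q (S.h j) T.X T.Y) + S.t j ^ 2 * K.ev p (T.F (S.h j)) + C * S.t j ^ 3 := by
  obtain ⟨M, hM⟩ := exists_tilt_bound S T
  obtain ⟨C, hC, hE⟩ := S.num_expB T.X T.Y T.brXY M
  have hG := S.gram_low T.X T.Y T.ind M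
  have hN := S.exists_nabla
  have hg := gram_pos T.ind
  obtain ⟨c, hc, hbr⟩ := K.br_bound
  set D : ℝ := c * ‖T.X‖ * |M| + c * |M| * ‖T.Y‖ with hD
  set D2 : ℝ := c * |M| * |M| with hD2
  refine ⟨C + (3 / 4) * (2 * D * D2 + D2 ^ 2), by positivity, ?_⟩
  have ht1 : ∀ᶠ j in atTop, S.t j ≤ 1 := by
    filter_upwards [(tendsto_order.1 S.t_lim).2 1 one_pos] with j hj
    exact hj.le
  filter_upwards [hE, hG, hN, ht1] with j h1 h2 h3 ht1 p
  have hU := (hM j p).1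
  have hV := (hM j p).2
  have pU := T.pUX (S.h j) p
  have pV := T.pUY (S.h j) p
  set U := T.UX (S.h j) p with hUd
  set V := T.UY (S.h j) p with hVd
  obtain ⟨Vuu, a1⟩ := h3 p (T.X + S.t j • U) (T.X + S.t j • U)
  obtain ⟨Vuv, a2⟩ := h3 p (T.X + S.t j • U) (T.Y + S.t j • V)
  obtain ⟨Vvu, a3⟩ := h3 p (T.Y + S.t j • V) (T.X + S.t j • U)
  obtain ⟨Vvv, a4⟩ := h3 p (T.Y + S.t j • V) (T.Y + S.t j • V)
  obtain ⟨EXX, b1⟩ := K.exists_eta (S.h j) p T.X T.X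
  obtain ⟨EXY, b2⟩ := K.exists_eta (S.h j) p T.X T.Y
  obtain ⟨EYY, b3⟩ := K.exists_eta (S.h j) p T.Y T.Y
  have c1 := h1 p U V hU hV Vuu Vuv Vvu Vvv EXX EXY EYY a1 a2 a3 a4 b1 b2 b3
  have c2 := h2 p U V hU hV
  have hi := S.indep_of_gram j p _ _ (lt_of_lt_of_le (by linarith) c2)
  have c3 := S.pos j p _ _ (𝔭.add_mem T.pX (𝔭.smul_mem _ pU)) (𝔭.add_mem T.pY (𝔭.smul_mem _ pV))
    hi Vuu Vuv Vvu Vvv a1 a2 a3 a4
  have c4 := T.tilt_identity (S.h j) (S.symm j) p EXX EXY EYY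
    (mem_of_isEta S j p _ _ _ T.pX T.pX hS b1) (mem_of_isEta S j p _ _ _ T.pX T.pY hS b2)
    (mem_of_isEta S j p _ _ _ T.pY T.pY hS b3) b1 b2 b3
  have c5 := (abs_le.1 c1).2
  have c6 : S.ε * S.t j ^ 2 * ((‖T.X‖ ^ 2 * ‖T.Y‖ ^ 2 - inner ℝ T.X T.Y ^ 2) / 2) ≤
      S.ε * S.t j ^ 2 * K.gram (K.met (S.t j) (S.h j)) p (T.X + S.t j • U) (T.Y + S.t j • V) :=
    mul_le_mul_of_nonneg_left c2 (mul_nonneg S.ε_pos.le (sq_nonneg _))
  rw [← hUd, ← hVd] at c4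
  -- the O'Neill term
  have t0 := S.t_pos j
  set w1 := K.br T.X V + K.br U T.Y with hw1
  have hbrr : K.br (T.X + S.t j • U) (T.Y + S.t j • V) =
      S.t j • w1 + (S.t j ^ 2) • K.br U V := by
    rw [hw1]
    simp only [map_add, LinearMap.add_apply, map_smul, LinearMap.smul_apply, T.brXY]
    module
  have n1 : ‖w1‖ ≤ D := by
    rw [hw1, hD]
    refine (norm_add_le _ _).trans (add_le_add ?_ ?_)
    · refine (hbr _ _).trans ?_
      exact mul_le_mul_of_nonneg_left (hV.trans (le_abs_self M)) (by positivity)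
    · refine (hbr _ _).trans ?_
      refine mul_le_mul_of_nonneg_right ?_ (norm_nonneg _)
      exact mul_le_mul_of_nonneg_left (hU.trans (le_abs_self M)) hc.le
  have n2 : ‖K.br U V‖ ≤ D2 := by
    refine (hbr _ _).trans ?_
    rw [hD2]
    exact mul_le_mul (mul_le_mul_of_nonneg_left (hU.trans (le_abs_self M)) hc.le)
      (hV.trans (le_abs_self M)) (norm_nonneg _) (by positivity)
  have hD0 : 0 ≤ D := (norm_nonneg _).trans n1
  have hD20 : 0 ≤ D2 := (norm_nonneg _).trans n2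
  have n3 : ‖K.br (T.X + S.t j • U) (T.Y + S.t j • V)‖ ^ 2 ≤
      S.t j ^ 2 * ‖w1‖ ^ 2 + (2 * D * D2 + D2 ^ 2) * S.t j ^ 3 := by
    have h4 : ‖K.br (T.X + S.t j • U) (T.Y + S.t j • V)‖ ≤
        S.t j * ‖w1‖ + S.t j ^ 2 * ‖K.br U V‖ := by
      rw [hbrr]
      refine (norm_add_le _ _).trans (le_of_eq ?_)
      rw [norm_smul, norm_smul, Real.norm_of_nonneg t0.le, Real.norm_of_nonneg (by positivity)]
    have h5 : ‖K.br (T.X + S.t j • U) (T.Y + S.t j • V)‖ ^ 2 ≤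
        (S.t j * ‖w1‖ + S.t j ^ 2 * ‖K.br U V‖) ^ 2 := pow_le_pow_left₀ (norm_nonneg _) h4 2
    have h6 : ‖w1‖ * ‖K.br U V‖ ≤ D * D2 := mul_le_mul n1 n2 (norm_nonneg _) hD0
    have h7 : ‖K.br U V‖ ^ 2 ≤ D2 ^ 2 := pow_le_pow_left₀ (norm_nonneg _) n2 2
    have h8 : S.t j ^ 4 * ‖K.br U V‖ ^ 2 ≤ S.t j ^ 3 * D2 ^ 2 := by
      have h9 : S.t j ^ 4 ≤ S.t j ^ 3 := by
        have : S.t j ^ 4 = S.t j ^ 3 * S.t j := by ring
        rw [this]
        exact mul_le_of_le_one_right (by positivity) ht1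
      exact mul_le_mul h9 h7 (by positivity) (by positivity)
    have h10 : S.t j ^ 3 * (‖w1‖ * ‖K.br U V‖) ≤ S.t j ^ 3 * (D * D2) :=
      mul_le_mul_of_nonneg_left h6 (by positivity)
    have h11 : (S.t j * ‖w1‖ + S.t j ^ 2 * ‖K.br U V‖) ^ 2 =
        S.t j ^ 2 * ‖w1‖ ^ 2 + 2 * (S.t j ^ 3 * (‖w1‖ * ‖K.br U V‖)) +
          S.t j ^ 4 * ‖K.br U V‖ ^ 2 := by ring
    rw [h11] at h5
    have h12 : (2 * D * D2 + D2 ^ 2) * S.t j ^ 3 =
        2 * (S.t j ^ 3 * (D * D2)) + S.t j ^ 3 * D2 ^ 2 := by ring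
    rw [h12]
    linarith
  rw [← c4]
  generalize K.num (K.met (S.t j) (S.h j)) p (T.X + S.t j • U) (T.Y + S.t j • V) Vuu Vuv Vvu Vvv
    = num at *
  have h13 : (C + (3 / 4) * (2 * D * D2 + D2 ^ 2)) * S.t j ^ 3 =
      C * S.t j ^ 3 + (3 / 4) * ((2 * D * D2 + D2 ^ 2) * S.t j ^ 3) := by ring
  rw [h13]
  nlinarith [c3, c5, c6, n3]

/-- There is no sequence of metrics as in `SPert`, if there is an invariant mean and a closed torus
such that the `W`-invariant parts of the root terms are fine. -/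
theorem contra (hS : SymP K 𝔭) (M : Mean K) (hok : ∀ j, T.Ok M (S.h j)) : False := by
  obtain ⟨C, hC, hpt⟩ := pt_ineq S T hS
  have hg := gram_pos T.ind
  set g := S.ε * ((‖T.X‖ ^ 2 * ‖T.Y‖ ^ 2 - inner ℝ T.X T.Y ^ 2) / 2) with hgd
  have hg0 : 0 < g := by
    have := S.ε_pos
    rw [hgd]
    positivity
  have ht : ∀ᶠ j in atTop, S.t j < g / (4 * C) :=
    (tendsto_order.1 S.t_lim).2 _ (by positivity)
  obtain ⟨j, h1, h2, h3⟩ := (hpt.and ((F_le S T hS M hok (g / 4) (by positivity)).and ht)).exists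
  have t0 := S.t_pos j
  have t2 : 0 < S.t j ^ 2 := by positivity
  have k1 := M.mono (algebraMap ℝ K.𝒜 (S.ε * S.t j ^ 2 *
      ((‖T.X‖ ^ 2 * ‖T.Y‖ ^ 2 - inner ℝ T.X T.Y ^ 2) / 2)))
    (S.t j • K.Q (S.h j) T.X T.Y + S.t j ^ 2 • T.F (S.h j) + algebraMap ℝ K.𝒜 (C * S.t j ^ 3))
    (fun q => by
      have := h1 q
      simp only [map_add, map_smul, smul_eq_mul, AlgHom.commutes]
      exact this)
  have hQ : M.E (K.Q (S.h j) T.X T.Y) = 0 := by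
    rw [Calc.Q, map_sub, M.inv, M.inv, sub_zero]
  rw [M.const, map_add, map_add, map_smul, map_smul, M.const, hQ, smul_zero, zero_add,
    smul_eq_mul] at k1
  have k3 : S.t j ^ 2 * g ≤ S.t j ^ 2 * (g / 4 + C * S.t j) := by
    have : S.t j ^ 2 * M.E (T.F (S.h j)) ≤ S.t j ^ 2 * (g / 4) :=
      mul_le_mul_of_nonneg_left h2 t2.le
    rw [hgd] at this ⊢
    nlinarith
  have k4 := le_of_mul_le_mul_left k3 t2
  rw [lt_div_iff₀ (by positivity)] at h3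
  linarith

end Pool.Agent.TH109.SS
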