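import Pool.Agent.TH109.SS.Good

/-!
Construction of the torus datum of a symmetric space, and the contradiction.
-/

open Module Pool.Agent.H842R4 Pool.Agent.H842R4.Calc Pool.Agent.TH109.CG2 Pool.Agent.TH109.CG3

noncomputable section

namespace Pool.Agent.TH109.SS

variable {P 𝔤 : Type} [NormedAddCommGroup 𝔤] [InnerProductSpace ℝ 𝔤]
variable {K : Calc P 𝔤} {𝔭 : Submodule ℝ 𝔤}

theorem cl_neg {A : 𝔤} (h : K.Cl A) : K.Cl (-A) := by
  intro p
  have h1 := K.fl_comb A A (K.br_self A) (-1) 0 (2 * Real.pi) p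
  rw [zero_smul, add_zero, neg_one_smul, zero_mul, K.fl_zero] at h1
  rw [h1]
  have h2 := K.fl_add A (-1 * (2 * Real.pi)) (2 * Real.pi) p
  rw [h p] at h2
  rw [← h2]
  have : -1 * (2 * Real.pi) + 2 * Real.pi = 0 := by ring
  rw [this, K.fl_zero]

theorem exists_sdatum [FiniteDimensional ℝ 𝔤] (hS : SymP K 𝔭) (X Y : 𝔤) (pX : X ∈ 𝔭) (pY : Y ∈ 𝔭)
    (hXY : K.br X Y = 0) (clX : K.Cl X) (clY : K.Cl Y) (ind : LinearIndependent ℝ ![X, Y])
    (hI : ∀ (V A B : 𝔤) (μ : ℝ), K.Cl V → A ≠ 0 → K.br V A = μ • B → K.br V B = -(μ • A) →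
      ∃ m : ℤ, μ = m)
    (hgood : SGoodW K 𝔭 X Y)
    (hsq : ∀ A ∈ 𝔭, K.br X A = 0 → K.br Y A = 0 →
      CG.sq A ∈ Submodule.span ℝ
        (CG.sq '' {C | C ∈ 𝔭 ∧ K.Cl C ∧ K.br X C = 0 ∧ K.br Y C = 0})) :
    ∃ T : SDatum K 𝔭, ∀ a, K.Cl (T.B a) ∨ (K.Cl ((2 : ℝ) • T.B a) ∧
      ∃ l : ℝ, K.br (T.Z a) (T.J a) = l • T.B a) := by
  classical
  have h1 : ∀ u v : 𝔤, inner ℝ (K.br X u) v = - inner ℝ u (K.br X v) := br_skew K X
  have h2 : ∀ u v : 𝔤, inner ℝ (K.br Y u) v = - inner ℝ u (K.br Y v) := br_skew K Y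
  have hc : ∀ u, K.br X (K.br Y u) = K.br Y (K.br X u) := by
    intro u
    rw [K.jac, hXY, LinearMap.map_zero, LinearMap.zero_apply, zero_add]
  obtain ⟨ι0, ιR, f0, fR, e, μ, ν, Z1, Z2, he, hZ, hw, hne, ho, hp⟩ :=
    exists_sweights (K.br X) (K.br Y) h1 h2 hc _ 𝔭 le_rfl
      (fun u hu => hS.pk X _ pX (hS.pp X u pX hu)) (fun u hu => hS.pk Y _ pY (hS.pp Y u pY hu))
      (fun u hu => hS.pk X _ pX (hS.pp Y u pY hu))
  have hsum : ∑ i, CG.sq (e i) ∈
      Submodule.span ℝ (CG.sq '' {C | C ∈ 𝔭 ∧ K.Cl C ∧ K.br X C = 0 ∧ K.br Y C = 0}) :=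
    Submodule.sum_mem _ fun i _ => hsq (e i) (he i).1 (he i).2.1 (he i).2.2
  obtain ⟨n, f, g, hfg⟩ := Submodule.mem_span_set'.1 hsum
  have hg : ∀ i, ∃ C : 𝔤, (C ∈ 𝔭 ∧ K.Cl C ∧ K.br X C = 0 ∧ K.br Y C = 0) ∧
      CG.sq C = (g i : 𝔤 × 𝔤 → ℝ) := fun i => (g i).2
  choose C hC hCg using hg
  have hdep : ∀ i, ∃ α β : ℝ, ¬ LinearIndependent ℝ ![X, Y, C i] → C i = α • X + β • Y := by
    intro i
    by_cases h : LinearIndependent ℝ ![X, Y, C i]
    · exact ⟨0, 0, fun h' => absurd h h'⟩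
    · obtain ⟨α, β, hab⟩ := CG.dep_of_not_indep ind h
      exact ⟨α, β, fun _ => hab⟩
  choose α β hαβ using hdep
  have hwt : ∀ a, ∃ r s k : ℝ, r * μ a + s * ν a = 1 ∧ k ≠ 0 ∧
      K.Cl (k • (r • X + s • Y)) ∧ K.Cl (ν a • X + (-(μ a)) • Y) ∧
      (K.Cl (r • X + s • Y) ∨ (K.Cl ((2 : ℝ) • (r • X + s • Y)) ∧
        ∃ l : ℝ, K.br (Z1 a) (Z2 a) = l • (r • X + s • Y))) := by
    intro a
    have hA : Z1 a ≠ 0 := by
      intro h
      have := (hZ a).2
      rw [h, norm_zero] at this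
      exact zero_ne_one this
    obtain ⟨m, hm⟩ := hI X (Z1 a) (Z2 a) (μ a) clX hA (hw a).1 (hw a).2.1
    obtain ⟨n, hn⟩ := hI Y (Z1 a) (Z2 a) (ν a) clY hA (hw a).2.2.1 (hw a).2.2.2
    have hwt : Wt K X Y m n (Z1 a) (Z2 a) := by
      rw [← hm, ← hn]
      exact hw a
    have hcl : K.Cl ((n : ℝ) • X + (-(m : ℝ)) • Y) := by
      have := cl_comb' hXY clX clY n (-m)
      rwa [Int.cast_neg] at this
    rw [hm, hn]
    rcases hgood m n (Z1 a) (Z2 a) (hZ a).1 hA hwt with h | h | ⟨h0, hmm, c, hc'⟩ | ⟨h0, hmm, c, hc'⟩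
    · exfalso
      rcases hne a with h' | h'
      · exact h' (by rw [hm, h.1]; norm_num)
      · exact h' (by rw [hn, h.2]; norm_num)
    · obtain ⟨r, s, hrs⟩ := h
      have hcl2 := cl_comb' hXY clX clY r s
      refine ⟨r, s, 1, by exact_mod_cast hrs, one_ne_zero, by rwa [one_smul], hcl, Or.inl hcl2⟩
    · subst h0
      rcases hmm with rfl | rfl
      · refine ⟨1 / 2, 0, 2, by norm_num, two_ne_zero, ?_, hcl, Or.inr ⟨?_, 2 * c, ?_⟩⟩
        · have e : (2 : ℝ) • ((1 / 2 : ℝ) • X + (0 : ℝ) • Y) = X := by module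
          rw [e]; exact clX
        · have e : (2 : ℝ) • ((1 / 2 : ℝ) • X + (0 : ℝ) • Y) = X := by module
          rw [e]; exact clX
        · rw [hc']; module
      · refine ⟨-(1 / 2), 0, 2, by norm_num, two_ne_zero, ?_, hcl, Or.inr ⟨?_, -(2 * c), ?_⟩⟩
        · have e : (2 : ℝ) • ((-(1 / 2) : ℝ) • X + (0 : ℝ) • Y) = -X := by module
          rw [e]; exact cl_neg clX
        · have e : (2 : ℝ) • ((-(1 / 2) : ℝ) • X + (0 : ℝ) • Y) = -X := by module
          rw [e]; exact cl_neg clX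
        · rw [hc']; module
    · subst h0
      rcases hmm with rfl | rfl
      · refine ⟨0, 1 / 2, 2, by norm_num, two_ne_zero, ?_, hcl, Or.inr ⟨?_, 2 * c, ?_⟩⟩
        · have e : (2 : ℝ) • ((0 : ℝ) • X + (1 / 2 : ℝ) • Y) = Y := by module
          rw [e]; exact clY
        · have e : (2 : ℝ) • ((0 : ℝ) • X + (1 / 2 : ℝ) • Y) = Y := by module
          rw [e]; exact clY
        · rw [hc']; module
      · refine ⟨0, -(1 / 2), 2, by norm_num, two_ne_zero, ?_, hcl, Or.inr ⟨?_, -(2 * c), ?_⟩⟩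
        · have e : (2 : ℝ) • ((0 : ℝ) • X + (-(1 / 2) : ℝ) • Y) = -Y := by module
          rw [e]; exact cl_neg clY
        · have e : (2 : ℝ) • ((0 : ℝ) • X + (-(1 / 2) : ℝ) • Y) = -Y := by module
          rw [e]; exact cl_neg clY
        · rw [hc']; module
  choose r s k w1 w2 w3 w4 w5 using hwt
  have key : ∀ u v : 𝔤, ∑ i, inner ℝ u (e i) * inner ℝ v (e i) =
      ∑ i, f i * (inner ℝ u (C i) * inner ℝ v (C i)) := by
    intro u v
    have h3 := congrFun hfg (u, v)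
    simp only [Finset.sum_apply, Pi.smul_apply, ← hCg, smul_eq_mul, CG.sq] at h3
    exact h3.symm
  have hJp : ∀ a, Z2 a ∈ 𝔭ᗮ := by
    intro a
    rcases hne a with h | h
    · have h3 := hS.pp X (Z1 a) pX (hZ a).1
      rw [(hw a).1] at h3
      have h4 := 𝔭ᗮ.smul_mem (μ a)⁻¹ h3
      rwa [smul_smul, inv_mul_cancel₀ h, one_smul] at h4
    · have h3 := hS.pp Y (Z1 a) pY (hZ a).1
      rw [(hw a).2.2.1] at h3
      have h4 := 𝔭ᗮ.smul_mem (ν a)⁻¹ h3
      rwa [smul_smul, inv_mul_cancel₀ h, one_smul] at h4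
  let T : SDatum K 𝔭 :=
    { X := X
      Y := Y
      pX := pX
      pY := pY
      brXY := hXY
      clX := clX
      clY := clY
      ind := ind
      q11 := ∑ i, if LinearIndependent ℝ ![X, Y, C i] then 0 else f i * (α i * α i)
      q12 := ∑ i, if LinearIndependent ℝ ![X, Y, C i] then 0 else f i * (α i * β i)
      q22 := ∑ i, if LinearIndependent ℝ ![X, Y, C i] then 0 else f i * (β i * β i)
      ιC := {i // LinearIndependent ℝ ![X, Y, C i]}
      fC := inferInstance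
      C := fun i => C i.1
      w := fun i => f i.1
      pC := fun i => (hC i.1).1
      clC := fun i => (hC i.1).2.1
      brXC := fun i => (hC i.1).2.2.1
      brYC := fun i => (hC i.1).2.2.2
      indC := fun i => i.2
      ιR := ιR
      fR := fR
      m := μ
      n := ν
      r := r
      s := s
      k := k
      unim' := w1
      k_ne := w2
      clB' := w3
      clW' := w4
      Z := Z1
      J := Z2
      pZ := fun a => (hZ a).1
      pJ := hJp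
      brX1 := fun a => (hw a).1
      brX2 := fun a => (hw a).2.1
      brY1 := fun a => (hw a).2.2.1
      brY2 := fun a => (hw a).2.2.2
      orth := ho
      parseval := by
        intro u v _ hv
        rw [hp u v hv, key]
        congr 1
        have h5 : ∑ i : {i // LinearIndependent ℝ ![X, Y, C i]},
            f i.1 * (inner ℝ u (C i.1) * inner ℝ v (C i.1)) =
            ∑ i, if LinearIndependent ℝ ![X, Y, C i] then
              f i * (inner ℝ u (C i) * inner ℝ v (C i)) else 0 := by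
          rw [← Finset.sum_filter]
          exact (Finset.sum_subtype (Finset.univ.filter fun i => LinearIndependent ℝ ![X, Y, C i])
            (by simp) (fun i => f i * (inner ℝ u (C i) * inner ℝ v (C i)))).symm
        rw [h5, Finset.sum_mul, Finset.sum_mul, Finset.sum_mul, ← Finset.sum_add_distrib,
          ← Finset.sum_add_distrib, ← Finset.sum_add_distrib]
        refine Finset.sum_congr rfl fun i _ => ?_
        by_cases h : LinearIndependent ℝ ![X, Y, C i]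
        · simp only [if_pos h]
          ring
        · simp only [if_neg h]
          rw [hαβ i h]
          simp only [inner_add_right, real_inner_smul_right]
          ring }
  exact ⟨T, w5⟩

/-- rotations -/
theorem Ad_rotm (H A B : 𝔤) (μ : ℝ) (h1 : K.br H A = μ • B) (h2 : K.br H B = -(μ • A)) (s : ℝ) :
    K.Ad H s A = Real.cos (μ * s) • A + Real.sin (μ * s) • B := by
  have hcos : ∀ s : ℝ, HasDerivAt (fun u => Real.cos (μ * u)) (-(μ * Real.sin (μ * s))) s := by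
    intro s
    have := ((hasDerivAt_id s).const_mul μ).cos
    simp only [id, mul_one] at this
    refine this.congr_deriv ?_
    ring
  have hsin : ∀ s : ℝ, HasDerivAt (fun u => Real.sin (μ * u)) (μ * Real.cos (μ * s)) s := by
    intro s
    have := ((hasDerivAt_id s).const_mul μ).sin
    simp only [id, mul_one] at this
    refine this.congr_deriv ?_
    ring
  have h := uniq K H (fun s => K.Ad H s A - (Real.cos (μ * s) • A + Real.sin (μ * s) • B))
    (fun s => by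
      have h3 := (K.Ad_der H A s).sub (((hcos s).smul_const A).add ((hsin s).smul_const B))
      refine h3.congr_deriv ?_
      simp only [map_sub, map_add, map_smul, h1, h2]
      module) (by simp [K.Ad_zero]) s
  exact sub_eq_zero.1 h

/-- The equivariance of a sequence of perturbations under the elements `exp(π H)` of the isotropy
group. -/
def Per (S : SPert K 𝔭) : Prop :=
  ∀ j H A B, H ∈ 𝔭 → K.Cl H → A ∈ 𝔭 → B ∈ 𝔭 → ∀ p, K.ev (K.fl H Real.pi p) (S.h j A B) =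
    K.ev p (S.h j (K.Ad H Real.pi A) (K.Ad H Real.pi B))

variable {M : Mean K} (Tt : Tr K M)

theorem Av_R (W H : 𝔤) (s : ℝ) (hWH : K.br W H = 0) (f : K.𝒜) :
    K.Av W (Tt.R H s f) = Tt.R H s (K.Av W f) := by
  apply K.ext_ev
  intro p
  rw [Tt.ev_R, ev_Av, ev_Av]
  simp only [Tt.ev_R, K.fl_comm W H hWH]

theorem R_D (H A A' : 𝔤) (s : ℝ) (hA : K.Ad H (-s) A = A') (f : K.𝒜) :
    Tt.R H s (K.D A' f) = K.D A (Tt.R H s f) := by
  rw [Tt.D_R, hA]

theorem b_formula (S : SPert K 𝔭) (j : ℕ) {B W Z J : 𝔤} (pJ : J ∈ 𝔭ᗮ) (hBW : K.br B W = 0)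
    (hWZ : K.br W Z = 0) (hBZ : K.br B Z = J) :
    K.eta (S.h j) B W Z = (1 / 2 : ℝ) • (K.D B (S.h j W Z) + K.D W (S.h j B Z)
      - K.D Z (S.h j B W)) := by
  rw [Calc.eta, hBW, hWZ, hBZ, S.hor j J W pJ]
  simp only [map_zero, LinearMap.zero_apply]
  module

include Tt in
theorem ok_prim (S : SPert K 𝔭) (hP : Per S) (j : ℕ) {B W Z J : 𝔤} (pB : B ∈ 𝔭) (pW : W ∈ 𝔭)
    (pZ : Z ∈ 𝔭) (pJ : J ∈ 𝔭ᗮ) (hBW : K.br B W = 0) (hWZ : K.br W Z = 0) (hBZ : K.br B Z = J)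
    (hBJ : K.br B J = -Z) (cB : K.Cl B) :
    M.E ((K.Av W (K.eta (S.h j) B W Z)) ^ 2) ≤
      M.E ((K.D B (K.Av W (K.eta (S.h j) B W Z))) ^ 2) := by
  have hWB : K.br W B = 0 := by rw [K.br_anti, hBW, neg_zero]
  have aB : ∀ s, K.Ad B s B = B := fun s => K.Ad_fix B s B (K.br_self B)
  have aW : ∀ s, K.Ad B s W = W := fun s => K.Ad_fix B s W hBW
  have hrot : ∀ s, K.Ad B s Z = Real.cos (1 * s) • Z + Real.sin (1 * s) • J :=
    Ad_rotm B Z J 1 (by rw [hBZ, one_smul]) (by rw [hBJ, one_smul])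
  have aZ : K.Ad B Real.pi Z = -Z := by rw [hrot, one_mul]; simp
  have aZ' : K.Ad B (-Real.pi) (-Z) = Z := by
    rw [Ad_neg_arg, hrot, one_mul]; simp
  have hR : ∀ A C, A ∈ 𝔭 → C ∈ 𝔭 → Tt.R B Real.pi (S.h j A C) =
      S.h j (K.Ad B Real.pi A) (K.Ad B Real.pi C) := by
    intro A C hA hC
    apply K.ext_ev
    intro p
    rw [Tt.ev_R, hP j B A C pB cB hA hC]
  have hb : Tt.R B Real.pi (K.eta (S.h j) B W Z) = -(K.eta (S.h j) B W Z) := by
    rw [b_formula S j pJ hBW hWZ hBZ, Tt.R_smul, Tt.R_sub, Tt.R_add, R_D Tt B B B _ (aB _),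
      R_D Tt B W W _ (aW _), R_D Tt B (-Z) Z _ aZ', hR W Z pW pZ, hR B Z pB pZ, hR B W pB pW, aB,
      aW, aZ]
    simp only [map_neg, LinearMap.neg_apply]
    module
  have hφ : Tt.R B Real.pi (K.Av W (K.eta (S.h j) B W Z)) = -(K.Av W (K.eta (S.h j) B W Z)) := by
    rw [← Av_R Tt W B _ hWB, hb, map_neg]
  refine wirt Tt B _ (fun p => by rw [cB p]) (Av_anti B _ fun p => ?_)
  rw [← Tt.ev_R, hφ, map_neg]

include Tt in
theorem ok_spec (S : SPert K 𝔭) (hP : Per S) (j : ℕ) {B W Z J : 𝔤} (pB : B ∈ 𝔭) (pW : W ∈ 𝔭)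
    (pZ : Z ∈ 𝔭) (pJ : J ∈ 𝔭ᗮ) (hBW : K.br B W = 0) (hWZ : K.br W Z = 0) (hWJ : K.br W J = 0)
    (hBZ : K.br B Z = J) (hBJ : K.br B J = -Z) (cW : K.Cl W) (cB : K.Cl ((2 : ℝ) • B)) (l : ℝ)
    (hZJ : K.br Z J = l • B) :
    M.E ((K.Av W (K.eta (S.h j) B W Z)) ^ 2) ≤
      M.E ((K.D B (K.Av W (K.eta (S.h j) B W Z))) ^ 2) := by
  have hWB : K.br W B = 0 := by rw [K.br_anti, hBW, neg_zero]
  have hJW : K.br J W = 0 := by rw [K.br_anti, hWJ, neg_zero]
  have hJB : K.br J B = Z := by rw [K.br_anti, hBJ, neg_neg]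
  have hJZ : K.br J Z = -(l • B) := by rw [K.br_anti, hZJ]
  set H : 𝔤 := (2 : ℝ) • B with hH
  have pH : H ∈ 𝔭 := 𝔭.smul_mem _ pB
  have hHB : K.br H B = 0 := by rw [hH, map_smul, LinearMap.smul_apply, K.br_self, smul_zero]
  have hHW : K.br H W = 0 := by rw [hH, map_smul, LinearMap.smul_apply, hBW, smul_zero]
  have hWH : K.br W H = 0 := by rw [K.br_anti, hHW, neg_zero]
  have aB : ∀ s, K.Ad H s B = B := fun s => K.Ad_fix H s B hHB
  have aW : ∀ s, K.Ad H s W = W := fun s => K.Ad_fix H s W hHW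
  have hrot : ∀ s, K.Ad H s Z = Real.cos (2 * s) • Z + Real.sin (2 * s) • J :=
    Ad_rotm H Z J 2 (by rw [hH, map_smul, LinearMap.smul_apply, hBZ])
      (by rw [hH, map_smul, LinearMap.smul_apply, hBJ, smul_neg])
  have aZ : K.Ad H Real.pi Z = Z := by rw [hrot]; simp
  have aZ' : K.Ad H (-Real.pi) Z = Z := by rw [hrot]; simp
  have hR : ∀ A C, A ∈ 𝔭 → C ∈ 𝔭 → Tt.R H Real.pi (S.h j A C) =
      S.h j (K.Ad H Real.pi A) (K.Ad H Real.pi C) := by
    intro A C hA hC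
    apply K.ext_ev
    intro p
    rw [Tt.ev_R, hP j H A C pH cB hA hC]
  have hb : Tt.R H Real.pi (K.eta (S.h j) B W Z) = K.eta (S.h j) B W Z := by
    rw [b_formula S j pJ hBW hWZ hBZ, Tt.R_smul, Tt.R_sub, Tt.R_add, R_D Tt H B B _ (aB _),
      R_D Tt H W W _ (aW _), R_D Tt H Z Z _ aZ', hR W Z pW pZ, hR B Z pB pZ, hR B W pB pW, aB,
      aW, aZ]
  have hφR : Tt.R H Real.pi (K.Av W (K.eta (S.h j) B W Z)) = K.Av W (K.eta (S.h j) B W Z) := by
    rw [← Av_R Tt W H _ hWH, hb]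
  have hper : ∀ p, K.ev (K.fl B (2 * Real.pi) p) (K.Av W (K.eta (S.h j) B W Z)) =
      K.ev p (K.Av W (K.eta (S.h j) B W Z)) := by
    intro p
    have h1 : K.fl B (2 * Real.pi) p = K.fl H Real.pi p := by
      have h2 := K.fl_comb B B (K.br_self B) 2 0 Real.pi p
      rw [zero_smul, add_zero, zero_mul, K.fl_zero] at h2
      rw [hH, h2]
    rw [h1, ← Tt.ev_R, hφR]
  -- the one-form
  set x : K.𝒜 := K.Av W (S.h j Z W) with hx
  set y : K.𝒜 := K.Av W (S.h j B W) with hy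
  have e1 : (2 : ℝ) • K.Av W (K.eta (S.h j) B W Z) = K.D B x - K.D Z y := by
    rw [b_formula S j pJ hBW hWZ hBZ, map_smul, map_sub, map_add, K.Av_D W cW, hx, hy,
      K.D_Av_comm W B hWB, K.D_Av_comm W Z hWZ, S.symm j W Z]
    module
  have e2 : K.D J y = x := by
    rw [hy, hx, K.D_Av_comm W J hWJ, S.eqv j J B W pJ pB pW, hJB, hJW, map_zero, add_zero]
  have e3 : K.D J x = -(l • y) := by
    rw [hy, hx, K.D_Av_comm W J hWJ, S.eqv j J Z W pJ pZ pW, hJW, hJZ, map_zero, add_zero,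
      map_neg, LinearMap.neg_apply, map_smul, LinearMap.smul_apply, map_neg, map_smul]
  have e4 : K.D J (K.Av W (K.eta (S.h j) B W Z)) = 0 := by
    have h1 : (2 : ℝ) • K.D J (K.Av W (K.eta (S.h j) B W Z)) = 0 := by
      rw [← map_smul, e1, map_sub, D_swap J B Z hJB, D_swap J Z (-(l • B)) hJZ, e2, e3]
      simp only [map_neg, map_smul, LinearMap.neg_apply, LinearMap.smul_apply]
      module
    exact (smul_eq_zero.1 h1).resolve_left two_ne_zero
  refine poincare Tt B Z J _ x y hper e4 e1 e2 ?_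
  intro s
  have h1 := Ad_rotm (K := K) B J (-Z) 1 (by rw [hBJ, one_smul]) (by rw [map_neg, hBZ, one_smul])
    (-s)
  rw [h1, one_mul, Real.cos_neg, Real.sin_neg]
  module

include Tt in
/-- There is no equivariant sequence of perturbations for a torus with good weights. -/
theorem contra_good [FiniteDimensional ℝ 𝔤] (hS : SymP K 𝔭) (S : SPert K 𝔭) (hP : Per S)
    (X Y : 𝔤) (pX : X ∈ 𝔭) (pY : Y ∈ 𝔭)
    (hXY : K.br X Y = 0) (clX : K.Cl X) (clY : K.Cl Y) (ind : LinearIndependent ℝ ![X, Y])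
    (hI : ∀ (V A B : 𝔤) (μ : ℝ), K.Cl V → A ≠ 0 → K.br V A = μ • B → K.br V B = -(μ • A) →
      ∃ m : ℤ, μ = m)
    (hgood : SGoodW K 𝔭 X Y)
    (hsq : ∀ A ∈ 𝔭, K.br X A = 0 → K.br Y A = 0 →
      CG.sq A ∈ Submodule.span ℝ
        (CG.sq '' {C | C ∈ 𝔭 ∧ K.Cl C ∧ K.br X C = 0 ∧ K.br Y C = 0})) : False := by
  obtain ⟨T, hT⟩ := exists_sdatum hS X Y pX pY hXY clX clY ind hI hgood hsq
  refine contra S T hS M fun j a => ?_
  rcases hT a with h | ⟨h, l, hl⟩
  · exact ok_prim Tt S hP j (T.pB a) (T.pW a) (T.pZ a) (T.pJ a) (T.brBW a) (T.brW1 a) (T.brB1 a)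
      (T.brB2 a) h
  · exact ok_spec Tt S hP j (T.pB a) (T.pW a) (T.pZ a) (T.pJ a) (T.brBW a) (T.brW1 a) (T.brW2 a)
      (T.brB1 a) (T.brB2 a) (T.clW a) h l hl

end Pool.Agent.TH109.SS
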