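import Pool.Agent.TH109.SS.Invo

/-!
Existence of a closed torus with good weights in `𝔭`.
-/

open scoped ContDiff Matrix.Norms.Frobenius Topology
open Matrix Filter Module Pool.Agent.H842R4 Pool.Agent.H842R4.Calc
open Pool.Agent.TH109.CG Pool.Agent.TH109.CG2 Pool.Agent.TH109.CG3 Pool.Agent.TH109.CG4

noncomputable section

namespace Pool.Agent.TH109.SS

variable {N : ℕ} {G : CGroup N} (σ : Invo G)

/-- existence of a closed 2-torus with good weights -/
def HasSGood : Prop :=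
  ∃ X Y : lieAlg G, X ∈ pSub σ ∧ Y ∈ pSub σ ∧ LinearIndependent ℝ ![X, Y] ∧ brk X Y = 0 ∧
    NormedSpace.exp ((2 * Real.pi) • (X : Mat N)) = 1 ∧
    NormedSpace.exp ((2 * Real.pi) • (Y : Mat N)) = 1 ∧ SGoodW (gCalc G) (pSub σ) X Y

/-- the abelian case -/
theorem sgood_abelian (A0 B0 : lieAlg G) (hA0p : A0 ∈ pSub σ) (hB0p : B0 ∈ pSub σ)
    (ind : LinearIndependent ℝ ![A0, B0])
    (hab : ∀ A ∈ pSub σ, ∀ B ∈ pSub σ, brk A B = 0) : HasSGood σ := by
  have hA0 : A0 ≠ 0 := by
    rintro rfl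
    have := (LinearIndependent.pair_iff.1 ind 1 0 (by simp)).1
    exact one_ne_zero this
  obtain ⟨X, hXp, hX, hX0⟩ := exists_closed_ne_p σ A0 hA0p hA0
  have hY : ∃ Y ∈ pSub σ, NormedSpace.exp ((2 * Real.pi) • (Y : Mat N)) = 1 ∧
      Y ∉ Submodule.span ℝ {X} := by
    by_contra hcon
    push Not at hcon
    have h1 : ∀ A ∈ pSub σ, A ∈ Submodule.span ℝ {X} := fun A hA =>
      (Submodule.span_le.2 fun C hC => hcon C hC.1 hC.2) (mem_span_closed_p σ A hA)
    obtain ⟨a, ha⟩ := Submodule.mem_span_singleton.1 (h1 A0 hA0p)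
    obtain ⟨b, hb⟩ := Submodule.mem_span_singleton.1 (h1 B0 hB0p)
    have h2 := LinearIndependent.pair_iff.1 ind b (-a) (by
      rw [← ha, ← hb, smul_smul, smul_smul]
      module)
    have h3 : a = 0 := neg_eq_zero.1 h2.2
    rw [h3, zero_smul] at ha
    exact hA0 ha.symm
  obtain ⟨Y, hYp, hYc, hY⟩ := hY
  have ind' : LinearIndependent ℝ ![X, Y] := by
    rw [LinearIndependent.pair_iff' hX0]
    intro a ha
    exact hY (Submodule.mem_span_singleton.2 ⟨a, ha⟩)
  refine ⟨X, Y, hXp, hYp, ind', hab X hXp Y hYp, hX, hYc, ?_⟩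
  have key : ∀ (V : lieAlg G), V ∈ pSub σ → ∀ (m : ℤ) (A B : lieAlg G), A ∈ pSub σ → A ≠ 0 →
      (gCalc G).br V A = (m : ℝ) • B → (gCalc G).br V B = -((m : ℝ) • A) → m = 0 := by
    intro V hV m A B hA hA0 h1 h2
    have h3 : (gCalc G).br V A = 0 := hab V hV A hA
    by_contra hm
    have hm' : (m : ℝ) ≠ 0 := by exact_mod_cast hm
    rw [h3] at h1
    have hB : B = 0 := (smul_eq_zero.1 h1.symm).resolve_left hm'
    rw [hB, map_zero] at h2
    exact hA0 ((smul_eq_zero.1 (neg_eq_zero.1 h2.symm)).resolve_left hm')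
  intro m n A B hAp hA hw
  exact Or.inl ⟨key X hXp m A B hAp hA hw.1 hw.2.1, key Y hYp n A B hAp hA hw.2.2.1 hw.2.2.2⟩

/-- the involution of the centraliser -/
def cenInvo (e2 e3 : lieAlg G) (h2 : e2 ∈ pSub σ) (h3 : theta σ e3 = e3) : Invo (cen G e2 e3) where
  s := σ.s
  herm := σ.herm
  sq := σ.sq
  conj := by
    rintro p ⟨hp, q2, q3⟩
    have h2' : σ.s * (e2 : Mat N) = -((e2 : Mat N) * σ.s) := h2
    have h3' : σ.s * (e3 : Mat N) = (e3 : Mat N) * σ.s := by
      have h4 : σ.s * (e3 : Mat N) * σ.s = (e3 : Mat N) :=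
        congrArg (fun v : lieAlg G => (v : Mat N)) h3
      have h5 := congrArg (fun M => M * σ.s) h4
      simp only [Matrix.mul_assoc, σ.sq, Matrix.mul_one] at h5
      exact h5
    refine ⟨σ.conj p hp, ?_, ?_⟩
    · calc σ.s * p * σ.s * (e2 : Mat N) = σ.s * p * (σ.s * e2) := by simp only [Matrix.mul_assoc]
        _ = -(σ.s * (p * e2) * σ.s) := by
          rw [h2']
          simp only [Matrix.mul_neg, Matrix.mul_assoc]
        _ = -((σ.s * e2) * (p * σ.s)) := by rw [q2]; simp only [Matrix.mul_assoc]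
        _ = e2 * (σ.s * p * σ.s) := by
          rw [h2']
          simp only [Matrix.neg_mul, neg_neg, Matrix.mul_assoc]
    · calc σ.s * p * σ.s * (e3 : Mat N) = σ.s * p * (σ.s * e3) := by simp only [Matrix.mul_assoc]
        _ = σ.s * (p * e3) * σ.s := by
          rw [h3']
          simp only [Matrix.mul_assoc]
        _ = (σ.s * e3) * (p * σ.s) := by rw [q3]; simp only [Matrix.mul_assoc]
        _ = e3 * (σ.s * p * σ.s) := by
          rw [h3']
          simp only [Matrix.mul_assoc]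

/-- If `𝔭` contains two commuting linearly independent elements, then it contains a closed 2-torus
with good weights. -/
theorem exists_sgood (A0 B0 : lieAlg G) (hA0p : A0 ∈ pSub σ) (hB0p : B0 ∈ pSub σ)
    (ind : LinearIndependent ℝ ![A0, B0]) (h0 : brk A0 B0 = 0) : HasSGood σ := by
  by_cases hne : ∃ A ∈ pSub σ, ∃ B ∈ pSub σ, (gCalc G).br A B ≠ 0
  swap
  · push Not at hne
    exact sgood_abelian σ A0 B0 hA0p hB0p ind hne
  have hSy := (symP_g σ).1
  have hA0s : A0 ∈ Submodule.span ℝ {A0, B0} := Submodule.subset_span (by simp)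
  have hB0s : B0 ∈ Submodule.span ℝ {A0, B0} := Submodule.subset_span (by simp)
  have h0' : (gCalc G).br A0 B0 = 0 := h0
  have h0'' : (gCalc G).br B0 A0 = 0 := by rw [(gCalc G).br_anti, h0', neg_zero]
  obtain ⟨T, hle, hT⟩ := exists_smax (gCalc G) (pSub σ) (Submodule.span ℝ {A0, B0})
    (by
      rw [Submodule.span_le]
      rintro x (rfl | rfl)
      · exact hA0p
      · exact hB0p) (by
    intro H hH H' hH'
    obtain ⟨a, b, rfl⟩ := Submodule.mem_span_pair.1 hH
    obtain ⟨a', b', rfl⟩ := Submodule.mem_span_pair.1 hH'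
    simp only [map_add, LinearMap.add_apply, map_smul, LinearMap.smul_apply, h0', h0'',
      (gCalc G).br_self, smul_zero, add_zero])
  obtain ⟨X, e2, e3, hR, hSh⟩ := exists_sshort hSy hT hne
    (fun _ _ _ h => closed_norm _ (tri_closed G h))
  obtain ⟨H, hH, hH0, hHX⟩ := exists_orth (hle hA0s) (hle hB0s) ind hR.mem hR.ne
  obtain ⟨H2, H3⟩ := hR.rt H hH hHX
  have pX : X ∈ pSub σ := hT.le hR.mem
  have hθ3 : theta σ e3 = e3 := ((symP_g σ).2 e3).1 hR.mem3
  set C : CGroup N := cen G e2 e3 with hC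
  set τ : Invo C := cenInvo σ e2 e3 hR.mem2 hθ3 with hτ
  -- the inclusion
  let inc : lieAlg C → lieAlg G := fun A => ⟨A, (mem_cen_lie.1 A.2).1⟩
  have incp : ∀ A : lieAlg C, A ∈ pSub τ ↔ inc A ∈ pSub σ := fun A => Iff.rfl
  have inc2 : ∀ A : lieAlg C, (gCalc G).br (inc A) e2 = 0 := fun A => by
    have h1 : brk e2 (inc A) = 0 := (brk_eq_zero_iff e2 (inc A)).2 (mem_cen_lie.1 A.2).2.1
    have h2 : (gCalc G).br e2 (inc A) = 0 := h1
    rw [(gCalc G).br_anti, h2, neg_zero]
  have inc3 : ∀ A : lieAlg C, (gCalc G).br (inc A) e3 = 0 := fun A => by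
    have h1 : brk e3 (inc A) = 0 := (brk_eq_zero_iff e3 (inc A)).2 (mem_cen_lie.1 A.2).2.2
    have h2 : (gCalc G).br e3 (inc A) = 0 := h1
    rw [(gCalc G).br_anti, h2, neg_zero]
  have ofz : ∀ A : lieAlg G, (gCalc G).br A e2 = 0 → (gCalc G).br A e3 = 0 →
      ∃ A' : lieAlg C, inc A' = A := by
    intro A h1 h2
    have h1' : brk e2 A = 0 := by
      have : (gCalc G).br e2 A = 0 := by rw [(gCalc G).br_anti, h1, neg_zero]
      exact this
    have h2' : brk e3 A = 0 := by
      have : (gCalc G).br e3 A = 0 := by rw [(gCalc G).br_anti, h2, neg_zero]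
      exact this
    exact ⟨⟨A, mem_cen_lie.2 ⟨A.2, (brk_eq_zero_iff e2 A).1 h1', (brk_eq_zero_iff e3 A).1 h2'⟩⟩,
      rfl⟩
  -- independence
  have indY : ∀ Y : lieAlg C, Y ≠ 0 → LinearIndependent ℝ ![X, inc Y] := by
    intro Y hY
    have hY0 : inc Y ≠ 0 := by
      intro h
      exact hY (Subtype.ext (congrArg (fun v : lieAlg G => (v : Mat N)) h))
    rw [LinearIndependent.pair_iff]
    intro s t hst
    have he3 : e3 ≠ 0 := by
      intro h
      have h1 : ‖e3‖ = ‖X‖ := by rw [hR.tri.cyc.norm_eq, hR.tri.norm_eq]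
      rw [h, norm_zero] at h1
      exact hR.ne (norm_eq_zero.1 h1.symm)
    have h1 := congrArg (fun v => (gCalc G).br v e2) hst
    simp only [map_add, LinearMap.add_apply, map_smul, LinearMap.smul_apply, inc2, smul_zero,
      add_zero, map_zero, LinearMap.zero_apply, hR.tri.h12] at h1
    have h2 : s = 0 := (smul_eq_zero.1 h1).resolve_right (smul_ne_zero two_ne_zero he3)
    rw [h2, zero_smul, zero_add] at hst
    exact ⟨h2, (smul_eq_zero.1 hst).resolve_right hY0⟩
  have comY : ∀ Y : lieAlg C, brk X (inc Y) = 0 := by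
    intro Y
    have h1 := tri_cen hR.tri (inc2 Y) (inc3 Y)
    have h2 : (gCalc G).br X (inc Y) = 0 := by rw [(gCalc G).br_anti, h1, neg_zero]
    exact h2
  -- conclusion from a good element of the centraliser
  have fin : ∀ Y : lieAlg C, Y ∈ pSub τ → Y ≠ 0 →
      NormedSpace.exp ((2 * Real.pi) • (Y : Mat N)) = 1 →
      (∀ (n : ℤ) (A B : lieAlg C), A ∈ pSub τ → A ≠ 0 → brk Y A = (n : ℝ) • B →
        brk Y B = -((n : ℝ) • A) →
        n = 0 ∨ n = 1 ∨ n = -1 ∨ ((n = 2 ∨ n = -2) ∧ ∃ c : ℝ, brk A B = c • Y)) →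
      HasSGood σ := by
    intro Y hYp hY0 hYc hY
    have hg : SGoodW (gCalc G) (pSub σ) X (inc Y) := by
      refine sgood_of_short hSy hSh hR.tri pX hR.mem2 hR.mem3 hYp (inc2 Y) (inc3 Y) ?_
      intro n A B hAp hA a2 a3 b2 b3 h1 h2
      obtain ⟨A', rfl⟩ := ofz A a2 a3
      obtain ⟨B', rfl⟩ := ofz B b2 b3
      have hA' : A' ≠ 0 := by
        rintro rfl
        exact hA rfl
      have h1' : brk Y A' = (n : ℝ) • B' := by
        apply Subtype.ext
        have := congrArg (fun v : lieAlg G => (v : Mat N)) h1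
        exact this
      have h2' : brk Y B' = -((n : ℝ) • A') := by
        apply Subtype.ext
        have := congrArg (fun v : lieAlg G => (v : Mat N)) h2
        exact this
      rcases hY n A' B' hAp hA' h1' h2' with h | h | h | ⟨h, c, hc⟩
      · exact Or.inl h
      · exact Or.inr (Or.inl h)
      · exact Or.inr (Or.inr (Or.inl h))
      · refine Or.inr (Or.inr (Or.inr ⟨h, c, ?_⟩))
        apply Subtype.ext
        have := congrArg (fun v : lieAlg C => (v : Mat N)) hc
        exact this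
    exact ⟨X, inc Y, pX, hYp, indY Y hY0, comY Y, tri_closed G hR.tri, hYc, hg⟩
  by_cases hCne : ∃ A ∈ pSub τ, ∃ B ∈ pSub τ, (gCalc C).br A B ≠ 0
  · obtain ⟨T', -, hT'⟩ := exists_smax (gCalc C) (pSub τ) ⊥ bot_le (by
      intro H hH H' _
      rw [(Submodule.mem_bot ℝ).1 hH, map_zero, LinearMap.zero_apply])
    obtain ⟨Y, f2, f3, hR', hS'⟩ := exists_sshort (symP_g τ).1 hT' hCne
      (fun _ _ _ h => closed_norm _ (tri_closed C h))
    refine fin Y (hT'.le hR'.mem) hR'.ne (tri_closed C hR'.tri) ?_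
    intro n A B hAp hA h1 h2
    obtain ⟨hn1, hn2⟩ := hS'.le n A B hAp hA h1 h2
    have hcases : n = -2 ∨ n = -1 ∨ n = 0 ∨ n = 1 ∨ n = 2 := by omega
    rcases hcases with rfl | rfl | rfl | rfl | rfl
    · refine Or.inr (Or.inr (Or.inr ⟨Or.inr rfl, ?_⟩))
      have h1' : (gCalc C).br Y A = ((-2 : ℤ) : ℝ) • B := h1
      have h2' : (gCalc C).br Y B = -(((-2 : ℤ) : ℝ) • A) := h2
      obtain ⟨c, hc⟩ := hS'.cor A (-B) hAp (by rw [h1']; push_cast; module)
        (by rw [map_neg, h2']; push_cast; module)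
      refine ⟨-c, ?_⟩
      have h3 : (gCalc C).br A B = (-c) • Y := by
        rw [map_neg] at hc
        have h4 : (-c) • Y = -(c • Y) := neg_smul c Y
        rw [h4, ← hc, neg_neg]
      exact h3
    · exact Or.inr (Or.inr (Or.inl rfl))
    · exact Or.inl rfl
    · exact Or.inr (Or.inl rfl)
    · refine Or.inr (Or.inr (Or.inr ⟨Or.inl rfl, ?_⟩))
      have h1' : (gCalc C).br Y A = ((2 : ℤ) : ℝ) • B := h1
      have h2' : (gCalc C).br Y B = -(((2 : ℤ) : ℝ) • A) := h2
      obtain ⟨c, hc⟩ := hS'.cor A B hAp (by rw [h1']; push_cast; module)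
        (by rw [h2']; push_cast; module)
      exact ⟨c, hc⟩
  · push Not at hCne
    obtain ⟨H', hH'⟩ := ofz H H2 H3
    have hH'0 : H' ≠ 0 := by
      rintro rfl
      apply hH0
      rw [← hH']
      rfl
    have hH'p : H' ∈ pSub τ := by
      rw [incp, hH']
      exact hT.le hH
    obtain ⟨Y, hYp, hYc, hY0⟩ := exists_closed_ne_p τ H' hH'p hH'0
    refine fin Y hYp hY0 hYc ?_
    intro n A B hAp hA h1 h2
    left
    have h3 : brk Y A = 0 := hCne Y hYp A hAp
    by_contra hn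
    have hn' : (n : ℝ) ≠ 0 := by exact_mod_cast hn
    rw [h3] at h1
    have hB : B = 0 := (smul_eq_zero.1 h1.symm).resolve_left hn'
    have h4 : brk Y B = 0 := by
      rw [hB]
      exact ((gCalc C).br Y).map_zero
    rw [h4] at h2
    exact hA ((smul_eq_zero.1 (neg_eq_zero.1 h2.symm)).resolve_left hn')

end Pool.Agent.TH109.SS
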