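import Pool.Agent.TH109.SS.Weights

/-!
The weights of the torus generated by a short restricted coroot and an element of its centraliser.
-/

open Module Pool.Agent.H842R4 Pool.Agent.H842R4.Calc Pool.Agent.TH109.CG2 Pool.Agent.TH109.CG3

noncomputable section

namespace Pool.Agent.TH109.SS

variable {P 𝔤 : Type} [NormedAddCommGroup 𝔤] [InnerProductSpace ℝ 𝔤]
variable {K : Calc P 𝔤} {𝔭 : Submodule ℝ 𝔤}

/-- the weights of the torus on `𝔭` are zero, primitive, or twice a basis vector, in the last case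
with the coroot condition -/
def SGoodW (K : Calc P 𝔤) (𝔭 : Submodule ℝ 𝔤) (X Y : 𝔤) : Prop :=
  ∀ (m n : ℤ) (A B : 𝔤), A ∈ 𝔭 → A ≠ 0 → Wt K X Y m n A B →
    (m = 0 ∧ n = 0) ∨ IsCoprime m n ∨
      (n = 0 ∧ (m = 2 ∨ m = -2) ∧ ∃ c : ℝ, K.br A B = c • X) ∨
      (m = 0 ∧ (n = 2 ∨ n = -2) ∧ ∃ c : ℝ, K.br A B = c • Y)

/-- weight two vectors commute with `Y` -/
theorem stwo (hS : SymP K 𝔭) {X Y : 𝔤} (h : SShort K 𝔭 X) (pX : X ∈ 𝔭) (pY : Y ∈ 𝔭)
    (hYX : K.br Y X = 0) (hXY : inner ℝ X Y = (0 : ℝ)) {C D : 𝔤} (pC : C ∈ 𝔭)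
    (c1 : K.br X C = (2 : ℝ) • D) (c2 : K.br X D = -((2 : ℝ) • C)) :
    K.br Y C = 0 ∧ K.br Y D = 0 := by
  have hcomm : ∀ u, K.br X (K.br Y u) = K.br Y (K.br X u) := by
    intro u
    have h1 : K.br X Y = 0 := by rw [K.br_anti, hYX, neg_zero]
    rw [K.jac, h1, LinearMap.map_zero, LinearMap.zero_apply, zero_add]
  -- the quadratic form
  have q0 : ∀ u ∈ 𝔭, K.br X (K.br X u) = -((4 : ℝ) • u) → inner ℝ u (K.br Y (K.br X u)) = (0 : ℝ) := by
    intro u hu h1
    obtain ⟨c, hc⟩ := h.cor u ((1 / 2 : ℝ) • K.br X u) hu (by rw [smul_smul]; norm_num)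
      (by rw [map_smul, h1, smul_neg, smul_smul]; norm_num)
    have h2 : inner ℝ (K.br u ((1 / 2 : ℝ) • K.br X u)) Y = (0 : ℝ) := by
      rw [hc, real_inner_smul_left, hXY, mul_zero]
    rw [K.ad_inv, K.br_anti, inner_neg_right, map_smul, real_inner_smul_right] at h2
    linarith
  have q1 : ∀ u v, u ∈ 𝔭 → v ∈ 𝔭 → K.br X (K.br X u) = -((4 : ℝ) • u) →
      K.br X (K.br X v) = -((4 : ℝ) • v) → inner ℝ v (K.br Y (K.br X u)) = (0 : ℝ) := by
    intro u v hu hv h1 h2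
    have a1 := q0 (u + v) (𝔭.add_mem hu hv) (by rw [map_add, map_add, h1, h2, smul_add, neg_add])
    have a2 := q0 u hu h1
    have a3 := q0 v hv h2
    simp only [map_add, inner_add_left, inner_add_right] at a1
    have a4 : inner ℝ u (K.br Y (K.br X v)) = (inner ℝ v (K.br Y (K.br X u)) : ℝ) := by
      have b1 := br_skew K Y u (K.br X v)
      have b2 := br_skew K X (K.br Y u) v
      rw [hcomm] at b2
      rw [real_inner_comm (K.br Y (K.br X u)) v]
      linarith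
    linarith
  have hCC : K.br X (K.br X C) = -((4 : ℝ) • C) := by
    rw [c1, map_smul, c2, smul_neg, smul_smul]; norm_num
  have h1 : K.br Y (K.br X C) = 0 := by
    have pV : K.br Y (K.br X C) ∈ 𝔭 := hS.pk Y _ pY (hS.pp X C pX pC)
    have h2 := q1 C (K.br Y (K.br X C)) pC pV hCC (by
      rw [hcomm, hcomm, hCC, map_neg, map_neg, map_smul, map_smul])
    exact inner_self_eq_zero.1 h2
  have h2 : K.br Y C = 0 := by
    have h3 : K.br X (K.br Y C) = 0 := by rw [hcomm, h1]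
    have h4 : K.br X (K.br X (K.br Y C)) = -((4 : ℝ) • K.br Y C) := by
      rw [hcomm, hcomm, hCC, map_neg, map_smul]
    rw [h3, map_zero] at h4
    exact (smul_eq_zero.1 (neg_eq_zero.1 h4.symm)).resolve_left (by norm_num)
  refine ⟨h2, ?_⟩
  rw [c1, map_smul] at h1
  exact (smul_eq_zero.1 h1).resolve_left two_ne_zero

/-- the weights of the torus generated by a short coroot and an element of the centraliser -/
theorem sgood_of_short (hS : SymP K 𝔭) {X e2 e3 Y : 𝔤} (h : SShort K 𝔭 X) (ht : Tri K X e2 e3)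
    (pX : X ∈ 𝔭) (p2 : e2 ∈ 𝔭) (p3 : e3 ∈ 𝔭ᗮ) (pY : Y ∈ 𝔭)
    (y2 : K.br Y e2 = 0) (y3 : K.br Y e3 = 0)
    (hY : ∀ (n : ℤ) (A B : 𝔤), A ∈ 𝔭 → A ≠ 0 → K.br A e2 = 0 → K.br A e3 = 0 → K.br B e2 = 0 →
      K.br B e3 = 0 → K.br Y A = (n : ℝ) • B → K.br Y B = -((n : ℝ) • A) →
      n = 0 ∨ n = 1 ∨ n = -1 ∨ ((n = 2 ∨ n = -2) ∧ ∃ c : ℝ, K.br A B = c • Y)) :
    SGoodW K 𝔭 X Y := by
  have X3 : K.br X e3 = -((2 : ℝ) • e2) := by rw [K.br_anti, ht.h31]
  have yX : K.br Y X = 0 := tri_cen ht y2 y3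
  have iXY : inner ℝ X Y = (0 : ℝ) := by
    have h1 : inner ℝ (K.br e2 e3) Y = (0 : ℝ) := by
      rw [K.ad_inv, K.br_anti, y3, neg_zero, inner_zero_right]
    rw [ht.h23, real_inner_smul_left] at h1
    exact (mul_eq_zero.1 h1).resolve_left two_ne_zero
  -- weight two vectors
  have two : ∀ A B : 𝔤, A ∈ 𝔭 → K.br X A = (2 : ℝ) • B → K.br X B = -((2 : ℝ) • A) →
      K.br Y A = 0 ∧ K.br Y B = 0 := fun A B pA h1 h2 => stwo hS h pX pY yX iXY pA h1 h2
  intro m n A B pA hA hw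
  obtain ⟨w1, w2, w3, w4⟩ := hw
  obtain ⟨hm1, hm2⟩ := h.le m A B pA hA w1 w2
  have hcases : m = -2 ∨ m = -1 ∨ m = 0 ∨ m = 1 ∨ m = 2 := by omega
  rcases hcases with rfl | rfl | rfl | rfl | rfl
  · -- `m = -2`
    have b1 : K.br X A = (2 : ℝ) • (-B) := by rw [w1]; push_cast; module
    have b2 : K.br X (-B) = -((2 : ℝ) • A) := by rw [map_neg, w2]; push_cast; module
    have hYA := (two A (-B) pA b1 b2).1
    have hB : B ≠ 0 := by
      rintro rfl
      rw [map_zero] at w2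
      have := neg_eq_zero.1 w2.symm
      exact hA ((smul_eq_zero.1 this).resolve_left (by norm_num))
    rw [hYA] at w3
    have hn : n = 0 := by exact_mod_cast (smul_eq_zero.1 w3.symm).resolve_right hB
    obtain ⟨c, hc⟩ := h.cor A (-B) pA b1 b2
    refine Or.inr (Or.inr (Or.inl ⟨hn, Or.inr rfl, -c, ?_⟩))
    rw [map_neg] at hc
    rw [neg_smul, ← hc, neg_neg]
  · exact Or.inr (Or.inl ⟨-1, 0, by ring⟩)
  · -- `m = 0`
    rw [Int.cast_zero, zero_smul] at w1 w2
    rw [neg_zero] at w2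
    by_cases hn : n = 0
    · exact Or.inl ⟨rfl, hn⟩
    have hn' : (n : ℝ) ≠ 0 := by exact_mod_cast hn
    have c1 : K.br X (K.br e2 A) = (2 : ℝ) • K.br e3 A := by
      rw [K.jac, ht.h12, w1, map_zero, add_zero, map_smul, LinearMap.smul_apply]
    have c2 : K.br X (K.br e3 A) = -((2 : ℝ) • K.br e2 A) := by
      rw [K.jac, X3, w1, map_zero, add_zero, map_neg, LinearMap.neg_apply, map_smul,
        LinearMap.smul_apply]
    have pC : K.br e3 A ∈ 𝔭 := hS.kp e3 A p3 pA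
    obtain ⟨d1, d2⟩ := two (K.br e3 A) (-(K.br e2 A)) pC (by rw [c2, smul_neg])
      (by rw [map_neg, c1])
    rw [map_neg, neg_eq_zero] at d2
    -- `Y` commutes with `ad e2`, `ad e3`
    have comm : ∀ e, K.br Y e = 0 → ∀ u, K.br Y (K.br e u) = K.br e (K.br Y u) := by
      intro e he u
      rw [K.jac, he, LinearMap.map_zero, LinearMap.zero_apply, zero_add]
    have f3 : K.br e3 B = 0 := by
      rw [comm e3 y3, w3, map_smul] at d1
      exact (smul_eq_zero.1 d1).resolve_left hn'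
    have f2 : K.br e2 B = 0 := by
      rw [comm e2 y2, w3, map_smul] at d2
      exact (smul_eq_zero.1 d2).resolve_left hn'
    have g2 : K.br e2 A = 0 := by
      have h1 := comm e2 y2 B
      rw [f2, map_zero, w4, map_neg, map_smul] at h1
      exact (smul_eq_zero.1 (neg_eq_zero.1 h1.symm)).resolve_left hn'
    have g3 : K.br e3 A = 0 := by
      have h1 := comm e3 y3 B
      rw [f3, map_zero, w4, map_neg, map_smul] at h1
      exact (smul_eq_zero.1 (neg_eq_zero.1 h1.symm)).resolve_left hn'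
    have fl : ∀ u v : 𝔤, K.br u v = 0 → K.br v u = 0 := fun u v h => by
      rw [K.br_anti, h, neg_zero]
    rcases hY n A B pA hA (fl _ _ g2) (fl _ _ g3) (fl _ _ f2) (fl _ _ f3) w3 w4 with h1 | h1 | h1 | h1
    · exact absurd h1 hn
    · subst h1
      exact Or.inr (Or.inl ⟨0, 1, by ring⟩)
    · subst h1
      exact Or.inr (Or.inl ⟨0, -1, by ring⟩)
    · exact Or.inr (Or.inr (Or.inr ⟨rfl, h1⟩))
  · exact Or.inr (Or.inl ⟨1, 0, by ring⟩)
  · -- `m = 2`
    have b1 : K.br X A = (2 : ℝ) • B := by rw [w1]; push_cast; module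
    have b2 : K.br X B = -((2 : ℝ) • A) := by rw [w2]; push_cast; module
    have hYA := (two A B pA b1 b2).1
    have hB : B ≠ 0 := by
      rintro rfl
      rw [map_zero] at w2
      have := neg_eq_zero.1 w2.symm
      exact hA ((smul_eq_zero.1 this).resolve_left (by norm_num))
    rw [hYA] at w3
    have hn : n = 0 := by exact_mod_cast (smul_eq_zero.1 w3.symm).resolve_right hB
    exact Or.inr (Or.inr (Or.inl ⟨hn, Or.inl rfl, h.cor A B pA b1 b2⟩))

end Pool.Agent.TH109.SS
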