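import Pool.Agent.TH109.CG4.Main4
import Pool.Agent.TH109.SS.Exist
import Pool.Agent.TH109.SS.Build

/-!
Translations of smooth functions on a compact matrix group.
-/

open scoped ContDiff Matrix.Norms.Frobenius Topology
open Matrix Filter MeasureTheory Pool.Agent.H842R4 Pool.Agent.H842R4.Calc
open Pool.Agent.TH109.CG Pool.Agent.TH109.CG2 Pool.Agent.TH109.CG4

noncomputable section

namespace Pool.Agent.TH109.SS

variable {N : ℕ} {G : CGroup N}

theorem smooth_tr (A : lieAlg G) (s : ℝ) (f : Pt G → ℝ) (hf : Smooth f) :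
    Smooth (fun p => f (move p A s)) := by
  obtain ⟨F, hF, hfF⟩ := hf
  refine ⟨fun q => F (q * NormedSpace.exp (s • (A : Mat N))), ?_, fun p => by
    show f (move p A s) = F ((p : Mat N) * NormedSpace.exp (s • (A : Mat N)))
    rw [hfF, coe_move]⟩
  exact hF.comp (contDiff_id.mul contDiff_const)

/-- translation of smooth functions -/
def trF (A : lieAlg G) (s : ℝ) (f : smoothAlg G) : smoothAlg G :=
  ⟨fun p => f.1 (move p A s), smooth_tr A s f.1 f.2⟩

theorem move_inv (A : lieAlg G) (s : ℝ) (p : Pt G) :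
    move (p⁻¹) A s = ((⟨NormedSpace.exp (s • (A : Mat N)), A.2 s⟩ : Pt G)⁻¹ * p)⁻¹ := by
  rw [_root_.mul_inv_rev, inv_inv]
  rfl

theorem meanFun_tr (A : lieAlg G) (s : ℝ) (f : Pt G → ℝ) :
    meanFun G (fun p => f (move p A s)) = meanFun G f := by
  unfold meanFun
  simp only [move_inv]
  rw [integral_mul_left_eq_self (μ := (Measure.haar : Measure (Pt G))) (fun p => f (p⁻¹))
    ((⟨NormedSpace.exp (s • (A : Mat N)), A.2 s⟩ : Pt G)⁻¹)]

theorem cont_move (A : lieAlg G) (s : ℝ) : Continuous fun p : Pt G => move p A s := by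
  refine Continuous.subtype_mk ?_ _
  exact continuous_subtype_val.matrix_mul continuous_const

theorem mean_der (A : lieAlg G) (f g : Pt G → ℝ) (hf : Smooth f) (hg : Smooth g) (s : ℝ) :
    HasDerivAt (fun u => meanFun G (fun p => f p * g (move p A u)))
      (meanFun G (fun p => f p * lie A g (move p A s))) s := by
  set μ : Measure (Pt G) := Measure.haar with hμ
  have hfl := smooth_lie g hg A
  obtain ⟨C, hC⟩ := bounded (lie A g) hfl
  obtain ⟨C', hC'⟩ := bounded f hf
  have hmm : ∀ u : ℝ, Continuous fun p : Pt G => move (p⁻¹) A u := fun u =>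
    (cont_move A u).comp continuous_inv
  have hcf : Continuous fun p : Pt G => f (p⁻¹) := (cont_of_smooth G hf).comp continuous_inv
  have hd := hasDerivAt_integral_of_dominated_loc_of_deriv_le (μ := μ)
    (F := fun (u : ℝ) (p : Pt G) => f (p⁻¹) * g (move (p⁻¹) A u))
    (F' := fun (u : ℝ) (p : Pt G) => f (p⁻¹) * lie A g (move (p⁻¹) A u)) (x₀ := s)
    (s := Set.univ) (bound := fun _ => C' * C) Filter.univ_mem
    (Filter.Eventually.of_forall fun u =>
      (hcf.mul ((cont_of_smooth G hg).comp (hmm u))).aestronglyMeasurable)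
    ((hcf.mul ((cont_of_smooth G hg).comp (hmm s))).integrable_of_hasCompactSupport
      (HasCompactSupport.of_compactSpace _))
    ((hcf.mul ((cont_of_smooth G hfl).comp (hmm s))).aestronglyMeasurable)
    (Filter.Eventually.of_forall fun p u _ => by
      rw [Real.norm_eq_abs, abs_mul]
      exact mul_le_mul (hC' _) (hC _) (abs_nonneg _) ((abs_nonneg _).trans (hC' (p⁻¹))))
    (integrable_const (C' * C))
    (Filter.Eventually.of_forall fun p u _ => (hasDerivAt_move g hg A (p⁻¹) u).const_mul _)
  have := hd.2.const_mul (((Measure.haar : Measure (Pt G)).real Set.univ)⁻¹)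
  exact this

theorem move_move_ad (J U : lieAlg G) (u s : ℝ) (p : Pt G) :
    move (move p J u) U s = move (move p U s) (ad U (-s) J) u := by
  apply Subtype.ext
  rw [coe_move, coe_move, coe_move, coe_move, ad_coe]
  have h1 : u • (NormedSpace.exp ((-s) • (U : Mat N)) * (J : Mat N) *
      NormedSpace.exp (-((-s) • (U : Mat N)))) = NormedSpace.exp ((-s) • (U : Mat N)) *
      (u • (J : Mat N)) * (NormedSpace.exp ((-s) • (U : Mat N)))⁻¹ := by
    rw [Matrix.exp_neg, Matrix.mul_smul, Matrix.smul_mul]
  rw [h1, Matrix.exp_conj _ _ (Matrix.isUnit_exp _), ← Matrix.exp_neg]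
  have h2 : NormedSpace.exp (s • (U : Mat N)) * NormedSpace.exp ((-s) • (U : Mat N)) = 1 := by
    rw [neg_smul, exp_mul_exp_neg]
  have h3 : -((-s) • (U : Mat N)) = s • (U : Mat N) := by rw [neg_smul, neg_neg]
  rw [h3]
  calc (p : Mat N) * NormedSpace.exp (u • (J : Mat N)) * NormedSpace.exp (s • (U : Mat N))
      = (p : Mat N) * 1 * NormedSpace.exp (u • (J : Mat N)) * NormedSpace.exp (s • (U : Mat N)) := by
        rw [mul_one]
    _ = _ := by rw [← h2]; simp only [mul_assoc]

/-- translations -/
def qTr (Q : InvProduct G) : Tr (qCalc Q) (qMean Q) where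
  R A s f := trF A s f
  ev_R A s f p := rfl
  E_R A s f := meanFun_tr A s f.1
  der A f g s := mean_der A f.1 g.1 f.2 g.2 s
  D_R J U s f := by
    apply Subtype.ext
    funext p
    exact congrArg (fun w : ℝ → ℝ => deriv w 0) (funext fun u => congrArg f.1
      (move_move_ad (show lieAlg G from J) (show lieAlg G from U) u s p))

end Pool.Agent.TH109.SS
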