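import Pool.Agent.TH109.SS.Grp1
import Pool.Agent.TH109.CG4.Sharp

/-!
Second order rigidity of symmetric spaces, in terms of the horizontal lift of a metric.
-/

open scoped ContDiff Matrix.Norms.Frobenius Topology
open Matrix Filter Module Pool.Agent.H842R4 Pool.Agent.H842R4.Calc
open Pool.Agent.TH109.CG Pool.Agent.TH109.CG2 Pool.Agent.TH109.CG4

noncomputable section

namespace Pool.Agent.TH109.SS

variable {N : ℕ} {G : CGroup N} (σ : Invo G) (Q : InvProduct G)

/-- the tangent space in `LQ Q` -/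
def pQ : Submodule ℝ (LQ Q) := pSub σ

/-- the involution of `LQ Q` -/
def thQ : LQ Q →ₗ[ℝ] LQ Q := theta σ

variable (hθ : ∀ A B : lieAlg G, Q.val (theta σ A) (theta σ B) = Q.val A B)

include hθ in
theorem symP_q : SymP (qCalc Q) (pQ σ Q) ∧ ∀ A : LQ Q, A ∈ (pQ σ Q)ᗮ ↔ theta σ A = A :=
  symP_of_theta (qCalc Q) (thQ σ Q) (theta_theta σ) (theta_brk σ) hθ (pQ σ Q) (mem_pSub' σ)

/-- elements of the isotropy group -/
def IsK (k : Pt G) : Prop := σ.s * (k : Mat N) = (k : Mat N) * σ.s

theorem conj_mem' {k A : Mat N} (hk : k ∈ G.S) (hA : A ∈ lieAlg G) : k * A * star k ∈ lieAlg G := by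
  intro t
  have u1 : star k * k = 1 := Matrix.mem_unitaryGroup_iff'.1 (G.unitary _ hk)
  have u2 : k * star k = 1 := Matrix.mem_unitaryGroup_iff.1 (G.unitary _ hk)
  have h0 : k⁻¹ = star k := Matrix.inv_eq_right_inv u2
  have h1 : t • (k * A * star k) = k * (t • A) * k⁻¹ := by
    rw [h0, Matrix.mul_smul, Matrix.smul_mul]
  rw [h1, Matrix.exp_conj _ _ ⟨⟨k, star k, u2, u1⟩, rfl⟩, h0]
  exact G.S.mul_mem (G.S.mul_mem hk (hA t)) (G.star_mem _ hk)

/-- conjugation by an element of the group -/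
def cj (k : Pt G) (A : lieAlg G) : lieAlg G :=
  ⟨(k : Mat N) * (A : Mat N) * star (k : Mat N), conj_mem' k.2 A.2⟩

/-- The horizontal lift of a metric of the symmetric space: it coincides with `Q` if one argument is
in the Lie algebra of the isotropy group and is equivariant on `𝔭`. -/
structure Lifted (g : Metric G) : Prop where
  ver : ∀ p (A B : lieAlg G), theta σ A = A → g.val p A B = Q.val A B
  eqv : ∀ (p k : Pt G), IsK σ k → ∀ A B : lieAlg G, A ∈ pSub σ → B ∈ pSub σ →
    g.val (p * k) A B = g.val p (cj k A) (cj k B)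

theorem star_exp (A : lieAlg G) (s : ℝ) : star (NormedSpace.exp (s • (A : Mat N))) =
    NormedSpace.exp (-(s • (A : Mat N))) := by
  rw [star_eq_conjTranspose, ← Matrix.exp_conjTranspose, conjTranspose_smul, star_trivial,
    skew G A.2, smul_neg]

theorem move_eq_mul (p : Pt G) (A : lieAlg G) (s : ℝ) :
    move p A s = p * ⟨NormedSpace.exp (s • (A : Mat N)), A.2 s⟩ := rfl

theorem cj_exp (A : lieAlg G) (s : ℝ) (B : lieAlg G) :
    cj (⟨NormedSpace.exp (s • (A : Mat N)), A.2 s⟩ : Pt G) B = ad A s B := by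
  apply Subtype.ext
  show NormedSpace.exp (s • (A : Mat N)) * (B : Mat N) *
    star (NormedSpace.exp (s • (A : Mat N))) = _
  rw [star_exp, ad_coe]

theorem s_exp (A : Mat N) (t : ℝ) :
    σ.s * NormedSpace.exp (t • A) = NormedSpace.exp (t • (σ.s * A * σ.s)) * σ.s := by
  rw [exp_theta, Matrix.mul_assoc, Matrix.mul_assoc, σ.sq, Matrix.mul_one]

theorem isK_exp (κ : lieAlg G) (h : theta σ κ = κ) (s : ℝ) :
    IsK σ (⟨NormedSpace.exp (s • (κ : Mat N)), κ.2 s⟩ : Pt G) := by
  have h1 : σ.s * (κ : Mat N) * σ.s = κ := congrArg (fun v : lieAlg G => (v : Mat N)) h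
  show σ.s * NormedSpace.exp (s • (κ : Mat N)) = NormedSpace.exp (s • (κ : Mat N)) * σ.s
  rw [s_exp, h1]

theorem isK_half (H : lieAlg G) (hp : H ∈ pSub σ)
    (hc : NormedSpace.exp ((2 * Real.pi) • (H : Mat N)) = 1) :
    IsK σ (⟨NormedSpace.exp (Real.pi • (H : Mat N)), H.2 Real.pi⟩ : Pt G) := by
  have h1 : σ.s * (H : Mat N) * σ.s = -(H : Mat N) :=
    congrArg (fun v : lieAlg G => (v : Mat N)) ((mem_pSub' σ H).1 hp)
  show σ.s * NormedSpace.exp (Real.pi • (H : Mat N)) =
    NormedSpace.exp (Real.pi • (H : Mat N)) * σ.s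
  rw [s_exp, h1, smul_neg]
  have h2 : NormedSpace.exp (Real.pi • (H : Mat N)) * NormedSpace.exp (Real.pi • (H : Mat N)) =
      1 := by
    rw [← hc, two_mul, add_smul]
    exact (exp_mul_exp _ _ (Commute.refl _)).symm
  have h3 : NormedSpace.exp (-(Real.pi • (H : Mat N))) =
      NormedSpace.exp (Real.pi • (H : Mat N)) := by
    calc NormedSpace.exp (-(Real.pi • (H : Mat N))) = NormedSpace.exp (-(Real.pi • (H : Mat N))) *
          (NormedSpace.exp (Real.pi • (H : Mat N)) * NormedSpace.exp (Real.pi • (H : Mat N))) := by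
            rw [h2, mul_one]
      _ = _ := by rw [← mul_assoc, exp_neg_mul_exp, one_mul]
  rw [h3]

theorem hasDerivAt_val (F : lieAlg G →ₗ[ℝ] lieAlg G →ₗ[ℝ] ℝ) (κ A B : lieAlg G) :
    HasDerivAt (fun u => F (ad κ u A) (ad κ u B)) (F (brk κ A) B + F A (brk κ B)) 0 := by
  have h := bilin_deriv F (fun u => ad κ u A) (fun u => ad κ u B) _ _ 0 (ad_der κ A 0) (ad_der κ B 0)
  simp only [ad_zero] at h
  exact h

variable {σ Q} in
theorem Lifted.val_move {g : Metric G} (hL : Lifted σ Q g) {κ A B : lieAlg G} (hκ : theta σ κ = κ)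
    (hA : A ∈ pSub σ) (hB : B ∈ pSub σ) (p : Pt G) (u : ℝ) :
    g.val (move p κ u) A B = g.val p (ad κ u A) (ad κ u B) := by
  rw [move_eq_mul, hL.eqv p _ (isK_exp σ κ hκ u) A B hA hB, cj_exp, cj_exp]

variable {σ Q} in
theorem Lifted.der {g : Metric G} (hL : Lifted σ Q g) {κ A B : lieAlg G} (hκ : theta σ κ = κ)
    (hA : A ∈ pSub σ) (hB : B ∈ pSub σ) (p : Pt G) (c : ℝ) :
    deriv (fun u => c * (g.val (move p κ u) A B - Q.val A B)) 0 =
      c * (g.val p (brk κ A) B - Q.val (brk κ A) B) +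
        c * (g.val p A (brk κ B) - Q.val A (brk κ B)) := by
  have e0 : (fun u => c * (g.val (move p κ u) A B - Q.val A B)) =
      fun u => c * (g.val p (ad κ u A) (ad κ u B) - Q.val A B) := by
    funext u
    rw [hL.val_move hκ hA hB]
  rw [e0]
  have e2 := (((hasDerivAt_val (g.val p) κ A B).sub_const (Q.val A B)).const_mul c).deriv
  have e3 : Q.val (brk κ A) B + Q.val A (brk κ B) = 0 := by
    rw [CG4.brk_anti κ A, map_neg, LinearMap.neg_apply, Q.inv, neg_add_cancel]
  refine e2.trans ?_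
  linear_combination c * e3

variable {σ Q} in
theorem Lifted.half {g : Metric G} (hL : Lifted σ Q g) {H A B : lieAlg G} (hH : H ∈ pSub σ)
    (hc : NormedSpace.exp ((2 * Real.pi) • (H : Mat N)) = 1)
    (hA : A ∈ pSub σ) (hB : B ∈ pSub σ) (p : Pt G) (c : ℝ) :
    c * (g.val (move p H Real.pi) A B - Q.val A B) =
      c * (g.val p (ad H Real.pi A) (ad H Real.pi B) -
        Q.val (ad H Real.pi A) (ad H Real.pi B)) := by
  rw [move_eq_mul, hL.eqv p _ (isK_half σ H hH hc) A B hA hB, cj_exp, cj_exp, ad_innerQ]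

/-- the curvature of the symmetric space by O'Neill's formula -/
def cur (g : Metric G) (A B : lieAlg G) (p : Pt G) : ℝ :=
  g.curv A B p + (3 / 4) * Q.val (brk A B) (brk A B)

/-- Second order rigidity of the symmetric metric. -/
def SRigid : Prop :=
  ∀ ε : ℝ, 0 < ε → ∃ t₀ : ℝ, 0 < t₀ ∧ ∀ (g : Metric G) (t : ℝ), 0 < t → t ≤ t₀ →
    Lifted σ Q g → CloseTo g Q t →
      ∃ (p : Pt G) (A B : lieAlg G), A ∈ pSub σ ∧ B ∈ pSub σ ∧ LinearIndependent ℝ ![A, B] ∧
        cur Q g A B p / (g.val p A A * g.val p B B - g.val p A B ^ 2) ≤ ε * t ^ 2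

include hθ in
theorem srigid_of_contra
    (hc : ∀ S : SPert (qCalc Q) (pQ σ Q), Per S → False) : SRigid σ Q := by
  by_contra hneg
  unfold SRigid at hneg
  push Not at hneg
  obtain ⟨ε, hε, hneg⟩ := hneg
  have hj : ∀ j : ℕ, ∃ (g : Metric G) (t : ℝ), 0 < t ∧ t ≤ 1 / ((j : ℝ) + 1) ∧ Lifted σ Q g ∧
      CloseTo g Q t ∧ ∀ (p : Pt G) (A B : lieAlg G), A ∈ pSub σ → B ∈ pSub σ →
        LinearIndependent ℝ ![A, B] →
        ε * t ^ 2 < cur Q g A B p / (g.val p A A * g.val p B B - g.val p A B ^ 2) := by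
    intro j
    obtain ⟨g, t, h1, h2, h0, h3, h4⟩ := hneg (1 / ((j : ℝ) + 1)) (by positivity)
    exact ⟨g, t, h1, h2, h0, h3, h4⟩
  choose g t h1 h2 h0 h3 h4 using hj
  have htl : Tendsto t atTop (𝓝 0) :=
    squeeze_zero (fun j => (h1 j).le) h2 tendsto_one_div_add_atTop_nhds_zero_nat
  have hk := (symP_q σ Q hθ).2
  let S : SPert (qCalc Q) (pQ σ Q) :=
    { t := t
      t_pos := h1
      t_lim := htl
      h := fun j => hMap Q (g j) (t j)
      symm := by
        intro j A B
        apply Subtype.ext; funext p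
        show (t j)⁻¹ * ((g j).val p A B - Q.val A B) = (t j)⁻¹ * ((g j).val p B A - Q.val B A)
        rw [(g j).symm p A B, Q.symm A B]
      bound := fun j L hL A B p => close_bound Q (g j) (t j) (h1 j) (h3 j) L hL A B p
      ε := ε
      ε_pos := hε
      hor := by
        intro j κ A hκ
        apply Subtype.ext; funext p
        show (t j)⁻¹ * ((g j).val p κ A - Q.val κ A) = 0
        rw [(h0 j).ver p κ A ((hk κ).1 hκ), sub_self, mul_zero]
      eqv := by
        intro j κ A B hκ hA hB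
        have hκ' := (hk κ).1 hκ
        apply Subtype.ext; funext p
        exact (h0 j).der hκ' hA hB p ((t j)⁻¹)
      pos := by
        intro j p A B hA hB hi VAA VAB VBA VBB a1 a2 a3 a4
        have hi' : LinearIndependent ℝ ![(show lieAlg G from A), (show lieAlg G from B)] := hi
        have hne := (h1 j).ne'
        have hm : ∀ (A B : LQ Q) (p : Pt G), (qCalc Q).ev p
            ((qCalc Q).met (t j) (hMap Q (g j) (t j)) A B) = (g j).val p A B :=
          fun A B p => congrFun (met_coe Q (g j) (t j) hne A B) p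
        have he : ∀ (A B C : LQ Q) (p : Pt G), (qCalc Q).ev p
            ((qCalc Q).eta ((qCalc Q).met (t j) (hMap Q (g j) (t j))) A B C) =
            (g j).koszul A B C p :=
          fun A B C p => congrFun (eta_coe Q (g j) (t j) hne A B C) p
        have hD : ∀ (Z A B C : LQ Q) (p : Pt G), (qCalc Q).ev p ((qCalc Q).D Z
            ((qCalc Q).eta ((qCalc Q).met (t j) (hMap Q (g j) (t j))) A B C)) =
            lie Z ((g j).koszul A B C) p := by
          intro Z A B C p
          show lie Z (((qCalc Q).eta ((qCalc Q).met (t j) (hMap Q (g j) (t j))) A B C :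
            smoothAlg G) : Pt G → ℝ) p = _
          rw [eta_coe Q (g j) (t j) hne A B C]
        have b1 := (g j).eq_nabla A A VAA p fun C =>
          (hm VAA C p).symm.trans ((a1 C).trans (he A A C p))
        have b2 := (g j).eq_nabla A B VAB p fun C =>
          (hm VAB C p).symm.trans ((a2 C).trans (he A B C p))
        have b3 := (g j).eq_nabla B A VBA p fun C =>
          (hm VBA C p).symm.trans ((a3 C).trans (he B A C p))
        have b4 := (g j).eq_nabla B B VBB p fun C =>
          (hm VBB C p).symm.trans ((a4 C).trans (he B B C p))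
        have c1 : (qCalc Q).num ((qCalc Q).met (t j) (hMap Q (g j) (t j))) p A B VAA VAB VBA VBB =
            (g j).curv A B p := by
          have := he (brk A B) B A p
          have e : (qCalc Q).br A B = brk A B := rfl
          simp only [Calc.num, hD, hm, Metric.curv, b1, b2, b3, b4]
          rw [e, this]
          ring
        have c2 : (qCalc Q).gram ((qCalc Q).met (t j) (hMap Q (g j) (t j))) p A B =
            (g j).val p A A * (g j).val p B B - (g j).val p A B ^ 2 := by
          simp only [Calc.gram, hm]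
        have c3 := (g j).gram_pos p A B hi'
        have c4 : ε * t j ^ 2 < cur Q (g j) A B p /
            ((g j).val p A A * (g j).val p B B - (g j).val p A B ^ 2) := h4 j p A B hA hB hi'
        have c5 : ‖(qCalc Q).br A B‖ ^ 2 = Q.val (brk A B) (brk A B) :=
          (real_inner_self_eq_norm_sq ((qCalc Q).br A B)).symm
        rw [lt_div_iff₀ c3] at c4
        rw [c1, c2, c5]
        exact c4 }
  refine hc S ?_
  intro j H A B hH cH hA hB p
  have hH2 : NormedSpace.exp ((2 * Real.pi) • ((show lieAlg G from H : lieAlg G) : Mat N)) = 1 :=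
    (move_fix_iff (show lieAlg G from H) (2 * Real.pi) (1 : Pt G)).1 (cH 1)
  exact (h0 j).half hH hH2 hA hB p ((t j)⁻¹)

include hθ in
/-- Rigidity of the symmetric spaces of rank at least two. -/
theorem srigid (A0 B0 : lieAlg G) (hA0 : A0 ∈ pSub σ) (hB0 : B0 ∈ pSub σ)
    (ind : LinearIndependent ℝ ![A0, B0]) (h0 : brk A0 B0 = 0) : SRigid σ Q := by
  obtain ⟨X, Y, pX, pY, hi, hXY, cX, cY, hg⟩ := exists_sgood σ A0 B0 hA0 hB0 ind h0
  refine srigid_of_contra σ Q hθ fun S hP => ?_
  refine contra_good (qTr Q) (symP_q σ Q hθ).1 S hP (show LQ Q from X) (show LQ Q from Y) pX pY hXY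
    (fun p => (move_fix_iff X (2 * Real.pi) p).2 cX) (fun p => (move_fix_iff Y (2 * Real.pi) p).2 cY)
    hi ?_ hg (fun A hA h1 h2 => sq_mem_p σ Q _ _ A hA h1 h2)
  intro V A B μ cV hA h1 h2
  have hV' : NormedSpace.exp ((2 * Real.pi) • ((show lieAlg G from V : lieAlg G) : Mat N)) = 1 :=
    (move_fix_iff (show lieAlg G from V) (2 * Real.pi) (1 : Pt G)).1 (cV 1)
  exact int_of_closedQ (show lieAlg G from V) (show lieAlg G from A) (show lieAlg G from B) hV' μ
    hA h1 h2

end Pool.Agent.TH109.SS
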