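import Pool.Agent.TH109.SS.Build
import Pool.Agent.TH109.CG4.Main4

/-!
Symmetric pairs of compact matrix groups.
-/

open scoped ContDiff Matrix.Norms.Frobenius Topology
open Matrix Filter Module Pool.Agent.H842R4 Pool.Agent.H842R4.Calc
open Pool.Agent.TH109.CG Pool.Agent.TH109.CG2 Pool.Agent.TH109.CG3 Pool.Agent.TH109.CG4

noncomputable section

namespace Pool.Agent.TH109.SS

section abs

variable {P 𝔤 : Type} [NormedAddCommGroup 𝔤] [InnerProductSpace ℝ 𝔤] [FiniteDimensional ℝ 𝔤]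

theorem symP_of_theta (K : Calc P 𝔤) (θ : 𝔤 →ₗ[ℝ] 𝔤) (h1 : ∀ A, θ (θ A) = A)
    (h2 : ∀ A B, θ (K.br A B) = K.br (θ A) (θ B))
    (h3 : ∀ A B, inner ℝ (θ A) (θ B) = (inner ℝ A B : ℝ)) (𝔭 : Submodule ℝ 𝔤)
    (hp : ∀ A, A ∈ 𝔭 ↔ θ A = -A) : SymP K 𝔭 ∧ ∀ A, A ∈ 𝔭ᗮ ↔ θ A = A := by
  have key : ∀ A, A ∈ 𝔭ᗮ ↔ θ A = A := by
    intro A
    rw [Submodule.mem_orthogonal]
    constructor
    · intro h
      have hB : A - θ A ∈ 𝔭 := by rw [hp, map_sub, h1]; abel
      have e1 := h _ hB
      have e2 : inner ℝ (A - θ A) (θ A) = (0 : ℝ) := by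
        have e3 := h3 (A - θ A) (θ A)
        rw [h1, (hp _).1 hB, inner_neg_left, e1] at e3
        linarith
      have e4 : inner ℝ (A - θ A) (A - θ A) = (0 : ℝ) := by
        rw [inner_sub_right, e1, e2, sub_zero]
      exact (sub_eq_zero.1 (inner_self_eq_zero.1 e4)).symm
    · intro h B hB
      have e1 := h3 B A
      rw [h, (hp B).1 hB, inner_neg_left] at e1
      linarith
  refine ⟨⟨?_, ?_, ?_, ?_⟩, key⟩
  · intro A B hA hB
    rw [key, h2, (hp A).1 hA, (hp B).1 hB, map_neg, map_neg, LinearMap.neg_apply, neg_neg]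
  · intro κ A hκ hA
    rw [hp, h2, (key κ).1 hκ, (hp A).1 hA, map_neg]
  · intro κ κ' hκ hκ'
    rw [key, h2, (key κ).1 hκ, (key κ').1 hκ']
  · intro κ A s hκ hA
    rw [hp]
    have h4 := uniq K κ (fun u => K.Ad κ u A + θ (K.Ad κ u A)) (fun u => by
      have h5 := K.Ad_der κ A u
      have h6 := (θ.toContinuousLinearMap.hasFDerivAt (x := K.Ad κ u A)).comp_hasDerivAt u h5
      have h7 := h5.add h6
      refine h7.congr_deriv ?_
      show K.br κ (K.Ad κ u A) + θ (K.br κ (K.Ad κ u A)) = _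
      rw [h2, (key κ).1 hκ, map_add]) (by
      show K.Ad κ 0 A + θ (K.Ad κ 0 A) = 0
      rw [K.Ad_zero, (hp A).1 hA, add_neg_cancel]) s
    exact eq_neg_of_add_eq_zero_right h4

end abs

variable {N : ℕ}

/-- An involution of a compact matrix group: conjugation by a Hermitian unitary matrix. -/
structure Invo (G : CGroup N) where
  s : Mat N
  herm : star s = s
  sq : s * s = 1
  conj : ∀ p ∈ G.S, s * p * s ∈ G.S

variable {G : CGroup N} (σ : Invo G)

theorem exp_theta (A : Mat N) (t : ℝ) :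
    NormedSpace.exp (t • (σ.s * A * σ.s)) = σ.s * NormedSpace.exp (t • A) * σ.s := by
  have h1 : σ.s⁻¹ = σ.s := Matrix.inv_eq_right_inv σ.sq
  have h2 : IsUnit σ.s := ⟨⟨σ.s, σ.s, σ.sq, σ.sq⟩, rfl⟩
  have h3 := Matrix.exp_conj σ.s (t • A) h2
  rw [h1] at h3
  rw [← h3, Matrix.mul_smul, Matrix.smul_mul]

/-- the involution of the Lie algebra -/
def theta : lieAlg G →ₗ[ℝ] lieAlg G where
  toFun A := ⟨σ.s * (A : Mat N) * σ.s, fun t => by
    rw [exp_theta]
    exact σ.conj _ (A.2 t)⟩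
  map_add' A B := by
    apply Subtype.ext
    show σ.s * ((A : Mat N) + B) * σ.s = σ.s * A * σ.s + σ.s * B * σ.s
    rw [Matrix.mul_add, Matrix.add_mul]
  map_smul' c A := by
    apply Subtype.ext
    show σ.s * (c • (A : Mat N)) * σ.s = c • (σ.s * (A : Mat N) * σ.s)
    rw [Matrix.mul_smul, Matrix.smul_mul]

theorem theta_coe (A : lieAlg G) : ((theta σ A : lieAlg G) : Mat N) = σ.s * (A : Mat N) * σ.s := rfl

theorem ss (M : Mat N) : σ.s * (σ.s * M) = M := by rw [← Matrix.mul_assoc, σ.sq, Matrix.one_mul]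

theorem theta_theta (A : lieAlg G) : theta σ (theta σ A) = A := by
  apply Subtype.ext
  rw [theta_coe, theta_coe, Matrix.mul_assoc σ.s (A : Mat N), ss, Matrix.mul_assoc, σ.sq,
    Matrix.mul_one]

theorem theta_brk (A B : lieAlg G) : theta σ (brk A B) = brk (theta σ A) (theta σ B) := by
  apply Subtype.ext
  show σ.s * ((A : Mat N) * B - B * A) * σ.s =
    (σ.s * (A : Mat N) * σ.s) * (σ.s * (B : Mat N) * σ.s) -
      (σ.s * (B : Mat N) * σ.s) * (σ.s * (A : Mat N) * σ.s)
  have key : ∀ U V : Mat N, (σ.s * U * σ.s) * (σ.s * V * σ.s) = σ.s * (U * V) * σ.s := by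
    intro U V
    calc (σ.s * U * σ.s) * (σ.s * V * σ.s) = σ.s * U * (σ.s * (σ.s * V)) * σ.s := by
          simp only [Matrix.mul_assoc]
      _ = _ := by rw [ss]; simp only [Matrix.mul_assoc]
  rw [key, key, Matrix.mul_sub, Matrix.sub_mul]

/-- the tangent space `𝔭` -/
def pSub : Submodule ℝ (lieAlg G) where
  carrier := {A | σ.s * (A : Mat N) = -((A : Mat N) * σ.s)}
  add_mem' := by
    intro A B hA hB
    show σ.s * ((A : Mat N) + B) = -(((A : Mat N) + B) * σ.s)
    have hA' : σ.s * (A : Mat N) = -((A : Mat N) * σ.s) := hA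
    have hB' : σ.s * (B : Mat N) = -((B : Mat N) * σ.s) := hB
    rw [Matrix.mul_add, Matrix.add_mul, hA', hB']
    abel
  zero_mem' := by
    show σ.s * (0 : Mat N) = -((0 : Mat N) * σ.s)
    simp
  smul_mem' := by
    intro c A hA
    show σ.s * (c • (A : Mat N)) = -((c • (A : Mat N)) * σ.s)
    have hA' : σ.s * (A : Mat N) = -((A : Mat N) * σ.s) := hA
    rw [Matrix.mul_smul, Matrix.smul_mul, hA', smul_neg]

theorem mem_pSub (A : lieAlg G) : A ∈ pSub σ ↔ σ.s * (A : Mat N) = -((A : Mat N) * σ.s) := Iff.rfl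

theorem mem_pSub' (A : lieAlg G) : A ∈ pSub σ ↔ theta σ A = -A := by
  rw [mem_pSub]
  constructor
  · intro h
    apply Subtype.ext
    show σ.s * (A : Mat N) * σ.s = -(A : Mat N)
    rw [h, Matrix.neg_mul, Matrix.mul_assoc, σ.sq, Matrix.mul_one]
  · intro h
    have h1 : σ.s * (A : Mat N) * σ.s = -(A : Mat N) := congrArg (fun v : lieAlg G => (v : Mat N)) h
    have h2 := congrArg (fun M => M * σ.s) h1
    simp only [Matrix.mul_assoc, σ.sq, Matrix.mul_one, Matrix.neg_mul] at h2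
    exact h2

theorem ip_theta (A B : lieAlg G) : ip (theta σ A) (theta σ B) = ip A B := by
  unfold ip
  rw [theta_coe, theta_coe]
  congr 2
  have h1 : σ.s * (A : Mat N) * σ.s * (σ.s * (B : Mat N) * σ.s) =
      σ.s * ((A : Mat N) * B) * σ.s := by
    calc (σ.s * (A : Mat N) * σ.s) * (σ.s * (B : Mat N) * σ.s) =
          σ.s * (A : Mat N) * (σ.s * (σ.s * (B : Mat N))) * σ.s := by simp only [Matrix.mul_assoc]
      _ = _ := by rw [ss]; simp only [Matrix.mul_assoc]
  rw [h1, trace_mul_comm, ss]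

theorem symP_g : SymP (gCalc G) (pSub σ) ∧ ∀ A, A ∈ (pSub σ)ᗮ ↔ theta σ A = A :=
  symP_of_theta (gCalc G) (theta σ) (theta_theta σ) (theta_brk σ) (ip_theta σ) (pSub σ)
    (mem_pSub' σ)

/-- The abelian group of the elements of `G` which are inverted by the involution and commute with
the commutant of `A`. -/
def invGrp (A : Mat N) : CGroup N where
  S :=
    { carrier := {p | p ∈ G.S ∧ σ.s * p * σ.s = star p ∧ ∀ M : Mat N, M * A = A * M → M * p = p * M}
      mul_mem' := by
        rintro p q ⟨h1, h2, h3⟩ ⟨h4, h5, h6⟩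
        have hpA : p * A = A * p := (h3 A rfl).symm
        have hpq : p * q = q * p := h6 p hpA
        refine ⟨G.S.mul_mem h1 h4, ?_, ?_⟩
        · calc σ.s * (p * q) * σ.s = (σ.s * p * σ.s) * (σ.s * q * σ.s) := by
                symm
                calc (σ.s * p * σ.s) * (σ.s * q * σ.s) = σ.s * p * (σ.s * (σ.s * q)) * σ.s := by
                      simp only [Matrix.mul_assoc]
                  _ = _ := by rw [ss]; simp only [Matrix.mul_assoc]
            _ = star p * star q := by rw [h2, h5]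
            _ = star (q * p) := (star_mul _ _).symm
            _ = star (p * q) := by rw [hpq]
        · intro M hM
          rw [← mul_assoc, h3 M hM, mul_assoc, h6 M hM, mul_assoc]
      one_mem' := ⟨G.S.one_mem, by rw [mul_one, σ.sq, star_one], fun M _ => by
        rw [mul_one, one_mul]⟩ }
  unitary p hp := G.unitary p hp.1
  star_mem p hp := by
    obtain ⟨h1, h2, h3⟩ := hp
    have u1 : star p * p = 1 := Matrix.mem_unitaryGroup_iff'.1 (G.unitary _ h1)
    have u2 : p * star p = 1 := Matrix.mem_unitaryGroup_iff.1 (G.unitary _ h1)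
    refine ⟨G.star_mem p h1, ?_, ?_⟩
    · have h4 := congrArg star h2
      rw [star_mul, star_mul, σ.herm, ← mul_assoc] at h4
      exact h4
    · intro M hM
      have h4 := h3 M hM
      calc M * star p = (star p * p) * M * star p := by rw [u1, one_mul]
        _ = star p * (p * M) * star p := by simp only [mul_assoc]
        _ = star p * (M * p) * star p := by rw [h4]
        _ = star p * M * (p * star p) := by simp only [mul_assoc]
        _ = star p * M := by rw [u2, mul_one]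
  isClosed := by
    have h1 : IsClosed {p : Mat N | σ.s * p * σ.s = star p} := by
      refine isClosed_eq ((continuous_const.matrix_mul continuous_id).matrix_mul
        continuous_const) ?_
      exact continuous_id.matrix_conjTranspose
    have h2 : IsClosed {p : Mat N | ∀ M : Mat N, M * A = A * M → M * p = p * M} := by
      simp only [Set.ofPred_forall]
      refine isClosed_iInter fun M => isClosed_iInter fun _ => ?_
      exact isClosed_eq (continuous_const.matrix_mul continuous_id)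
        (continuous_id.matrix_mul continuous_const)
    exact G.isClosed.inter (h1.inter h2)

theorem invGrp_lie {A C : Mat N} (hC : C ∈ lieAlg (invGrp σ A)) :
    C ∈ lieAlg G ∧ σ.s * C = -(C * σ.s) ∧ ∀ M : Mat N, M * A = A * M → M * C = C * M := by
  have hG : C ∈ lieAlg G := fun s => (hC s).1
  refine ⟨hG, ?_, ?_⟩
  · have h1 := ((hasDerivAt_exp C 0).const_mul σ.s).mul_const σ.s
    have h2 := hasDerivAt_exp (-C) 0
    have h3 : (fun u : ℝ => σ.s * NormedSpace.exp (u • C) * σ.s) =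
        fun u : ℝ => NormedSpace.exp (u • (-C)) := by
      funext u
      have h4 : σ.s * NormedSpace.exp (u • C) * σ.s = star (NormedSpace.exp (u • C)) := (hC u).2.1
      rw [h4, star_eq_conjTranspose, ← Matrix.exp_conjTranspose, conjTranspose_smul, star_trivial,
        skew G hG]
    rw [h3] at h1
    have h5 := h1.unique h2
    simp only [zero_smul, NormedSpace.exp_zero, one_mul] at h5
    have h6 := congrArg (fun M => M * σ.s) h5
    simp only [Matrix.mul_assoc, σ.sq, Matrix.mul_one, Matrix.neg_mul] at h6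
    exact h6
  · intro M hM
    have h1 := (hasDerivAt_exp C 0).const_mul M
    have h2 := (hasDerivAt_exp C 0).mul_const M
    have h3 : (fun u : ℝ => M * NormedSpace.exp (u • C)) =
        fun u : ℝ => NormedSpace.exp (u • C) * M := funext fun u => (hC u).2.2 M hM
    rw [h3] at h1
    have h4 := h1.unique h2
    simpa using h4

theorem mem_invGrp (A : lieAlg G) (hA : A ∈ pSub σ) : (A : Mat N) ∈ lieAlg (invGrp σ A) := by
  intro t
  refine ⟨A.2 t, ?_, ?_⟩
  · have h1 : σ.s * (A : Mat N) * σ.s = -(A : Mat N) :=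
      congrArg (fun v : lieAlg G => (v : Mat N)) ((mem_pSub' σ A).1 hA)
    rw [← exp_theta, h1, star_eq_conjTranspose, ← Matrix.exp_conjTranspose, conjTranspose_smul,
      star_trivial, skew G A.2]
  · intro M hM
    have h5 : Commute M (A : Mat N) := hM
    exact Commute.exp_right (h5.smul_right t)

/-- elements of `𝔭` are real combinations of commuting closed elements of `𝔭` -/
theorem exists_closed_p (A : lieAlg G) (hA : A ∈ pSub σ) :
    ∃ (r : ℕ) (C : Fin r → lieAlg G) (b : Fin r → ℝ), A = ∑ j, b j • C j ∧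
      (∀ j, C j ∈ pSub σ) ∧
      (∀ j, NormedSpace.exp ((2 * Real.pi) • (C j : Mat N)) = 1) ∧
      (∀ j k, NormedSpace.exp ((2 * Real.pi) • ((C j : Mat N) + C k)) = 1) ∧
      ∀ j, ∀ M : Mat N, M * A = A * M → M * C j = C j * M := by
  obtain ⟨r, C, b, h1, h2, h3, h4⟩ := exists_closed _ (mem_invGrp σ A hA)
  have h5 := fun j => invGrp_lie σ (h2 j)
  refine ⟨r, fun j => ⟨C j, (h5 j).1⟩, b, ?_, fun j => (h5 j).2.1, h3, h4, fun j => (h5 j).2.2⟩
  apply Subtype.ext
  refine h1.trans ?_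
  push_cast
  rfl

theorem exists_closed_ne_p (A : lieAlg G) (hA : A ∈ pSub σ) (hA0 : A ≠ 0) :
    ∃ C ∈ pSub σ, NormedSpace.exp ((2 * Real.pi) • (C : Mat N)) = 1 ∧ C ≠ 0 := by
  obtain ⟨r, C, b, h1, h2, h3, -, -⟩ := exists_closed_p σ A hA
  by_contra hcon
  push Not at hcon
  apply hA0
  rw [h1]
  refine Finset.sum_eq_zero fun j _ => ?_
  rw [hcon (C j) (h2 j) (h3 j), smul_zero]

theorem mem_span_closed_p (A : lieAlg G) (hA : A ∈ pSub σ) :
    A ∈ Submodule.span ℝ {C : lieAlg G | C ∈ pSub σ ∧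
      NormedSpace.exp ((2 * Real.pi) • (C : Mat N)) = 1} := by
  obtain ⟨r, C, b, h1, h2, h3, -, -⟩ := exists_closed_p σ A hA
  rw [h1]
  exact Submodule.sum_mem _ fun j _ => Submodule.smul_mem _ _
    (Submodule.subset_span ⟨h2 j, h3 j⟩)

theorem sq_mem_p (Q : InvProduct G) (X Y A : LQ Q)
    (hA : (show lieAlg G from A) ∈ pSub σ) (hX : (qCalc Q).br X A = 0)
    (hY : (qCalc Q).br Y A = 0) :
    CG.sq A ∈ Submodule.span ℝ (CG.sq '' {C : LQ Q | (show lieAlg G from C) ∈ pSub σ ∧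
      (qCalc Q).Cl C ∧ (qCalc Q).br X C = 0 ∧ (qCalc Q).br Y C = 0}) := by
  obtain ⟨X', rfl⟩ : ∃ X' : lieAlg G, (show LQ Q from X') = X := ⟨X, rfl⟩
  obtain ⟨Y', rfl⟩ : ∃ Y' : lieAlg G, (show LQ Q from Y') = Y := ⟨Y, rfl⟩
  obtain ⟨A', rfl⟩ : ∃ A' : lieAlg G, (show LQ Q from A') = A := ⟨A, rfl⟩
  have hXA : (X' : Mat N) * A' = A' * X' := ((brk_eq_zero_iff X' A').1 hX).symm
  have hYA : (Y' : Mat N) * A' = A' * Y' := ((brk_eq_zero_iff Y' A').1 hY).symm
  obtain ⟨r, C, b, h1, h2, h3, h4, h5⟩ := exists_closed_p σ A' hA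
  set C' : Fin r → LQ Q := fun j => (show LQ Q from C j) with hC'
  have h6 : (show LQ Q from A') = ∑ j, b j • C' j := h1
  have hcl : ∀ D : lieAlg G, D ∈ pSub σ → NormedSpace.exp ((2 * Real.pi) • (D : Mat N)) = 1 →
      (D : Mat N) * X' = X' * D → (D : Mat N) * Y' = Y' * D →
      (show LQ Q from D) ∈ {C : LQ Q | (show lieAlg G from C) ∈ pSub σ ∧ (qCalc Q).Cl C ∧
        (qCalc Q).br X' C = 0 ∧ (qCalc Q).br Y' C = 0} :=
    fun D hDp hD hDX hDY => ⟨hDp, fun p => (move_fix_iff D (2 * Real.pi) p).2 hD,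
      (brk_eq_zero_iff X' D).2 hDX, (brk_eq_zero_iff Y' D).2 hDY⟩
  rw [h6]
  refine sq_sum_mem _ C' b (fun j => hcl _ (h2 j) (h3 j) (h5 j _ hXA).symm (h5 j _ hYA).symm)
    fun j k => ?_
  refine hcl (C j + C k) ((pSub σ).add_mem (h2 j) (h2 k)) (h4 j k) ?_ ?_
  · show ((C j : Mat N) + C k) * (X' : Mat N) = X' * ((C j : Mat N) + C k)
    rw [add_mul, mul_add, (h5 j _ hXA), (h5 k _ hXA)]
  · show ((C j : Mat N) + C k) * (Y' : Mat N) = Y' * ((C j : Mat N) + C k)
    rw [add_mul, mul_add, (h5 j _ hYA), (h5 k _ hYA)]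

end Pool.Agent.TH109.SS
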