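import Pool.Agent.TH109.SS.Small
import Pool.Agent.TH109.CG2.Mean

/-!
The root part of the second order term on a symmetric space, averaged over the group.
-/

open MeasureTheory Filter Topology Pool.Agent.H842R4 Pool.Agent.H842R4.Calc
open Pool.Agent.TH109.CG2

noncomputable section

namespace Pool.Agent.TH109.SS

variable {P 𝔤 : Type} [NormedAddCommGroup 𝔤] [InnerProductSpace ℝ 𝔤]

/-- the algebraic relations of a symmetric pair -/
structure SymP (K : Calc P 𝔤) (𝔭 : Submodule ℝ 𝔤) : Prop where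
  pp : ∀ A B, A ∈ 𝔭 → B ∈ 𝔭 → K.br A B ∈ 𝔭ᗮ
  kp : ∀ κ A, κ ∈ 𝔭ᗮ → A ∈ 𝔭 → K.br κ A ∈ 𝔭
  kk : ∀ κ κ', κ ∈ 𝔭ᗮ → κ' ∈ 𝔭ᗮ → K.br κ κ' ∈ 𝔭ᗮ
  Adkp : ∀ κ A s, κ ∈ 𝔭ᗮ → A ∈ 𝔭 → K.Ad κ s A ∈ 𝔭

theorem SymP.pk {K : Calc P 𝔤} {𝔭 : Submodule ℝ 𝔤} (hS : SymP K 𝔭) (A κ : 𝔤) (hA : A ∈ 𝔭)
    (hκ : κ ∈ 𝔭ᗮ) : K.br A κ ∈ 𝔭 := by
  rw [K.br_anti]
  exact 𝔭.neg_mem (hS.kp κ A hκ hA)

variable {K : Calc P 𝔤} {𝔭 : Submodule ℝ 𝔤}

theorem SPert.hor' (S : SPert K 𝔭) (j : ℕ) (A κ : 𝔤) (hκ : κ ∈ 𝔭ᗮ) : S.h j A κ = 0 := by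
  rw [S.symm, S.hor j κ A hκ]

theorem SPert.eta_k (hS : SymP K 𝔭) (S : SPert K 𝔭) (j : ℕ) (A B κ : 𝔤) (hA : A ∈ 𝔭) (hB : B ∈ 𝔭)
    (hκ : κ ∈ 𝔭ᗮ) : K.eta (S.h j) A B κ = 0 := by
  have h1 := S.hor' j B κ hκ
  have h2 := S.hor' j A κ hκ
  have h3 := S.hor' j (K.br A B) κ hκ
  have h4 := S.eqv j κ A B hκ hA hB
  have h5 : S.h j (K.br A κ) B = - S.h j (K.br κ A) B := by
    rw [K.br_anti A κ, map_neg, LinearMap.neg_apply]
  have h6 : S.h j (K.br B κ) A = - S.h j A (K.br κ B) := by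
    rw [K.br_anti B κ, map_neg, LinearMap.neg_apply, S.symm]
  rw [Calc.eta, h1, h2, h3, h4, h5, h6, map_zero, map_zero]
  module

theorem J_eq (M : Mean K) (B W : 𝔤) (hBW : K.br B W = 0) (cW : K.Cl W) (a b c r e κ : K.𝒜)
    (hr : r = K.D W a - K.D B b) (he : K.D B c - K.D W b = e) (hκ : c - K.D W r = κ) :
    M.E (b ^ 2 - a * c - r ^ 2) = - M.E (a * κ) - M.E (b * K.Pr W e) - M.E (K.D B b * K.Pr W κ)
      + (M.E ((K.Av W b) ^ 2) - M.E ((K.D B (K.Av W b)) ^ 2)) := by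
  have hWB : K.br W B = 0 := by rw [K.br_anti, hBW, neg_zero]
  have hc : c = κ + K.D W r := by rw [← hκ]; abel
  have s1 : M.E (a * c) = M.E (a * κ) - M.E (r * r) - M.E (K.D B b * r) := by
    have h1 : M.E (a * K.D W r) = - M.E (K.D W a * r) := M.parts W a r
    have h2 : K.D W a = r + K.D B b := by rw [hr]; abel
    rw [hc, mul_add, map_add, h1, h2, add_mul, map_add]
    ring
  obtain ⟨q, hq⟩ : ∃ q, q = b - K.D B r := ⟨_, rfl⟩
  have s2 : M.E (b ^ 2 - a * c - r ^ 2) = M.E (b * q) - M.E (a * κ) := by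
    have h1 : M.E (b * K.D B r) = - M.E (K.D B b * r) := M.parts B b r
    rw [map_sub, map_sub, s1, hq, mul_sub, map_sub, h1, sq, sq]
    ring
  have hDq : K.D W q = - e + K.D B κ := by
    have h1 : K.D W (K.D B r) = K.D B (K.D W r) := K.D_comm_of W B hWB r
    have h2 : K.D W r = c - κ := by rw [hc]; abel
    rw [hq, map_sub, h1, h2, map_sub, ← he]
    abel
  have hqP : q - K.Av W q = - K.Pr W e + K.D B (K.Pr W κ) := by
    rw [← K.Pr_D_self W cW, hDq, map_add, map_neg, K.D_Pr_comm W B hWB]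
  have s3 : M.E (b * q) = M.E (b * K.Av W q) - M.E (b * K.Pr W e) - M.E (K.D B b * K.Pr W κ) := by
    have h1 : q = K.Av W q + (- K.Pr W e + K.D B (K.Pr W κ)) := by rw [← hqP]; abel
    have h2 : M.E (b * K.D B (K.Pr W κ)) = - M.E (K.D B b * K.Pr W κ) := M.parts B b _
    have h3 : b * q = b * K.Av W q + (-(b * K.Pr W e) + b * K.D B (K.Pr W κ)) := by
      conv_lhs => rw [h1]
      ring
    rw [h3, map_add, map_add, map_neg, h2]
    ring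
  have s4 : M.E (b * K.Av W q) = M.E (K.Av W b * K.Av W q) := by
    rw [← M.E_Av W cW (b * K.Av W q), mul_comm b, K.Av_mul_Av W cW, mul_comm]
  have hAr : K.Av W r = - K.D B (K.Av W b) := by
    rw [hr, map_sub, K.Av_D W cW, K.D_Av_comm W B hWB, zero_sub]
  have hAq : K.Av W q = K.Av W b + K.D B (K.D B (K.Av W b)) := by
    rw [hq, map_sub, ← K.D_Av_comm W B hWB, hAr, map_neg]
    abel
  have s5 : M.E (K.Av W b * K.Av W q) =
      M.E ((K.Av W b) ^ 2) - M.E ((K.D B (K.Av W b)) ^ 2) := by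
    have h1 := M.parts B (K.Av W b) (K.D B (K.Av W b))
    rw [hAq, mul_add, map_add, h1, sq, sq]
    ring
  rw [s2, s3, s4, s5]
  ring

/-- the mean of a small sequence is small -/
theorem E_small (M : Mean K) {f : ℕ → K.𝒜} (hf : K.sm f) (ε : ℝ) (hε : 0 < ε) :
    ∀ᶠ j in atTop, |M.E (f j)| ≤ ε := by
  filter_upwards [hf ε hε] with j hj
  have h1 := M.mono (f j) (algebraMap ℝ K.𝒜 ε) (fun p => by
    rw [AlgHom.commutes]
    exact (le_abs_self _).trans (hj p))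
  have h2 := M.mono (algebraMap ℝ K.𝒜 (-ε)) (f j) (fun p => by
    rw [AlgHom.commutes]
    exact (abs_le.1 (hj p)).1)
  rw [M.const] at h1 h2
  exact abs_le.2 ⟨h2, h1⟩

variable [FiniteDimensional ℝ 𝔤] (hS : SymP K 𝔭) (S : SPert K 𝔭)

include hS in
theorem e2Z (B W Z J : 𝔤) (k : ℝ) (hk : k ≠ 0) (pB : B ∈ 𝔭) (pW : W ∈ 𝔭) (pJ : J ∈ 𝔭ᗮ)
    (hBW : K.br B W = 0) (hB : K.Cl (k • B))
    (hW : K.Cl W) (hi : LinearIndependent ℝ ![B, W]) (hWZ : K.br W Z = 0) (hBZ : K.br B Z = J)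
    (hBJ : K.br B J = -Z) : K.sm (fun j => K.R1 (S.h j) B W W Z) := by
  have hJW : K.br J W = 0 := by rw [K.br_anti, Pert.kap_brJ K hBW hWZ hBZ, neg_zero]
  have hJB : K.br J B = Z := by rw [K.br_anti, hBJ, neg_neg]
  have h := S.e2_small (k • B) W J (fun s => hS.Adkp J _ s pJ (𝔭.smul_mem _ pB)) pW
    (by rw [map_smul, LinearMap.smul_apply, hBW, smul_zero]) hB hW (indep_smul hi hk) hJW
  refine (h.smul (k⁻¹ * k⁻¹)).congr fun j => ?_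
  rw [TorusDatum.R1_smul_left, map_smul, K.R1_smul_right, smul_smul, smul_smul, hJB]
  have : k⁻¹ * k⁻¹ * k * k = 1 := by field_simp
  rw [this, one_smul]

theorem Q_sm (B W : 𝔤) (k : ℝ) (hk : k ≠ 0) (pB : B ∈ 𝔭) (pW : W ∈ 𝔭)
    (hBW : K.br B W = 0) (hB : K.Cl (k • B))
    (hW : K.Cl W) (hi : LinearIndependent ℝ ![B, W]) :
    K.sm (fun j => K.Q (S.h j) B W) := by
  have h := S.Q_small₁ (k • B) W (𝔭.smul_mem _ pB) pW
    (by rw [map_smul, LinearMap.smul_apply, hBW, smul_zero]) hB hW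
    (indep_smul hi hk)
  refine (h.smul (k⁻¹ * k⁻¹)).congr fun j => ?_
  simp only [Calc.Q, map_smul, LinearMap.smul_apply, K.eta_smul_left, K.eta_smul_right]
  have : k⁻¹ * k⁻¹ * k * k = 1 := by field_simp
  rw [← smul_sub, ← smul_sub, smul_smul, smul_smul, this, one_smul]

include hS in
theorem kap_sm (B W Z J : 𝔤) (k : ℝ) (hk : k ≠ 0) (pB : B ∈ 𝔭) (pW : W ∈ 𝔭) (pJ : J ∈ 𝔭ᗮ)
    (hBW : K.br B W = 0) (hB : K.Cl (k • B))
    (hW : K.Cl W) (hi : LinearIndependent ℝ ![B, W]) (hWZ : K.br W Z = 0) (hBZ : K.br B Z = J)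
    (hBJ : K.br B J = -Z) :
    K.sm (fun j => K.eta (S.h j) W W Z - K.D W (K.R1 (S.h j) W B B Z)) := by
  have hWJ : K.br W J = 0 := Pert.kap_brJ K hBW hWZ hBZ
  have h1 := e2Z hS S B W Z J k hk pB pW pJ hBW hB hW hi hWZ hBZ hBJ
  have h3 : K.sm (fun j => K.D B (K.R1 (S.h j) B W W Z)) :=
    Calc.sm_D B _ h1 (S.bd_R1 [B, B] (by simp) B W W Z)
  have h4 : K.sm (fun j => K.D Z (K.Q (S.h j) B W)) :=
    Calc.sm_D Z _ (Q_sm S B W k hk pB pW hBW hB hW hi) (S.bd_Q [Z, Z] (by simp) B W)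
  refine (h3.sub h4).congr fun j => ?_
  have h6 := K.idE1 (S.h j) (S.symm j) B W Z J hBW hWZ hWJ hBZ hBJ
  have h7 : K.R1 (S.h j) B W W J = (1 / 2 : ℝ) • K.eta (S.h j) W W Z := by
    have e1 := S.eta_k hS j W W J pW pW pJ
    have e2 := S.eta_k hS j B W J pB pW pJ
    rw [Calc.R1, e1, e2, hBJ, hWJ, K.eta_neg_right, K.eta_zero_right, map_zero, map_zero]
    module
  rw [h7] at h6
  linear_combination (norm := module) h6

/-- the mean of the root term -/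
theorem J_le (hS : SymP K 𝔭) (M : Mean K) (B W Z J : 𝔤) (k : ℝ) (hk : k ≠ 0) (pB : B ∈ 𝔭) (pW : W ∈ 𝔭)
    (pJ : J ∈ 𝔭ᗮ) (hBW : K.br B W = 0) (hB : K.Cl (k • B))
    (hW : K.Cl W) (hi : LinearIndependent ℝ ![B, W]) (hWZ : K.br W Z = 0) (hBZ : K.br B Z = J)
    (hBJ : K.br B J = -Z)
    (hf : ∀ j, M.E ((K.Av W (K.eta (S.h j) B W Z)) ^ 2) ≤
      M.E ((K.D B (K.Av W (K.eta (S.h j) B W Z))) ^ 2)) :
    ∀ ε' : ℝ, 0 < ε' → ∀ᶠ j in atTop,
      M.E (K.eta (S.h j) B W Z ^ 2 - K.eta (S.h j) B B Z * K.eta (S.h j) W W Z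
        - K.R1 (S.h j) W B B Z ^ 2) ≤ ε' := by
  have hWB : K.br W B = 0 := by rw [K.br_anti, hBW, neg_zero]
  have hWJ : K.br W J = 0 := Pert.kap_brJ K hBW hWZ hBZ
  have bdη : ∀ C D E : 𝔤, K.bd (fun j => K.eta (S.h j) C D E) := fun C D E => by
    have h := S.bd_eta [] (by simp) C D E
    simpa [Calc.Dl] using h
  have bdDη : ∀ A C D E : 𝔤, K.bd (fun j => K.D A (K.eta (S.h j) C D E)) := fun A C D E => by
    have h := S.bd_eta [A] (by simp) C D E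
    simpa [Calc.Dl] using h
  have he : K.sm (fun j => K.D B (K.eta (S.h j) W W Z) - K.D W (K.eta (S.h j) B W Z)) := by
    refine (e2Z hS S B W Z J k hk pB pW pJ hBW hB hW hi hWZ hBZ hBJ).congr fun j => ?_
    have e1 := S.eta_k hS j W W J pW pW pJ
    rw [Calc.R1, hBZ, hWZ, e1, K.eta_zero_right]
    module
  have hκ := kap_sm hS S B W Z J k hk pB pW pJ hBW hB hW hi hWZ hBZ hBJ
  have k1 := Calc.sm.bd_mul (bdη B B Z) hκ
  have k2 := Calc.sm.bd_mul (bdη B W Z) (sm_Pr W he)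
  have k3 := Calc.sm.bd_mul (bdDη B B W Z) (sm_Pr W hκ)
  intro ε' hε'
  filter_upwards [E_small M k1 (ε' / 3) (by positivity), E_small M k2 (ε' / 3) (by positivity),
    E_small M k3 (ε' / 3) (by positivity)] with j a1 a2 a3
  have hr : K.R1 (S.h j) W B B Z = K.D W (K.eta (S.h j) B B Z) - K.D B (K.eta (S.h j) B W Z) := by
    have e2 := S.eta_k hS j W B J pW pB pJ
    rw [Calc.R1, hBZ, hWZ, e2, K.eta_zero_right, K.eta_comm_of (S.h j) W B Z (S.symm j) hWB]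
    module
  have h1 := J_eq M B W hBW hW (K.eta (S.h j) B B Z) (K.eta (S.h j) B W Z) (K.eta (S.h j) W W Z)
    (K.R1 (S.h j) W B B Z) _ _ hr rfl rfl
  rw [h1]
  have := hf j
  rw [abs_le] at a1 a2 a3
  linarith [a1.1, a2.1, a3.1]

end Pool.Agent.TH109.SS
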