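import Pool.Agent.TH109.SS.Shp

/-!
The curvature of `G/K` by Koszul's formula for the vector fields generated by the action of `G`
agrees with O'Neill's formula for the horizontal lift of the metric.
-/

open scoped ContDiff Matrix.Norms.Frobenius Topology
open Matrix Filter Module Pool.Agent.H842R4
open Pool.Agent.TH109.CG Pool.Agent.TH109.CG2 Pool.Agent.TH109.CG4

noncomputable section

namespace Pool.Agent.TH109.SS

variable {N : ℕ} {G : CGroup N}

/-! ### derivative of a family of bilinear forms -/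

theorem expand (e : Basis (Fin (finrank ℝ (lieAlg G))) ℝ (lieAlg G))
    (B : lieAlg G →ₗ[ℝ] lieAlg G →ₗ[ℝ] ℝ) (x y : lieAlg G) :
    B x y = ∑ i, ∑ j, e.coord i x * (e.coord j y * B (e i) (e j)) := by
  conv_lhs => rw [← e.sum_repr x, ← e.sum_repr y]
  simp only [map_sum, LinearMap.sum_apply, map_smul, LinearMap.smul_apply, smul_eq_mul,
    Basis.coord_apply, Finset.mul_sum]
  rw [Finset.sum_comm]
  refine Finset.sum_congr rfl fun i _ => Finset.sum_congr rfl fun j _ => ?_
  ring

theorem fam_deriv (b : ℝ → lieAlg G →ₗ[ℝ] lieAlg G →ₗ[ℝ] ℝ) (b' : lieAlg G → lieAlg G → ℝ)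
    (s : ℝ) (hb : ∀ x y, HasDerivAt (fun u => b u x y) (b' x y) s) (x y : ℝ → lieAlg G)
    (x' y' : lieAlg G) (hx : HasDerivAt x x' s) (hy : HasDerivAt y y' s) :
    HasDerivAt (fun u => b u (x u) (y u)) (b' (x s) (y s) + b s x' (y s) + b s (x s) y') s := by
  set e := Module.finBasis ℝ (lieAlg G) with he
  have hc : ∀ (i) (z : ℝ → lieAlg G) (z' : lieAlg G), HasDerivAt z z' s →
      HasDerivAt (fun u => e.coord i (z u)) (e.coord i z') s := by
    intro i z z' hz
    exact ((e.coord i).toContinuousLinearMap.hasFDerivAt (x := z s)).comp_hasDerivAt s hz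
  have h1 : (fun u => b u (x u) (y u)) = fun u => ∑ i, ∑ j,
      e.coord i (x u) * (e.coord j (y u) * b u (e i) (e j)) :=
    funext fun u => expand e (b u) (x u) (y u)
  have hb' : b' (x s) (y s) = ∑ i, ∑ j,
      e.coord i (x s) * (e.coord j (y s) * b' (e i) (e j)) := by
    have h2 : HasDerivAt (fun u => b u (x s) (y s)) (∑ i, ∑ j,
        e.coord i (x s) * (e.coord j (y s) * b' (e i) (e j))) s := by
      have h3 : (fun u => b u (x s) (y s)) = fun u => ∑ i, ∑ j,
          e.coord i (x s) * (e.coord j (y s) * b u (e i) (e j)) :=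
        funext fun u => expand e (b u) (x s) (y s)
      rw [h3]
      refine HasDerivAt.fun_sum fun i _ => HasDerivAt.fun_sum fun j _ => ?_
      exact ((hb (e i) (e j)).const_mul _).const_mul _
    exact (hb (x s) (y s)).unique h2
  rw [h1, hb', expand e (b s) x' (y s), expand e (b s) (x s) y', ← Finset.sum_add_distrib,
    ← Finset.sum_add_distrib]
  refine HasDerivAt.fun_sum fun i _ => ?_
  rw [← Finset.sum_add_distrib, ← Finset.sum_add_distrib]
  refine HasDerivAt.fun_sum fun j _ => ?_
  refine ((hc i x x' hx).mul ((hc j y y' hy).mul (hb (e i) (e j)))).congr_deriv ?_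
  simp only [Pi.mul_apply]
  ring

/-! ### parts -/

variable (σ : Invo G)

/-- horizontal part -/
def hp : lieAlg G →ₗ[ℝ] lieAlg G := (1 / 2 : ℝ) • (LinearMap.id - theta σ)

/-- vertical part -/
def vp : lieAlg G →ₗ[ℝ] lieAlg G := (1 / 2 : ℝ) • (LinearMap.id + theta σ)

theorem hp_apply (A : lieAlg G) : hp σ A = (1 / 2 : ℝ) • (A - theta σ A) := rfl

theorem vp_apply (A : lieAlg G) : vp σ A = (1 / 2 : ℝ) • (A + theta σ A) := rfl

theorem hp_add_vp (A : lieAlg G) : hp σ A + vp σ A = A := by
  rw [hp_apply, vp_apply]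
  module

theorem hp_mem (A : lieAlg G) : hp σ A ∈ pSub σ := by
  rw [mem_pSub', hp_apply, map_smul, map_sub, theta_theta]
  module

theorem vp_fix (A : lieAlg G) : theta σ (vp σ A) = vp σ A := by
  rw [vp_apply, map_smul, map_add, theta_theta, add_comm]

variable {σ}

theorem hp_of_mem {A : lieAlg G} (hA : A ∈ pSub σ) : hp σ A = A := by
  rw [hp_apply, (mem_pSub' σ A).1 hA]
  module

theorem vp_of_mem {A : lieAlg G} (hA : A ∈ pSub σ) : vp σ A = 0 := by
  rw [vp_apply, (mem_pSub' σ A).1 hA]
  module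

theorem hp_of_fix {A : lieAlg G} (hA : theta σ A = A) : hp σ A = 0 := by
  rw [hp_apply, hA, sub_self, smul_zero]

theorem vp_of_fix {A : lieAlg G} (hA : theta σ A = A) : vp σ A = A := by
  rw [vp_apply, hA]
  module

theorem pp_fix {A B : lieAlg G} (hA : A ∈ pSub σ) (hB : B ∈ pSub σ) :
    theta σ (brk A B) = brk A B := by
  rw [theta_brk, (mem_pSub' σ A).1 hA, (mem_pSub' σ B).1 hB]
  show brkL G (-A) (-B) = brkL G A B
  rw [map_neg, map_neg, LinearMap.neg_apply, neg_neg]

theorem kp_mem {κ A : lieAlg G} (hκ : theta σ κ = κ) (hA : A ∈ pSub σ) : brk κ A ∈ pSub σ := by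
  rw [mem_pSub', theta_brk, (mem_pSub' σ A).1 hA, hκ]
  show brkL G κ (-A) = - brkL G κ A
  rw [map_neg]

theorem pk_mem {κ A : lieAlg G} (hκ : theta σ κ = κ) (hA : A ∈ pSub σ) : brk A κ ∈ pSub σ := by
  rw [CG4.brk_anti]
  exact (pSub σ).neg_mem (kp_mem hκ hA)

theorem hp_brk (A B : lieAlg G) :
    hp σ (brk A B) = brk (hp σ A) (vp σ B) + brk (vp σ A) (hp σ B) := by
  rw [hp_apply, theta_brk]
  show (1 / 2 : ℝ) • (brkL G A B - brkL G (theta σ A) (theta σ B)) =
    brkL G (hp σ A) (vp σ B) + brkL G (vp σ A) (hp σ B)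
  simp only [hp_apply, vp_apply, map_smul, map_add, map_sub, LinearMap.smul_apply,
    LinearMap.add_apply, LinearMap.sub_apply]
  module

/-! ### conjugation by the inverse -/

theorem cinv_mem (p : Pt G) (A : lieAlg G) : star (p : Mat N) * (A : Mat N) * p ∈ lieAlg G := by
  have h := conj_mem' (G := G) (k := star (p : Mat N)) (G.star_mem _ p.2) A.2
  rwa [star_star] at h

/-- conjugation by the inverse of an element of the group -/
def cinv (p : Pt G) (A : lieAlg G) : lieAlg G :=
  ⟨star (p : Mat N) * (A : Mat N) * (p : Mat N), cinv_mem p A⟩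

theorem cinv_cj (p : Pt G) (A : lieAlg G) : cinv p (cj p A) = A := by
  have u1 : star (p : Mat N) * p = 1 := Matrix.mem_unitaryGroup_iff'.1 (G.unitary _ p.2)
  apply Subtype.ext
  show star (p : Mat N) * ((p : Mat N) * (A : Mat N) * star (p : Mat N)) * p = A
  calc star (p : Mat N) * ((p : Mat N) * (A : Mat N) * star (p : Mat N)) * p
      = (star (p : Mat N) * p) * A * (star (p : Mat N) * p) := by simp only [mul_assoc]
    _ = A := by rw [u1, one_mul, mul_one]

theorem cinv_brk (p : Pt G) (A B : lieAlg G) :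
    cinv p (brk A B) = brk (cinv p A) (cinv p B) := by
  have u2 : (p : Mat N) * star (p : Mat N) = 1 :=
    Matrix.mem_unitaryGroup_iff.1 (G.unitary _ p.2)
  have key : ∀ U V : Mat N, (star (p : Mat N) * U * p) * (star (p : Mat N) * V * p) =
      star (p : Mat N) * (U * V) * p := by
    intro U V
    calc (star (p : Mat N) * U * p) * (star (p : Mat N) * V * p)
        = star (p : Mat N) * U * ((p : Mat N) * star (p : Mat N)) * V * p := by
          simp only [mul_assoc]
      _ = _ := by rw [u2, mul_one]; simp only [mul_assoc]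
  apply Subtype.ext
  show star (p : Mat N) * ((A : Mat N) * B - B * A) * p =
    (star (p : Mat N) * A * p) * (star (p : Mat N) * B * p) -
      (star (p : Mat N) * B * p) * (star (p : Mat N) * A * p)
  rw [key, key, mul_sub, sub_mul]

theorem cinv_move (p : Pt G) (v X : lieAlg G) (u : ℝ) :
    cinv (move p v u) X = ad v (-u) (cinv p X) := by
  apply Subtype.ext
  show star ((p : Mat N) * NormedSpace.exp (u • (v : Mat N))) * (X : Mat N) *
    ((p : Mat N) * NormedSpace.exp (u • (v : Mat N))) = _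
  rw [ad_coe, star_mul, star_exp, neg_smul, neg_neg]
  show _ = NormedSpace.exp (-(u • (v : Mat N))) * (star (p : Mat N) * (X : Mat N) * p) *
    NormedSpace.exp (u • (v : Mat N))
  simp only [mul_assoc]

/-- action of `exp (u X)` on a point -/
theorem exp_mul_eq (X : lieAlg G) (u : ℝ) (p : Pt G) :
    (⟨NormedSpace.exp (u • (X : Mat N)), X.2 u⟩ : Pt G) * p = move p (cinv p X) u := by
  have u1 : star (p : Mat N) * p = 1 := Matrix.mem_unitaryGroup_iff'.1 (G.unitary _ p.2)
  have u2 : (p : Mat N) * star (p : Mat N) = 1 :=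
    Matrix.mem_unitaryGroup_iff.1 (G.unitary _ p.2)
  apply Subtype.ext
  show NormedSpace.exp (u • (X : Mat N)) * (p : Mat N) = (p : Mat N) *
    NormedSpace.exp (u • (star (p : Mat N) * (X : Mat N) * (p : Mat N)))
  have h0 : (star (p : Mat N))⁻¹ = p := Matrix.inv_eq_right_inv u1
  have h3 : u • (star (p : Mat N) * (X : Mat N) * (p : Mat N)) =
      star (p : Mat N) * (u • (X : Mat N)) * (star (p : Mat N))⁻¹ := by
    rw [h0, Matrix.mul_smul, Matrix.smul_mul]
  rw [h3, Matrix.exp_conj _ _ ⟨⟨star (p : Mat N), p, u1, u2⟩, rfl⟩, h0, ← mul_assoc, ← mul_assoc,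
    u2, one_mul]

/-! ### Koszul's formula for the fields of the action -/

variable (σ) (g : Metric G)

/-- the components of the metric as smooth functions -/
def gS : lieAlg G →ₗ[ℝ] lieAlg G →ₗ[ℝ] smoothAlg G :=
  LinearMap.mk₂ ℝ (fun A B => ⟨fun p => g.val p A B, g.smooth A B⟩)
    (fun A B C => by apply Subtype.ext; funext p; exact LinearMap.map_add₂ (g.val p) A B C)
    (fun c A B => by apply Subtype.ext; funext p; exact LinearMap.map_smul₂ (g.val p) c A B)
    (fun A B C => by apply Subtype.ext; funext p; exact map_add (g.val p A) B C)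
    (fun c A B => by apply Subtype.ext; funext p; exact map_smul (g.val p A) c B)

/-- the Christoffel symbols with respect to the canonical connection -/
def K1 (x y z : lieAlg G) : smoothAlg G :=
  (1 / 2 : ℝ) • (lieL G x (gS g y z) + lieL G y (gS g x z) - lieL G z (gS g x y))

theorem K1_apply (x y z : lieAlg G) (p : Pt G) : (K1 g x y z : Pt G → ℝ) p =
    (1 / 2 : ℝ) * (lie x (fun q => g.val q y z) p + lie y (fun q => g.val q x z) p -
      lie z (fun q => g.val q x y) p) := rfl

/-- `K1` as a bilinear form in the first two arguments -/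
def K12 (z : lieAlg G) (p : Pt G) : lieAlg G →ₗ[ℝ] lieAlg G →ₗ[ℝ] ℝ :=
  LinearMap.mk₂ ℝ (fun x y => (K1 g x y z : Pt G → ℝ) p)
    (fun A B C => by
      have : K1 g (A + B) C z = K1 g A C z + K1 g B C z := by
        simp only [K1, map_add, LinearMap.add_apply]; module
      rw [this]; rfl)
    (fun c A B => by
      have : K1 g (c • A) B z = c • K1 g A B z := by
        simp only [K1, map_smul, LinearMap.smul_apply]; module
      rw [this]; rfl)
    (fun A B C => by
      have : K1 g A (B + C) z = K1 g A B z + K1 g A C z := by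
        simp only [K1, map_add, LinearMap.add_apply]; module
      rw [this]; rfl)
    (fun c A B => by
      have : K1 g A (c • B) z = c • K1 g A B z := by
        simp only [K1, map_smul, LinearMap.smul_apply]; module
      rw [this]; rfl)

/-- `K1` as a bilinear form in the first and third argument -/
def K13 (y : lieAlg G) (p : Pt G) : lieAlg G →ₗ[ℝ] lieAlg G →ₗ[ℝ] ℝ :=
  LinearMap.mk₂ ℝ (fun x z => (K1 g x y z : Pt G → ℝ) p)
    (fun A B C => by
      have : K1 g (A + B) y C = K1 g A y C + K1 g B y C := by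
        simp only [K1, map_add, LinearMap.add_apply]; module
      rw [this]; rfl)
    (fun c A B => by
      have : K1 g (c • A) y B = c • K1 g A y B := by
        simp only [K1, map_smul, LinearMap.smul_apply]; module
      rw [this]; rfl)
    (fun A B C => by
      have : K1 g A y (B + C) = K1 g A y B + K1 g A y C := by
        simp only [K1, map_add, LinearMap.add_apply]; module
      rw [this]; rfl)
    (fun c A B => by
      have : K1 g A y (c • B) = c • K1 g A y B := by
        simp only [K1, map_smul, LinearMap.smul_apply]; module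
      rw [this]; rfl)

/-- inner product of two fields of the action -/
def Fn (Y Z : lieAlg G) (q : Pt G) : ℝ := g.val q (hp σ (cinv q Y)) (hp σ (cinv q Z))

/-- derivative along a field of the action -/
def act (X : lieAlg G) (f : Pt G → ℝ) (p : Pt G) : ℝ :=
  deriv (fun u => f ((⟨NormedSpace.exp (u • (X : Mat N)), X.2 u⟩ : Pt G) * p)) 0

/-- Koszul's formula for fields of the action -/
def kz (X Y Z : lieAlg G) (p : Pt G) : ℝ :=
  (act X (Fn σ g Y Z) p + act Y (Fn σ g X Z) p - act Z (Fn σ g X Y) p - Fn σ g (brk X Y) Z p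
    + Fn σ g (brk X Z) Y p + Fn σ g (brk Y Z) X p) / 2

variable {σ g} {Q : InvProduct G}

theorem act_eq (X : lieAlg G) (f : Pt G → ℝ) (p : Pt G) :
    act X f p = deriv (fun u => f (move p (cinv p X) u)) 0 := by
  unfold act
  simp only [exp_mul_eq]

theorem ad_der_neg (v A : lieAlg G) : HasDerivAt (fun u => ad v (-u) A) (-(brk v A)) 0 := by
  have h1 : HasDerivAt (fun u => ad v u A) (brk v (ad v (-0) A)) (-0) := ad_der v A (-0)
  have h2 := h1.scomp (0 : ℝ) (hasDerivAt_neg (0 : ℝ))
  have h3 : (-1 : ℝ) • brk v (ad v (-0) A) = -(brk v A) := by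
    rw [neg_zero, ad_zero]
    module
  rw [h3] at h2
  exact h2

theorem lin_der (f : lieAlg G →ₗ[ℝ] lieAlg G) {x : ℝ → lieAlg G} {x' : lieAlg G} {s : ℝ}
    (h : HasDerivAt x x' s) : HasDerivAt (fun u => f (x u)) (f x') s :=
  (f.toContinuousLinearMap.hasFDerivAt (x := x s)).comp_hasDerivAt s h

theorem lie_fix (hL : Lifted σ Q g) {κ A B : lieAlg G} (hκ : theta σ κ = κ)
    (hA : A ∈ pSub σ) (hB : B ∈ pSub σ) (p : Pt G) :
    lie κ (fun q => g.val q A B) p = g.val p (brk κ A) B + g.val p A (brk κ B) := by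
  unfold lie
  simp only [hL.val_move hκ hA hB]
  exact (hasDerivAt_val (g.val p) κ A B).deriv

theorem T1 (hL : Lifted σ Q g) (X Y Z : lieAlg G) (p : Pt G) :
    act X (Fn σ g Y Z) p = lie (hp σ (cinv p X)) (fun q => g.val q (hp σ (cinv p Y))
      (hp σ (cinv p Z))) p - g.val p (brk (hp σ (cinv p X)) (vp σ (cinv p Y))) (hp σ (cinv p Z))
      - g.val p (hp σ (cinv p Y)) (brk (hp σ (cinv p X)) (vp σ (cinv p Z))) := by
  rw [act_eq]
  unfold Fn
  simp only [cinv_move]
  generalize cinv p X = X'
  generalize cinv p Y = Y'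
  generalize cinv p Z = Z'
  have h1 := fam_deriv (fun u => g.val (move p X' u))
    (fun x y => lie X' (fun q => g.val q x y) p) 0
    (fun x y => sulie_deriv0 (fun q => g.val q x y) (g.smooth x y) X' p)
    (fun u => hp σ (ad X' (-u) Y')) (fun u => hp σ (ad X' (-u) Z')) _ _
    (lin_der (hp σ) (ad_der_neg X' Y')) (lin_der (hp σ) (ad_der_neg X' Z'))
  rw [h1.deriv]
  simp only [neg_zero, ad_zero, move_zero, map_neg, LinearMap.neg_apply, hp_brk, map_add,
    LinearMap.add_apply]
  have h2 : lie X' (fun q => g.val q (hp σ Y') (hp σ Z')) p =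
      lie (hp σ X') (fun q => g.val q (hp σ Y') (hp σ Z')) p +
      lie (vp σ X') (fun q => g.val q (hp σ Y') (hp σ Z')) p := by
    rw [← lie_add_left _ (g.smooth _ _), hp_add_vp]
  rw [h2, lie_fix hL (vp_fix σ X') (hp_mem σ Y') (hp_mem σ Z')]
  ring

theorem kz_eq (hL : Lifted σ Q g) (X Y Z : lieAlg G) (p : Pt G) :
    kz σ g X Y Z p = (K1 g (hp σ (cinv p X)) (hp σ (cinv p Y)) (hp σ (cinv p Z)) : Pt G → ℝ) p -
      g.val p (brk (hp σ (cinv p X)) (vp σ (cinv p Y))) (hp σ (cinv p Z)) := by
  unfold kz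
  rw [T1 hL, T1 hL, T1 hL, K1_apply]
  unfold Fn
  rw [cinv_brk, cinv_brk, cinv_brk, hp_brk, hp_brk, hp_brk]
  generalize cinv p X = X'
  generalize cinv p Y = Y'
  generalize cinv p Z = Z'
  rw [CG4.brk_anti (hp σ Y') (vp σ X'), CG4.brk_anti (hp σ Z') (vp σ X'),
    CG4.brk_anti (hp σ Z') (vp σ Y')]
  simp only [map_neg, LinearMap.neg_apply, map_add, LinearMap.add_apply]
  rw [g.symm p (brk (hp σ X') (vp σ Z')) (hp σ Y'), g.symm p (brk (hp σ Y') (vp σ Z')) (hp σ X'),
    g.symm p (brk (vp σ Y') (hp σ Z')) (hp σ X')]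
  ring

end Pool.Agent.TH109.SS
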