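import Pool.Agent.TH109.SS.Kil

/-!
Comparison of the curvatures.
-/

open scoped ContDiff Matrix.Norms.Frobenius Topology
open Matrix Filter Module Pool.Agent.H842R4
open Pool.Agent.TH109.CG Pool.Agent.TH109.CG2 Pool.Agent.TH109.CG4

noncomputable section

namespace Pool.Agent.TH109.SS

variable {N : ℕ} {G : CGroup N} {σ : Invo G} {g : Metric G} {Q : InvProduct G}

/-! ### derivatives of the Koszul terms -/

theorem bil_deriv_gen {E : Type} [NormedAddCommGroup E] [NormedSpace ℝ E]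
    [FiniteDimensional ℝ E] (b : E →ₗ[ℝ] E →ₗ[ℝ] E) {x y : ℝ → E} {x' y' : E} {s : ℝ}
    (hx : HasDerivAt x x' s) (hy : HasDerivAt y y' s) :
    HasDerivAt (fun u => b (x u) (y u)) (b x' (y s) + b (x s) y') s := by
  have h1 : ∀ x y, b.toContinuousBilinearMap x y = b x y := fun x y =>
    LinearMap.toContinuousBilinearMap_apply b x y
  have h2 := (b.toContinuousBilinearMap.hasFDerivAt (x := x s)).comp_hasDerivAt s hx
  have h3 := h2.clm_apply hy
  simp only [Function.comp_apply, h1] at h3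
  exact h3

theorem brk_deriv {x y : ℝ → lieAlg G} {x' y' : lieAlg G} {s : ℝ} (hx : HasDerivAt x x' s)
    (hy : HasDerivAt y y' s) :
    HasDerivAt (fun u => brk (x u) (y u)) (brk x' (y s) + brk (x s) y') s :=
  bil_deriv_gen (brkL G) hx hy

theorem der1 (hL : Lifted σ Q g) {A B X Y : lieAlg G} {p : Pt G} (hA : A ∈ pSub σ)
    (hB : B ∈ pSub σ) (hX : cinv p X = A) (hY : cinv p Y = B) :
    act X (kz σ g Y Y X) p = lie A (K1 g B B A : Pt G → ℝ) p + g.val p (brk B (brk A B)) A := by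
  rw [act_eq, hX]
  have e1 : ∀ u : ℝ, kz σ g Y Y X (move p A u) =
      K12 g A (move p A u) (hp σ (ad A (-u) B)) (hp σ (ad A (-u) B)) -
      g.val (move p A u) (brk (hp σ (ad A (-u) B)) (vp σ (ad A (-u) B))) A := by
    intro u
    rw [kz_eq hL, cinv_move, cinv_move, hX, hY, ad_fix A (-u) A (brk_self A), hp_of_mem hA]
    rfl
  simp only [e1]
  have hAB := pp_fix (σ := σ) hA hB
  have h1 := fam_deriv (fun u => K12 g A (move p A u))
    (fun x y => lie A (K1 g x y A : Pt G → ℝ) p) 0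
    (fun x y => sulie_deriv0 _ (K1 g x y A).2 A p)
    (fun u => hp σ (ad A (-u) B)) (fun u => hp σ (ad A (-u) B)) _ _
    (lin_der (hp σ) (ad_der_neg A B)) (lin_der (hp σ) (ad_der_neg A B))
  have hh := lin_der (hp σ) (ad_der_neg A B)
  have hv := lin_der (vp σ) (ad_der_neg A B)
  have hw : HasDerivAt (fun u => brk (hp σ (ad A (-u) B)) (vp σ (ad A (-u) B)))
      (brk (hp σ (-(brk A B))) (vp σ (ad A (-0) B)) + brk (hp σ (ad A (-0) B))
        (vp σ (-(brk A B)))) 0 := brk_deriv hh hv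
  have h2 := fam_deriv (fun u => g.val (move p A u))
    (fun x y => lie A (fun q => g.val q x y) p) 0
    (fun x y => sulie_deriv0 (fun q => g.val q x y) (g.smooth x y) A p)
    _ (fun _ => A) _ _ hw (hasDerivAt_const _ _)
  rw [(h1.fun_sub h2).deriv]
  have b0 : ∀ x : lieAlg G, brk x 0 = 0 := fun x => map_zero (brkL G x)
  have b1 : ∀ x : lieAlg G, brk 0 x = 0 := fun x => by
    show brkL G 0 x = 0
    rw [map_zero, LinearMap.zero_apply]
  have b2 : ∀ x y : lieAlg G, brk x (-y) = - brk x y := fun x y => map_neg (brkL G x) y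
  simp only [neg_zero, ad_zero, move_zero, map_neg, LinearMap.neg_apply, hp_of_mem hB,
    vp_of_mem hB, hp_of_fix hAB, vp_of_fix hAB, b0, b2, map_zero, LinearMap.zero_apply,
    add_zero, zero_add]
  have h5 : lie A (fun _ : Pt G => (0 : ℝ)) p = 0 := lie_const A 0 p
  rw [h5]
  ring

theorem der2 (hL : Lifted σ Q g) {A B X Y : lieAlg G} {p : Pt G} (hA : A ∈ pSub σ)
    (hB : B ∈ pSub σ) (hX : cinv p X = A) (hY : cinv p Y = B) :
    act Y (kz σ g X Y X) p = lie B (K1 g A B A : Pt G → ℝ) p := by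
  rw [act_eq, hY]
  have b0 : ∀ x : lieAlg G, brk x 0 = 0 := fun x => map_zero (brkL G x)
  have e1 : ∀ u : ℝ, kz σ g X Y X (move p B u) =
      K13 g B (move p B u) (hp σ (ad B (-u) A)) (hp σ (ad B (-u) A)) := by
    intro u
    rw [kz_eq hL, cinv_move, cinv_move, hX, hY, ad_fix B (-u) B (brk_self B), hp_of_mem hB,
      vp_of_mem hB, b0, map_zero, LinearMap.zero_apply, sub_zero]
    rfl
  simp only [e1]
  have hBA := pp_fix (σ := σ) hB hA
  have h1 := fam_deriv (fun u => K13 g B (move p B u))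
    (fun x y => lie B (K1 g x B y : Pt G → ℝ) p) 0
    (fun x y => sulie_deriv0 _ (K1 g x B y).2 B p)
    (fun u => hp σ (ad B (-u) A)) (fun u => hp σ (ad B (-u) A)) _ _
    (lin_der (hp σ) (ad_der_neg B A)) (lin_der (hp σ) (ad_der_neg B A))
  rw [h1.deriv]
  simp only [neg_zero, ad_zero, move_zero, map_neg, hp_of_mem hA,
    hp_of_fix hBA, map_zero, LinearMap.zero_apply, add_zero]

theorem kz_brk (hL : Lifted σ Q g) {A B X Y : lieAlg G} {p : Pt G} (hA : A ∈ pSub σ)
    (hB : B ∈ pSub σ) (hX : cinv p X = A) (hY : cinv p Y = B) :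
    kz σ g (brk X Y) Y X p = 0 := by
  have b1 : ∀ x : lieAlg G, brk 0 x = 0 := fun x => by
    show brkL G 0 x = 0
    rw [map_zero, LinearMap.zero_apply]
  rw [kz_eq hL, cinv_brk, hX, hY, hp_of_fix (pp_fix (σ := σ) hA hB), b1, map_zero,
    LinearMap.zero_apply, sub_zero]
  have : (K1 g 0 (hp σ B) (hp σ A) : Pt G → ℝ) p = K12 g (hp σ A) p 0 (hp σ B) := rfl
  rw [this, map_zero, LinearMap.zero_apply]

theorem kz_at (hL : Lifted σ Q g) {A B X Y : lieAlg G} {p : Pt G} (hA : A ∈ pSub σ)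
    (hB : B ∈ pSub σ) (hX : cinv p X = A) (hY : cinv p Y = B) (Z : lieAlg G) :
    kz σ g X Y Z p = (K1 g A B (hp σ (cinv p Z)) : Pt G → ℝ) p := by
  have b0 : ∀ x : lieAlg G, brk x 0 = 0 := fun x => map_zero (brkL G x)
  rw [kz_eq hL, hX, hY, hp_of_mem hA, hp_of_mem hB, vp_of_mem hB, b0, map_zero,
    LinearMap.zero_apply, sub_zero]

/-! ### the Levi-Civita connection of the lift -/

theorem q_perp (hθ : ∀ A B : lieAlg G, Q.val (theta σ A) (theta σ B) = Q.val A B)
    {κ B : lieAlg G} (hκ : theta σ κ = κ) (hB : B ∈ pSub σ) : Q.val κ B = 0 := by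
  have h := hθ κ B
  rw [hκ, (mem_pSub' σ B).1 hB, map_neg] at h
  linarith

theorem exists_gam (hθ : ∀ A B : lieAlg G, Q.val (theta σ A) (theta σ B) = Q.val A B)
    (hL : Lifted σ Q g) (A B : lieAlg G) (p : Pt G) :
    ∃ Γ ∈ pSub σ, ∀ C, g.val p Γ C = (K1 g A B (hp σ C) : Pt G → ℝ) p := by
  have hinj : Function.Injective (g.val p) := by
    rw [← LinearMap.ker_eq_bot, LinearMap.ker_eq_bot']
    intro V hV
    by_contra hne
    have h1 := g.pos p V hne
    rw [hV, LinearMap.zero_apply] at h1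
    exact lt_irrefl _ h1
  have hsur : Function.Surjective (g.val p) :=
    (LinearMap.injective_iff_surjective_of_finrank_eq_finrank
      (Subspace.dual_finrank_eq (K := ℝ) (V := lieAlg G)).symm).1 hinj
  obtain ⟨Γ, hΓ⟩ := hsur ((K13 g B p A) ∘ₗ hp σ)
  have h1 : ∀ C, g.val p Γ C = (K1 g A B (hp σ C) : Pt G → ℝ) p := by
    intro C
    rw [hΓ]
    rfl
  refine ⟨Γ, ?_, h1⟩
  have h2 := h1 (vp σ Γ)
  have h3 : (K1 g A B (hp σ (vp σ Γ)) : Pt G → ℝ) p = K13 g B p A (hp σ (vp σ Γ)) := rfl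
  rw [h3, hp_of_fix (vp_fix σ Γ), map_zero, g.symm, hL.ver p _ _ (vp_fix σ Γ)] at h2
  have h4 : Q.val (vp σ Γ) Γ = Q.val (vp σ Γ) (vp σ Γ) := by
    conv_lhs => rw [← hp_add_vp σ Γ]
    rw [map_add, hp_add_vp, q_perp hθ (vp_fix σ Γ) (hp_mem σ Γ), zero_add]
  rw [h4] at h2
  have h5 : vp σ Γ = 0 := by
    by_contra hne
    exact (Q.pos _ hne).ne' h2
  have h6 := hp_add_vp σ Γ
  rw [h5, add_zero] at h6
  rw [← h6]
  exact hp_mem σ Γ

theorem koszul_pp (hθ : ∀ A B : lieAlg G, Q.val (theta σ A) (theta σ B) = Q.val A B)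
    (hL : Lifted σ Q g) {A B : lieAlg G} (hA : A ∈ pSub σ) (hB : B ∈ pSub σ) (C : lieAlg G)
    (p : Pt G) : g.koszul A B C p = (K1 g A B (hp σ C) : Pt G → ℝ) p +
      Q.val (brk A B) C / 2 := by
  have e1 : ∀ A B : lieAlg G, B ∈ pSub σ → lie A (fun q => g.val q B C) p =
      lie A (fun q => g.val q B (hp σ C)) p := by
    intro A B hB
    have h1 : (fun q => g.val q B C) = (fun q => g.val q B (hp σ C)) + fun _ : Pt G => 0 := by
      funext q
      conv_lhs => rw [← hp_add_vp σ C]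
      rw [map_add, Pi.add_apply, g.symm q B (vp σ C), hL.ver q _ _ (vp_fix σ C),
        q_perp hθ (vp_fix σ C) hB]
    rw [h1, lie_add _ _ (g.smooth _ _) (smooth_const 0), lie_const, add_zero]
  have e2 : lie C (fun q => g.val q A B) p = lie (hp σ C) (fun q => g.val q A B) p +
      (g.val p (brk (vp σ C) A) B + g.val p A (brk (vp σ C) B)) := by
    rw [← lie_fix hL (vp_fix σ C) hA hB, ← lie_add_left _ (g.smooth _ _), hp_add_vp]
  have e3 : g.val p (brk A B) C = Q.val (brk A B) C := hL.ver p _ _ (pp_fix hA hB)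
  have e4 : ∀ A B : lieAlg G, A ∈ pSub σ → B ∈ pSub σ →
      g.val p (brk A C) B = - g.val p (brk (vp σ C) A) B := by
    intro A B hA hB
    have h1 : brk A C = brk A (hp σ C) + brk A (vp σ C) := by
      conv_lhs => rw [← hp_add_vp σ C]
      exact map_add (brkL G A) _ _
    rw [h1, map_add, LinearMap.add_apply, hL.ver p _ _ (pp_fix hA (hp_mem σ C)),
      q_perp hθ (pp_fix hA (hp_mem σ C)) hB, CG4.brk_anti A (vp σ C), map_neg,
      LinearMap.neg_apply, zero_add]
  have e5 : g.koszul A B C p = (lie A (fun q => g.val q B C) p + lie B (fun q => g.val q A C) p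
    - lie C (fun q => g.val q A B) p + g.val p (brk A B) C - g.val p (brk A C) B
    - g.val p (brk B C) A) / 2 := rfl
  rw [e5, K1_apply, e1 A B hB, e1 B A hA, e2, e3, e4 A B hA hB, e4 B A hB hA,
    g.symm p A (brk (vp σ C) B)]
  ring

theorem koszul_k (hL : Lifted σ Q g) {κ A B : lieAlg G} (hκ : theta σ κ = κ) (hA : A ∈ pSub σ)
    (hB : B ∈ pSub σ) (p : Pt G) : g.koszul κ B A p = g.val p (brk κ B) A +
      Q.val (brk A B) κ / 2 := by
  have e1 : ∀ A B : lieAlg G, A ∈ pSub σ → lie B (fun q => g.val q κ A) p = 0 := by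
    intro A B hA
    have h1 : (fun q => g.val q κ A) = fun _ : Pt G => Q.val κ A := by
      funext q
      exact hL.ver q _ _ hκ
    rw [h1, lie_const]
  have e5 : g.koszul κ B A p = (lie κ (fun q => g.val q B A) p + lie B (fun q => g.val q κ A) p
    - lie A (fun q => g.val q κ B) p + g.val p (brk κ B) A - g.val p (brk κ A) B
    - g.val p (brk B A) κ) / 2 := rfl
  have e6 : g.val p (brk B A) κ = - Q.val (brk A B) κ := by
    rw [hL.ver p _ _ (pp_fix hB hA), CG4.brk_anti B A, map_neg, LinearMap.neg_apply]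
  rw [e5, e1 A B hA, e1 B A hB, lie_fix hL hκ hB hA, e6, g.symm p B (brk κ A)]
  ring

theorem nabla_gam (hθ : ∀ A B : lieAlg G, Q.val (theta σ A) (theta σ B) = Q.val A B)
    (hL : Lifted σ Q g) {A B Γ : lieAlg G} (hA : A ∈ pSub σ) (hB : B ∈ pSub σ) (p : Pt G)
    (hΓ : ∀ C, g.val p Γ C = (K1 g A B (hp σ C) : Pt G → ℝ) p) :
    g.nabla A B p = Γ + (1 / 2 : ℝ) • brk A B := by
  refine g.eq_nabla A B _ p fun C => ?_
  rw [koszul_pp hθ hL hA hB, map_add, LinearMap.add_apply, hΓ, map_smul, LinearMap.smul_apply,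
    hL.ver p _ _ (pp_fix hA hB), smul_eq_mul]
  ring

/-- The curvature by Koszul's formula for the fields of the action is given by O'Neill's formula. -/
theorem curv_key (hθ : ∀ A B : lieAlg G, Q.val (theta σ A) (theta σ B) = Q.val A B)
    (hL : Lifted σ Q g) {A B X Y : lieAlg G} {p : Pt G} (hA : A ∈ pSub σ)
    (hB : B ∈ pSub σ) (hX : cinv p X = A) (hY : cinv p Y = B) {ΓAA ΓAB ΓBA ΓBB : lieAlg G}
    (mAB : ΓAB ∈ pSub σ) (mBA : ΓBA ∈ pSub σ)
    (hAA : ∀ C, g.val p ΓAA C = (K1 g A A (hp σ C) : Pt G → ℝ) p)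
    (hAB : ∀ C, g.val p ΓAB C = (K1 g A B (hp σ C) : Pt G → ℝ) p)
    (hBA : ∀ C, g.val p ΓBA C = (K1 g B A (hp σ C) : Pt G → ℝ) p)
    (hBB : ∀ C, g.val p ΓBB C = (K1 g B B (hp σ C) : Pt G → ℝ) p) :
    act X (kz σ g Y Y X) p - g.val p ΓBB ΓAA - act Y (kz σ g X Y X) p + g.val p ΓAB ΓBA +
      kz σ g (brk X Y) Y X p = cur Q g A B p := by
  rw [der1 hL hA hB hX hY, der2 hL hA hB hX hY, kz_brk hL hA hB hX hY]
  have k1 : g.koszul B B A = (K1 g B B A : Pt G → ℝ) := by
    funext q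
    rw [koszul_pp hθ hL hB hB, brk_self, map_zero, LinearMap.zero_apply, hp_of_mem hA]
    ring
  have k2 : g.koszul A B A = (K1 g A B A : Pt G → ℝ) := by
    funext q
    rw [koszul_pp hθ hL hA hB, q_perp hθ (pp_fix hA hB) hA, hp_of_mem hA]
    ring
  have h1 : g.curv A B p = lie A (g.koszul B B A) p
    - g.val p (g.nabla B B p) (g.nabla A A p)
    - lie B (g.koszul A B A) p + g.val p (g.nabla A B p) (g.nabla B A p)
    - g.koszul (brk A B) B A p := rfl
  unfold cur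
  rw [h1, k1, k2, nabla_gam hθ hL hA hA p hAA, nabla_gam hθ hL hB hB p hBB,
    nabla_gam hθ hL hA hB p hAB, nabla_gam hθ hL hB hA p hBA, brk_self, brk_self,
    koszul_k hL (pp_fix hA hB) hA hB, CG4.brk_anti B (brk A B), CG4.brk_anti B A]
  have c1 : g.val p ΓAB (brk A B) = 0 := by
    rw [g.symm, hL.ver p _ _ (pp_fix hA hB), q_perp hθ (pp_fix hA hB) mAB]
  have c2 : g.val p (brk A B) ΓBA = 0 := by
    rw [hL.ver p _ _ (pp_fix hA hB), q_perp hθ (pp_fix hA hB) mBA]
  have c3 : g.val p (brk A B) (brk A B) = Q.val (brk A B) (brk A B) :=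
    hL.ver p _ _ (pp_fix hA hB)
  simp only [smul_zero, add_zero, map_add, LinearMap.add_apply, map_smul, LinearMap.smul_apply,
    smul_eq_mul, smul_neg, map_neg, LinearMap.neg_apply, c1, c2, c3]
  ring

end Pool.Agent.TH109.SS
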