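import Pool.Agent.H842R4.Asm4

/-!
Sequences of perturbations of the metric of a symmetric space (following `H842R4`).
-/

open MeasureTheory Filter Topology Pool.Agent.H842R4

noncomputable section

namespace Pool.Agent.TH109.SS

variable {P 𝔤 : Type} [NormedAddCommGroup 𝔤] [InnerProductSpace ℝ 𝔤]

/-- A sequence of metrics `⟪·,·⟫ + t h`, `t → 0`, on the symmetric space with tangent space `𝔭`,
with `h` bounded in `C⁴`, all of whose sectional curvatures are larger than `ε t²`. The tensor `h`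
is extended by zero to the complement of `𝔭` and is equivariant. (The aim is a contradiction.) -/
structure SPert (K : Calc P 𝔤) (𝔭 : Submodule ℝ 𝔤) where
  t : ℕ → ℝ
  t_pos : ∀ j, 0 < t j
  t_lim : Tendsto t atTop (𝓝 0)
  h : ℕ → 𝔤 →ₗ[ℝ] 𝔤 →ₗ[ℝ] K.𝒜
  symm : ∀ j A B, h j A B = h j B A
  bound : ∀ j (L : List 𝔤), L.length ≤ 4 → ∀ A B p,
    |K.ev p (K.Dl L (h j A B))| ≤ (L.map norm).prod * ‖A‖ * ‖B‖
  ε : ℝ
  ε_pos : 0 < ε
  hor : ∀ j κ A, κ ∈ 𝔭ᗮ → h j κ A = 0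
  eqv : ∀ j κ A B, κ ∈ 𝔭ᗮ → A ∈ 𝔭 → B ∈ 𝔭 →
    K.D κ (h j A B) = h j (K.br κ A) B + h j A (K.br κ B)
  pos : ∀ j p A B, A ∈ 𝔭 → B ∈ 𝔭 → LinearIndependent ℝ ![A, B] → ∀ VAA VAB VBA VBB,
    K.IsNabla (K.met (t j) (h j)) p A A VAA → K.IsNabla (K.met (t j) (h j)) p A B VAB →
    K.IsNabla (K.met (t j) (h j)) p B A VBA → K.IsNabla (K.met (t j) (h j)) p B B VBB →
    ε * t j ^ 2 * K.gram (K.met (t j) (h j)) p A B <
      K.num (K.met (t j) (h j)) p A B VAA VAB VBA VBB + (3 / 4) * ‖K.br A B‖ ^ 2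

variable [FiniteDimensional ℝ 𝔤]

namespace SPert

variable {K : Calc P 𝔤} {𝔭 : Submodule ℝ 𝔤} (S : SPert K 𝔭)

theorem eta_bound : ∃ C : ℝ, 0 < C ∧ ∀ j (L : List 𝔤), L.length ≤ 3 → ∀ A B E p,
    |K.ev p (K.Dl L (K.eta (S.h j) A B E))| ≤ C * (L.map norm).prod * ‖A‖ * ‖B‖ * ‖E‖ := by
  obtain ⟨C, hC, hbr⟩ := K.br_bound
  refine ⟨(3 + 3 * C) / 2, by positivity, fun j L hL A B E p => ?_⟩
  have hP := db_prod_norm_nonneg L
  -- the derivative terms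
  have d : ∀ A B E : 𝔤, |K.ev p (K.Dl L (K.D A (S.h j B E)))| ≤
      (L.map norm).prod * ‖A‖ * ‖B‖ * ‖E‖ := by
    intro A B E
    rw [K.db_Dl_D]
    have h := S.bound j (L ++ [A]) (by simp; omega) B E p
    rwa [db_prod_norm_snoc] at h
  -- the bracket terms
  have b : ∀ A B E : 𝔤, |K.ev p (K.Dl L (S.h j (K.br A B) E))| ≤
      C * ((L.map norm).prod * ‖A‖ * ‖B‖ * ‖E‖) := by
    intro A B E
    refine (S.bound j L (by omega) (K.br A B) E p).trans ?_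
    have h1 := hbr A B
    calc (L.map norm).prod * ‖K.br A B‖ * ‖E‖
        ≤ (L.map norm).prod * (C * ‖A‖ * ‖B‖) * ‖E‖ := by gcongr
      _ = _ := by ring
  have e : K.ev p (K.Dl L (K.eta (S.h j) A B E)) = (1 / 2) *
      (K.ev p (K.Dl L (K.D A (S.h j B E))) + K.ev p (K.Dl L (K.D B (S.h j A E)))
        - K.ev p (K.Dl L (K.D E (S.h j A B))) + K.ev p (K.Dl L (S.h j (K.br A B) E))
        - K.ev p (K.Dl L (S.h j (K.br A E) B)) - K.ev p (K.Dl L (S.h j (K.br B E) A))) := by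
    unfold Calc.eta
    simp only [K.db_Dl_smul, K.db_Dl_add, K.db_Dl_sub, map_smul, map_add, map_sub, smul_eq_mul]
  rw [e]
  have d1 := abs_le.1 (d A B E)
  have d2 := abs_le.1 (d B A E)
  have d3 := abs_le.1 (d E A B)
  have b1 := abs_le.1 (b A B E)
  have b2 := abs_le.1 (b A E B)
  have b3 := abs_le.1 (b B E A)
  have r1 : (L.map norm).prod * ‖B‖ * ‖A‖ * ‖E‖ = (L.map norm).prod * ‖A‖ * ‖B‖ * ‖E‖ := by ring
  have r2 : (L.map norm).prod * ‖E‖ * ‖A‖ * ‖B‖ = (L.map norm).prod * ‖A‖ * ‖B‖ * ‖E‖ := by ring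
  have r3 : (L.map norm).prod * ‖A‖ * ‖E‖ * ‖B‖ = (L.map norm).prod * ‖A‖ * ‖B‖ * ‖E‖ := by ring
  have r4 : (L.map norm).prod * ‖B‖ * ‖E‖ * ‖A‖ = (L.map norm).prod * ‖A‖ * ‖B‖ * ‖E‖ := by ring
  rw [r1] at d2
  rw [r2] at d3
  rw [r3] at b2
  rw [r4] at b3
  have r5 : (3 + 3 * C) / 2 * (L.map norm).prod * ‖A‖ * ‖B‖ * ‖E‖ =
      (3 + 3 * C) / 2 * ((L.map norm).prod * ‖A‖ * ‖B‖ * ‖E‖) := by ring
  rw [r5, abs_le]
  constructor <;> linarith [d1.1, d1.2, d2.1, d2.2, d3.1, d3.2, b1.1, b1.2, b2.1, b2.2, b3.1, b3.2]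

theorem Q_bound : ∃ C : ℝ, 0 < C ∧ ∀ j (L : List 𝔤), L.length ≤ 2 → ∀ A B p,
    |K.ev p (K.Dl L (K.Q (S.h j) A B))| ≤ C * (L.map norm).prod * ‖A‖ ^ 2 * ‖B‖ ^ 2 := by
  obtain ⟨C, hC, h⟩ := S.eta_bound
  refine ⟨2 * C, by positivity, fun j L hL A B p => ?_⟩
  have h1 := h j (L ++ [A]) (by simp; omega) B B A p
  have h2 := h j (L ++ [B]) (by simp; omega) A B A p
  rw [db_prod_norm_snoc] at h1 h2
  have e : K.ev p (K.Dl L (K.Q (S.h j) A B)) =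
      K.ev p (K.Dl (L ++ [A]) (K.eta (S.h j) B B A)) -
        K.ev p (K.Dl (L ++ [B]) (K.eta (S.h j) A B A)) := by
    unfold Calc.Q
    rw [K.db_Dl_sub, map_sub, K.db_Dl_D, K.db_Dl_D]
  rw [e]
  refine (abs_sub _ _).trans ((add_le_add h1 h2).trans (le_of_eq ?_))
  ring

theorem R1_bound : ∃ C : ℝ, 0 < C ∧ ∀ j (L : List 𝔤), L.length ≤ 2 → ∀ A B E Z p,
    |K.ev p (K.Dl L (K.R1 (S.h j) A B E Z))| ≤
      C * (L.map norm).prod * ‖A‖ * ‖B‖ * ‖E‖ * ‖Z‖ := by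
  obtain ⟨C, hC, h⟩ := S.eta_bound
  obtain ⟨C', hC', hbr⟩ := K.br_bound
  refine ⟨2 * C + C * C', by positivity, fun j L hL A B E Z p => ?_⟩
  have hP := db_prod_norm_nonneg L
  have h1 := h j (L ++ [A]) (by simp; omega) B E Z p
  have h3 := h j (L ++ [B]) (by simp; omega) A E Z p
  rw [db_prod_norm_snoc] at h1 h3
  have h2 : |K.ev p (K.Dl L (K.eta (S.h j) B E (K.br A Z)))| ≤
      C * C' * ((L.map norm).prod * ‖A‖ * ‖B‖ * ‖E‖ * ‖Z‖) := by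
    refine (h j L (by omega) B E (K.br A Z) p).trans ?_
    have := hbr A Z
    calc C * (L.map norm).prod * ‖B‖ * ‖E‖ * ‖K.br A Z‖
        ≤ C * (L.map norm).prod * ‖B‖ * ‖E‖ * (C' * ‖A‖ * ‖Z‖) := by gcongr
      _ = _ := by ring
  have h4 : |K.ev p (K.Dl L (K.eta (S.h j) A E (K.br B Z)))| ≤
      C * C' * ((L.map norm).prod * ‖A‖ * ‖B‖ * ‖E‖ * ‖Z‖) := by
    refine (h j L (by omega) A E (K.br B Z) p).trans ?_
    have := hbr B Z
    calc C * (L.map norm).prod * ‖A‖ * ‖E‖ * ‖K.br B Z‖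
        ≤ C * (L.map norm).prod * ‖A‖ * ‖E‖ * (C' * ‖B‖ * ‖Z‖) := by gcongr
      _ = _ := by ring
  have r1 : C * ((L.map norm).prod * ‖A‖) * ‖B‖ * ‖E‖ * ‖Z‖ =
      C * ((L.map norm).prod * ‖A‖ * ‖B‖ * ‖E‖ * ‖Z‖) := by ring
  have r3 : C * ((L.map norm).prod * ‖B‖) * ‖A‖ * ‖E‖ * ‖Z‖ =
      C * ((L.map norm).prod * ‖A‖ * ‖B‖ * ‖E‖ * ‖Z‖) := by ring
  rw [r1] at h1
  rw [r3] at h3
  have e : K.ev p (K.Dl L (K.R1 (S.h j) A B E Z)) =
      K.ev p (K.Dl (L ++ [A]) (K.eta (S.h j) B E Z))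
        - (1 / 2) * K.ev p (K.Dl L (K.eta (S.h j) B E (K.br A Z)))
        - K.ev p (K.Dl (L ++ [B]) (K.eta (S.h j) A E Z))
        + (1 / 2) * K.ev p (K.Dl L (K.eta (S.h j) A E (K.br B Z))) := by
    unfold Calc.R1
    simp only [K.db_Dl_smul, K.db_Dl_add, K.db_Dl_sub, map_smul, map_add, map_sub, smul_eq_mul, K.db_Dl_D]
  rw [e]
  have r5 : (2 * C + C * C') * (L.map norm).prod * ‖A‖ * ‖B‖ * ‖E‖ * ‖Z‖ =
      2 * (C * ((L.map norm).prod * ‖A‖ * ‖B‖ * ‖E‖ * ‖Z‖)) +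
        C * C' * ((L.map norm).prod * ‖A‖ * ‖B‖ * ‖E‖ * ‖Z‖) := by ring
  have a1 := abs_le.1 h1
  have a2 := abs_le.1 h2
  have a3 := abs_le.1 h3
  have a4 := abs_le.1 h4
  rw [r5, abs_le]
  constructor <;> linarith [a1.1, a1.2, a2.1, a2.2, a3.1, a3.2, a4.1, a4.2]

theorem bd_h (L : List 𝔤) (hL : L.length ≤ 4) (A B : 𝔤) :
    K.bd (fun j => K.Dl L (S.h j A B)) :=
  ⟨_, fun j p => S.bound j L hL A B p⟩

theorem bd_eta (L : List 𝔤) (hL : L.length ≤ 3) (A B E : 𝔤) :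
    K.bd (fun j => K.Dl L (K.eta (S.h j) A B E)) := by
  obtain ⟨C, hC, h⟩ := S.eta_bound
  exact ⟨_, fun j p => h j L hL A B E p⟩

theorem bd_Q (L : List 𝔤) (hL : L.length ≤ 2) (A B : 𝔤) :
    K.bd (fun j => K.Dl L (K.Q (S.h j) A B)) := by
  obtain ⟨C, hC, h⟩ := S.Q_bound
  exact ⟨_, fun j p => h j L hL A B p⟩

theorem bd_R1 (L : List 𝔤) (hL : L.length ≤ 2) (A B E Z : 𝔤) :
    K.bd (fun j => K.Dl L (K.R1 (S.h j) A B E Z)) := by
  obtain ⟨C, hC, h⟩ := S.R1_bound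
  exact ⟨_, fun j p => h j L hL A B E Z p⟩

end SPert

namespace SPert

variable {K : Calc P 𝔤} {𝔭 : Submodule ℝ 𝔤} (S : SPert K 𝔭)

omit [FiniteDimensional ℝ 𝔤] in
theorem nab_h_le (j : ℕ) (A B : 𝔤) (p : P) : |K.ev p (S.h j A B)| ≤ ‖A‖ * ‖B‖ := by
  have := S.bound j [] (by simp) A B p
  simpa [Calc.Dl] using this

omit [FiniteDimensional ℝ 𝔤] in
theorem nab_t_small : ∀ᶠ j in atTop, S.t j ≤ 1 / 4 := by
  have := (tendsto_order.1 S.t_lim).2 (1 / 4) (by norm_num)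
  filter_upwards [this] with j hj
  exact hj.le

omit [FiniteDimensional ℝ 𝔤] in
/-- the perturbed metric is uniformly equivalent to the base metric -/
theorem met_est : ∀ᶠ j in atTop, ∀ p u v,
    (3 / 4) * ‖u‖ ^ 2 ≤ K.ev p (K.met (S.t j) (S.h j) u u) ∧
      |K.ev p (K.met (S.t j) (S.h j) u v)| ≤ 2 * ‖u‖ * ‖v‖ := by
  filter_upwards [S.nab_t_small] with j ht p u v
  have t0 := S.t_pos j
  rw [K.nab_ev_met, K.nab_ev_met, real_inner_self_eq_norm_sq]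
  have h1 := abs_le.1 (S.nab_h_le j u u p)
  have h2 := S.nab_h_le j u v p
  constructor
  · have : -(‖u‖ * ‖u‖) * S.t j ≤ K.ev p (S.h j u u) * S.t j :=
      mul_le_mul_of_nonneg_right h1.1 t0.le
    nlinarith [mul_nonneg (norm_nonneg u) (norm_nonneg u)]
  · have h3 : |inner ℝ u v| ≤ ‖u‖ * ‖v‖ := abs_real_inner_le_norm u v
    have h4 : |S.t j * K.ev p (S.h j u v)| ≤ 1 / 4 * (‖u‖ * ‖v‖) := by
      rw [abs_mul, abs_of_pos t0]
      exact mul_le_mul ht h2 (abs_nonneg _) (by norm_num)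
    have h5 := abs_add_le (inner ℝ u v) (S.t j * K.ev p (S.h j u v))
    nlinarith [mul_nonneg (norm_nonneg u) (norm_nonneg v)]

theorem exists_nabla : ∀ᶠ j in atTop, ∀ p A B, ∃ V, K.IsNabla (K.met (S.t j) (S.h j)) p A B V := by
  filter_upwards [S.met_est] with j hj p A B
  let T : 𝔤 →ₗ[ℝ] (𝔤 →ₗ[ℝ] ℝ) := (K.met (S.t j) (S.h j)).compr₂ (K.ev p).toLinearMap
  have hT : Function.Injective T := by
    rw [injective_iff_map_eq_zero]
    intro V hV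
    have h1 : K.ev p (K.met (S.t j) (S.h j) V V) = 0 := by
      have := LinearMap.congr_fun hV V
      simpa [T] using this
    have h2 := (hj p V V).1
    rw [h1] at h2
    have h3 : ‖V‖ ^ 2 = 0 := le_antisymm (by linarith) (by positivity)
    have h4 : ‖V‖ = 0 := by simpa using h3
    simpa using h4
  have hS : Function.Surjective T :=
    (LinearMap.injective_iff_surjective_of_finrank_eq_finrank
      (by rw [Subspace.dual_finrank_eq])).1 hT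
  let φ : 𝔤 →ₗ[ℝ] ℝ :=
    { toFun := fun C => K.ev p (K.eta (K.met (S.t j) (S.h j)) A B C)
      map_add' := fun C C' => by rw [K.eta_add_right, map_add]
      map_smul' := fun c C => by rw [K.eta_smul_right, map_smul, RingHom.id_apply] }
  obtain ⟨V, hV⟩ := hS φ
  exact ⟨V, fun C => LinearMap.congr_fun hV C⟩

theorem nabla_est : ∃ C : ℝ, 0 < C ∧ ∀ᶠ j in atTop, ∀ p A B V E,
    K.IsNabla (K.met (S.t j) (S.h j)) p A B V → K.IsEta (S.h j) p A B E →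
    ‖V‖ ≤ C * ‖A‖ * ‖B‖ ∧ ‖E‖ ≤ C * ‖A‖ * ‖B‖ ∧
      ‖V - (1 / 2 : ℝ) • K.br A B - S.t j • E‖ ≤ S.t j * ‖V‖ := by
  obtain ⟨C₀, hC₀, hη⟩ := S.eta_bound
  obtain ⟨C₁, hC₁, hbr⟩ := K.br_bound
  refine ⟨C₀ + C₁, by positivity, ?_⟩
  filter_upwards [S.nab_t_small] with j ht p A B V E hV hE
  have t0 := S.t_pos j
  have hAB : 0 ≤ ‖A‖ * ‖B‖ := mul_nonneg (norm_nonneg _) (norm_nonneg _)
  have e1 : ‖E‖ ≤ C₀ * (‖A‖ * ‖B‖) := by
    have h1 := hE E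
    rw [real_inner_self_eq_norm_sq] at h1
    have h2 := hη j [] (by simp) A B E p
    simp only [Calc.Dl, List.foldr_nil, List.map_nil, List.prod_nil, mul_one] at h2
    rw [← h1, abs_of_nonneg (by positivity)] at h2
    rcases (norm_nonneg E).eq_or_lt with h0 | h0
    · rw [← h0]; positivity
    · have h3 : ‖E‖ * ‖E‖ ≤ (C₀ * (‖A‖ * ‖B‖)) * ‖E‖ := by nlinarith
      exact le_of_mul_le_mul_right h3 h0
  set R : 𝔤 := V - (1 / 2 : ℝ) • K.br A B - S.t j • E with hR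
  have e2 : ‖R‖ ≤ S.t j * ‖V‖ := by
    have h1 := hV R
    rw [K.nab_ev_met, K.nab_ev_eta_met, ← hE R] at h1
    have h2 : inner ℝ R R = - (S.t j * K.ev p (S.h j V R)) := by
      have : inner ℝ R R = inner ℝ V R - (1 / 2) * inner ℝ (K.br A B) R - S.t j * inner ℝ E R := by
        conv_lhs => rw [hR]
        rw [inner_sub_left, inner_sub_left, real_inner_smul_left, real_inner_smul_left]
      rw [this]
      linarith
    rw [real_inner_self_eq_norm_sq] at h2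
    have h3 := abs_le.1 (S.nab_h_le j V R p)
    rcases (norm_nonneg R).eq_or_lt with h0 | h0
    · rw [← h0]; positivity
    · have h4 : ‖R‖ * ‖R‖ ≤ (S.t j * ‖V‖) * ‖R‖ := by
        have h5 : -(‖V‖ * ‖R‖) * S.t j ≤ K.ev p (S.h j V R) * S.t j :=
          mul_le_mul_of_nonneg_right h3.1 t0.le
        nlinarith
      exact le_of_mul_le_mul_right h4 h0
  have e3 : ‖V‖ ≤ ‖R‖ + (1 / 2) * ‖K.br A B‖ + S.t j * ‖E‖ := by
    have h1 : V = R + (1 / 2 : ℝ) • K.br A B + S.t j • E := by rw [hR]; module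
    calc ‖V‖ = ‖R + (1 / 2 : ℝ) • K.br A B + S.t j • E‖ := by rw [← h1]
      _ ≤ ‖R‖ + ‖(1 / 2 : ℝ) • K.br A B‖ + ‖S.t j • E‖ := norm_add₃_le
      _ = _ := by
        rw [norm_smul, norm_smul, Real.norm_eq_abs, Real.norm_eq_abs, abs_of_pos t0,
          abs_of_pos (by norm_num : (0 : ℝ) < 1 / 2)]
  have e4 := hbr A B
  have e5 : S.t j * ‖V‖ ≤ 1 / 4 * ‖V‖ := mul_le_mul_of_nonneg_right ht (norm_nonneg _)
  have e6 : S.t j * ‖E‖ ≤ 1 / 4 * ‖E‖ := mul_le_mul_of_nonneg_right ht (norm_nonneg _)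
  have e7 : 0 ≤ C₁ * (‖A‖ * ‖B‖) := by positivity
  have e8 : 0 ≤ C₀ * (‖A‖ * ‖B‖) := by positivity
  refine ⟨?_, ?_, e2⟩
  · nlinarith
  · nlinarith

omit [FiniteDimensional ℝ 𝔤] in
theorem nab_gram_nonneg {G : 𝔤 →ₗ[ℝ] 𝔤 →ₗ[ℝ] K.𝒜} {p : P} (hs : ∀ A B, G A B = G B A)
    (hp : ∀ u, (3 / 4) * ‖u‖ ^ 2 ≤ K.ev p (G u u)) (A B : 𝔤) (hB : B ≠ 0) :
    0 ≤ K.gram G p A B := by
  have hBB : 0 < K.ev p (G B B) := by
    have := hp B
    have h1 : 0 < ‖B‖ := norm_pos_iff.2 hB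
    nlinarith [pow_pos h1 2]
  set a := K.ev p (G A A)
  set b := K.ev p (G B B)
  set c := K.ev p (G A B)
  have h1 : K.ev p (G (b • A - c • B) (b • A - c • B)) = b * (a * b - c ^ 2) := by
    simp only [map_sub, map_smul, LinearMap.sub_apply, LinearMap.smul_apply, smul_eq_mul,
      hs B A]
    change b * (b * a - c * c) - c * (b * c - c * b) = _
    ring
  have h2 : 0 ≤ b * (a * b - c ^ 2) := by
    rw [← h1]
    exact (by positivity : (0 : ℝ) ≤ (3 / 4) * ‖b • A - c • B‖ ^ 2).trans (hp _)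
  change 0 ≤ a * b - c ^ 2
  exact nonneg_of_mul_nonneg_right h2 hBB

theorem Q_low : ∃ C : ℝ, 0 < C ∧ ∀ᶠ j in atTop, ∀ p A B, A ∈ 𝔭 → B ∈ 𝔭 →
    LinearIndependent ℝ ![A, B] → K.br A B = 0 →
    - (C * S.t j * ‖A‖ ^ 2 * ‖B‖ ^ 2) ≤ K.ev p (K.Q (S.h j) A B) := by
  obtain ⟨C, hC, hN⟩ := S.nabla_est
  refine ⟨16 * C ^ 2, by positivity, ?_⟩
  filter_upwards [hN, S.exists_nabla, S.met_est, S.nab_t_small] with j hN hE hM ht p A B hpA hpB hLI hAB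
  have t0 := S.t_pos j
  obtain ⟨VAA, hAA⟩ := hE p A A
  obtain ⟨VAB, hAB'⟩ := hE p A B
  obtain ⟨VBA, hBA'⟩ := hE p B A
  obtain ⟨VBB, hBB⟩ := hE p B B
  have key : ∀ X Y V, K.br X Y = 0 → K.IsNabla (K.met (S.t j) (S.h j)) p X Y V →
      ‖V‖ ≤ 2 * S.t j * C * ‖X‖ * ‖Y‖ := by
    intro X Y V hXY hV
    obtain ⟨E, hE⟩ := K.exists_eta (S.h j) p X Y
    obtain ⟨h1, h2, h3⟩ := hN p X Y V E hV hE
    rw [hXY, smul_zero, sub_zero] at h3
    have h4 : ‖V‖ ≤ ‖V - S.t j • E‖ + ‖S.t j • E‖ := by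
      calc ‖V‖ = ‖(V - S.t j • E) + S.t j • E‖ := by rw [sub_add_cancel]
        _ ≤ _ := norm_add_le _ _
    rw [norm_smul, Real.norm_eq_abs, abs_of_pos t0] at h4
    have h5 : S.t j * ‖V‖ ≤ S.t j * (C * ‖X‖ * ‖Y‖) := mul_le_mul_of_nonneg_left h1 t0.le
    have h6 : S.t j * ‖E‖ ≤ S.t j * (C * ‖X‖ * ‖Y‖) := mul_le_mul_of_nonneg_left h2 t0.le
    nlinarith
  have hBA : K.br B A = 0 := by rw [K.br_anti, hAB, neg_zero]
  have kAA := key A A VAA (K.br_self A) hAA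
  have kAB := key A B VAB hAB hAB'
  have kBA := key B A VBA hBA hBA'
  have kBB := key B B VBB (K.br_self B) hBB
  have hpos := S.pos j p A B hpA hpB hLI VAA VAB VBA VBB hAA hAB' hBA' hBB
  rw [hAB, norm_zero] at hpos
  norm_num at hpos
  have hB0 : B ≠ 0 := by
    have := hLI.ne_zero 1
    simpa using this
  have hsym : ∀ X Y, K.met (S.t j) (S.h j) X Y = K.met (S.t j) (S.h j) Y X := by
    intro X Y
    apply K.ext_ev
    intro q
    rw [K.nab_ev_met, K.nab_ev_met, real_inner_comm, S.symm]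
  have hgram := nab_gram_nonneg (K := K) hsym (fun u => (hM p u u).1) A B hB0
  have hnum : 0 < K.num (K.met (S.t j) (S.h j)) p A B VAA VAB VBA VBB := by
    refine lt_of_le_of_lt ?_ hpos
    have := S.ε_pos
    positivity
  have g1 := abs_le.1 (hM p VBB VAA).2
  have g2 := abs_le.1 (hM p VAB VBA).2
  have n1 : ‖VBB‖ * ‖VAA‖ ≤ (2 * S.t j * C * ‖B‖ * ‖B‖) * (2 * S.t j * C * ‖A‖ * ‖A‖) :=
    mul_le_mul kBB kAA (norm_nonneg _) (by positivity)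
  have n2 : ‖VAB‖ * ‖VBA‖ ≤ (2 * S.t j * C * ‖A‖ * ‖B‖) * (2 * S.t j * C * ‖B‖ * ‖A‖) :=
    mul_le_mul kAB kBA (norm_nonneg _) (by positivity)
  have hQ : K.num (K.met (S.t j) (S.h j)) p A B VAA VAB VBA VBB =
      S.t j * K.ev p (K.Q (S.h j) A B) - K.ev p (K.met (S.t j) (S.h j) VBB VAA)
        + K.ev p (K.met (S.t j) (S.h j) VAB VBA) := by
    simp only [Calc.num, Calc.Q, K.eta_met, map_add, map_sub, map_smul, K.D_algebraMap, hAB,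
      K.eta_zero_left, LinearMap.zero_apply, smul_eq_mul, map_zero, inner_zero_left, mul_zero,
      add_zero, zero_add, smul_zero]
    ring
  rw [hQ] at hnum
  have fin : 0 < S.t j * (K.ev p (K.Q (S.h j) A B) + 16 * C ^ 2 * S.t j * ‖A‖ ^ 2 * ‖B‖ ^ 2) := by
    nlinarith
  have := (mul_pos_iff_of_pos_left t0).1 fin
  linarith

end SPert

namespace SPert

variable {K : Calc P 𝔤} {𝔭 : Submodule ℝ 𝔤} (S : SPert K 𝔭)

theorem num_expA (M : ℝ) : ∃ C : ℝ, 0 < C ∧ ∀ᶠ j in atTop, ∀ p u v, ‖u‖ ≤ M → ‖v‖ ≤ M →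
    ‖K.br u v‖ ≤ M * S.t j → ∀ Vuu Vuv Vvu Vvv Euu Euv Evu Evv,
    K.IsNabla (K.met (S.t j) (S.h j)) p u u Vuu → K.IsNabla (K.met (S.t j) (S.h j)) p u v Vuv →
    K.IsNabla (K.met (S.t j) (S.h j)) p v u Vvu → K.IsNabla (K.met (S.t j) (S.h j)) p v v Vvv →
    K.IsEta (S.h j) p u u Euu → K.IsEta (S.h j) p u v Euv → K.IsEta (S.h j) p v u Evu →
    K.IsEta (S.h j) p v v Evv →
    |K.num (K.met (S.t j) (S.h j)) p u v Vuu Vuv Vvu Vvv -
      (S.t j * (K.ev p (K.D u (K.eta (S.h j) v v u)) - K.ev p (K.D v (K.eta (S.h j) u v u))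
          - K.ev p (K.eta (S.h j) (K.br u v) v u))
        + (1 / 4) * ‖K.br u v‖ ^ 2
        + S.t j ^ 2 * (inner ℝ Euv Evu - inner ℝ Evv Euu))| ≤ C * S.t j ^ 3 := by
  obtain ⟨C0, hC0, hest⟩ := S.nabla_est
  refine ⟨2 * (C0 * M ^ 2) ^ 2 + (|M| / 2 + C0 * M ^ 2) * (2 * (C0 * M ^ 2) + |M| / 2)
    + M ^ 2 / 2 + 1, by positivity, ?_⟩
  have ht1 : ∀ᶠ j in atTop, S.t j ≤ 1 := by
    filter_upwards [(tendsto_order.1 S.t_lim).2 1 one_pos] with j hj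
    exact hj.le
  filter_upwards [hest, ht1] with j hj hle p u v hu hv hw Vuu Vuv Vvu Vvv Euu Euv Evu Evv
    nuu nuv nvu nvv euu euv evu evv
  have hM : 0 ≤ M := (norm_nonneg u).trans hu
  have ht : 0 < S.t j := S.t_pos j
  rw [K.expA_num (S.t j) (S.h j) (S.symm j) p u v Vuu Vuv Vvu Vvv Euu Euv Evu Evv
    nuv nvv euv evu evv, abs_of_nonneg hM]
  obtain ⟨v1, e1, d1⟩ := hj p u u Vuu Euu nuu euu
  obtain ⟨v2, e2, d2⟩ := hj p u v Vuv Euv nuv euv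
  obtain ⟨v3, e3, d3⟩ := hj p v u Vvu Evu nvu evu
  obtain ⟨v4, e4, d4⟩ := hj p v v Vvv Evv nvv evv
  set t := S.t j with htdef
  set a := Vuu - (1 / 2 : ℝ) • K.br u u - t • Euu with ha
  set b := Vvu - (1 / 2 : ℝ) • K.br v u - t • Evu with hb
  set w := K.br u v with hwdef
  set k := C0 * M ^ 2 with hk
  have hk0 : 0 ≤ k := by positivity
  have q : ∀ {x y : 𝔤}, ‖x‖ ≤ M → ‖y‖ ≤ M → C0 * ‖x‖ * ‖y‖ ≤ k := by
    intro x y hx hy
    have : ‖x‖ * ‖y‖ ≤ M * M := mul_le_mul hx hy (norm_nonneg _) hM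
    calc C0 * ‖x‖ * ‖y‖ = C0 * (‖x‖ * ‖y‖) := by ring
      _ ≤ C0 * (M * M) := mul_le_mul_of_nonneg_left this hC0.le
      _ = k := by rw [hk]; ring
  have nVuu : ‖Vuu‖ ≤ k := v1.trans (q hu hu)
  have nEuu : ‖Euu‖ ≤ k := e1.trans (q hu hu)
  have nEuv : ‖Euv‖ ≤ k := e2.trans (q hu hv)
  have nVvu : ‖Vvu‖ ≤ k := v3.trans (q hv hu)
  have nEvu : ‖Evu‖ ≤ k := e3.trans (q hv hu)
  have nEvv : ‖Evv‖ ≤ k := e4.trans (q hv hv)
  have nVuu2 : ‖Vuu‖ ≤ 2 * k * t := by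
    have e : Vuu = a + t • Euu := by
      rw [ha, K.br_self]; simp
    have n1 : ‖t • Euu‖ ≤ t * k := by
      rw [norm_smul, Real.norm_of_nonneg ht.le]
      exact mul_le_mul_of_nonneg_left nEuu ht.le
    have n2 : ‖a‖ ≤ t * k := d1.trans (mul_le_mul_of_nonneg_left nVuu ht.le)
    calc ‖Vuu‖ = ‖a + t • Euu‖ := by rw [← e]
      _ ≤ ‖a‖ + ‖t • Euu‖ := norm_add_le _ _
      _ ≤ 2 * k * t := by linarith
  have na : ‖a‖ ≤ 2 * k * t ^ 2 := by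
    calc ‖a‖ ≤ t * ‖Vuu‖ := d1
      _ ≤ t * (2 * k * t) := mul_le_mul_of_nonneg_left nVuu2 ht.le
      _ = 2 * k * t ^ 2 := by ring
  have nVvu2 : ‖Vvu‖ ≤ (2 * k + M / 2) * t := by
    have e : Vvu = b - (1 / 2 : ℝ) • w + t • Evu := by
      rw [hb, K.br_anti v u]
      simp only [smul_neg, sub_neg_eq_add]
      abel
    have n1 : ‖t • Evu‖ ≤ t * k := by
      rw [norm_smul, Real.norm_of_nonneg ht.le]
      exact mul_le_mul_of_nonneg_left nEvu ht.le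
    have n2 : ‖b‖ ≤ t * k := d3.trans (mul_le_mul_of_nonneg_left nVvu ht.le)
    have n3 : ‖(1 / 2 : ℝ) • w‖ ≤ (1 / 2) * (M * t) := by
      rw [norm_smul, Real.norm_of_nonneg (by norm_num)]
      exact mul_le_mul_of_nonneg_left hw (by norm_num)
    calc ‖Vvu‖ = ‖b - (1 / 2 : ℝ) • w + t • Evu‖ := by rw [← e]
      _ ≤ ‖b - (1 / 2 : ℝ) • w‖ + ‖t • Evu‖ := norm_add_le _ _
      _ ≤ ‖b‖ + ‖(1 / 2 : ℝ) • w‖ + ‖t • Evu‖ := by
          have := norm_sub_le b ((1 / 2 : ℝ) • w)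
          linarith
      _ ≤ (2 * k + M / 2) * t := by linarith
  have nb : ‖b‖ ≤ (2 * k + M / 2) * t ^ 2 := by
    calc ‖b‖ ≤ t * ‖Vvu‖ := d3
      _ ≤ t * ((2 * k + M / 2) * t) := mul_le_mul_of_nonneg_left nVvu2 ht.le
      _ = (2 * k + M / 2) * t ^ 2 := by ring
  have i1 : |(inner ℝ Evv a : ℝ)| ≤ k * (2 * k * t ^ 2) :=
    (abs_real_inner_le_norm _ _).trans (mul_le_mul nEvv na (norm_nonneg _) hk0)
  have i2 : |(inner ℝ w b : ℝ)| ≤ (M * t) * ((2 * k + M / 2) * t ^ 2) :=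
    (abs_real_inner_le_norm _ _).trans (mul_le_mul hw nb (norm_nonneg _) (by positivity))
  have i3 : |(inner ℝ Euv b : ℝ)| ≤ k * ((2 * k + M / 2) * t ^ 2) :=
    (abs_real_inner_le_norm _ _).trans (mul_le_mul nEuv nb (norm_nonneg _) hk0)
  have i4 : |K.ev p (S.h j w w)| ≤ (M * t) * (M * t) := by
    have := S.bound j [] (by simp) w w p
    simp only [Calc.Dl, List.foldr_nil, List.map_nil, List.prod_nil, one_mul] at this
    exact this.trans (mul_le_mul hw hw (norm_nonneg _) (by positivity))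
  have j1 : |-t * (inner ℝ Evv a : ℝ)| ≤ t * (k * (2 * k * t ^ 2)) := by
    rw [abs_mul, abs_neg, abs_of_pos ht]
    exact mul_le_mul_of_nonneg_left i1 ht.le
  have j2 : |(1 / 2) * (inner ℝ w b : ℝ)| ≤ (1 / 2) * ((M * t) * ((2 * k + M / 2) * t ^ 2)) := by
    rw [abs_mul, abs_of_pos (by norm_num : (0:ℝ) < 1 / 2)]
    exact mul_le_mul_of_nonneg_left i2 (by norm_num)
  have j3 : |t * (inner ℝ Euv b : ℝ)| ≤ t * (k * ((2 * k + M / 2) * t ^ 2)) := by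
    rw [abs_mul, abs_of_pos ht]
    exact mul_le_mul_of_nonneg_left i3 ht.le
  have j4 : |(t / 2) * K.ev p (S.h j w w)| ≤ (t / 2) * ((M * t) * (M * t)) := by
    rw [abs_mul, abs_of_pos (by positivity)]
    exact mul_le_mul_of_nonneg_left i4 (by positivity)
  have s1 := abs_sub (-t * (inner ℝ Evv a : ℝ) + (1 / 2) * (inner ℝ w b : ℝ)
    + t * (inner ℝ Euv b : ℝ)) ((t / 2) * K.ev p (S.h j w w))
  have s2 := abs_add_le (-t * (inner ℝ Evv a : ℝ) + (1 / 2) * (inner ℝ w b : ℝ))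
    (t * (inner ℝ Euv b : ℝ))
  have s3 := abs_add_le (-t * (inner ℝ Evv a : ℝ)) ((1 / 2) * (inner ℝ w b : ℝ))
  have fin : t * (k * (2 * k * t ^ 2)) + (1 / 2) * ((M * t) * ((2 * k + M / 2) * t ^ 2))
      + t * (k * ((2 * k + M / 2) * t ^ 2)) + (t / 2) * ((M * t) * (M * t))
      ≤ (2 * k ^ 2 + (M / 2 + k) * (2 * k + M / 2) + M ^ 2 / 2 + 1) * t ^ 3 := by
    have : 0 ≤ t ^ 3 := by positivity
    nlinarith
  linarith

end SPert

namespace SExpB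

variable {K : Calc P 𝔤} {𝔭 : Submodule ℝ 𝔤} (S : SPert K 𝔭)

theorem eta0 {Cη : ℝ} (Hη : ∀ j (L : List 𝔤), L.length ≤ 3 → ∀ A B E p,
    |K.ev p (K.Dl L (K.eta (S.h j) A B E))| ≤ Cη * (L.map norm).prod * ‖A‖ * ‖B‖ * ‖E‖)
    (j : ℕ) (p : P) (A B E : 𝔤) :
    |K.ev p (K.eta (S.h j) A B E)| ≤ Cη * ‖A‖ * ‖B‖ * ‖E‖ := by
  have := Hη j [] (by simp) A B E p
  simpa [Calc.Dl] using this

theorem eta1 {Cη : ℝ} (Hη : ∀ j (L : List 𝔤), L.length ≤ 3 → ∀ A B E p,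
    |K.ev p (K.Dl L (K.eta (S.h j) A B E))| ≤ Cη * (L.map norm).prod * ‖A‖ * ‖B‖ * ‖E‖)
    (j : ℕ) (p : P) (D A B E : 𝔤) :
    |K.ev p (K.D D (K.eta (S.h j) A B E))| ≤ Cη * ‖D‖ * ‖A‖ * ‖B‖ * ‖E‖ := by
  have := Hη j [D] (by simp) A B E p
  simpa [Calc.Dl] using this

theorem E_norm {Cη : ℝ} (hη : ∀ (j : ℕ) (p : P) (A B E : 𝔤),
    |K.ev p (K.eta (S.h j) A B E)| ≤ Cη * ‖A‖ * ‖B‖ * ‖E‖) (hC0 : 0 ≤ Cη)
    (j : ℕ) (p : P) (A B E : 𝔤) (hE : K.IsEta (S.h j) p A B E) : ‖E‖ ≤ Cη * ‖A‖ * ‖B‖ := by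
  by_contra hcon
  push Not at hcon
  have h1 := hE E
  have h2 := (le_abs_self _).trans (hη j p A B E)
  rw [← h1, real_inner_self_eq_norm_sq] at h2
  have h3 : 0 ≤ Cη * ‖A‖ * ‖B‖ := by positivity
  nlinarith

/-- difference of two representing vectors -/
theorem E_diff {Cη : ℝ} (hη : ∀ (j : ℕ) (p : P) (A B E : 𝔤),
    |K.ev p (K.eta (S.h j) A B E)| ≤ Cη * ‖A‖ * ‖B‖ * ‖E‖) (hC0 : 0 ≤ Cη)
    (j : ℕ) (p : P) (A B A' B' E E' : 𝔤) (t N : ℝ) (ht : 0 ≤ t) (ht1 : t ≤ 1)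
    (hA : ‖A‖ ≤ N) (hB : ‖B‖ ≤ N) (hA' : ‖A'‖ ≤ N) (hB' : ‖B'‖ ≤ N)
    (hE : K.IsEta (S.h j) p A B E) (hE' : K.IsEta (S.h j) p (A + t • A') (B + t • B') E') :
    ‖E' - E‖ ≤ 3 * Cη * N ^ 2 * t := by
  have hN : 0 ≤ N := (norm_nonneg _).trans hA
  have hb : ∀ x y z : 𝔤, ‖x‖ ≤ N → ‖y‖ ≤ N → |K.ev p (K.eta (S.h j) x y z)| ≤ Cη * N ^ 2 * ‖z‖ := by
    intro x y z hx hy
    calc _ ≤ Cη * ‖x‖ * ‖y‖ * ‖z‖ := hη j p x y z
      _ ≤ Cη * N * N * ‖z‖ := by gcongr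
      _ = _ := by ring
  set Z := E' - E with hZ
  have h1 : inner ℝ Z Z = t * K.ev p (K.eta (S.h j) A' B Z) + t * K.ev p (K.eta (S.h j) A B' Z)
      + t * (t * K.ev p (K.eta (S.h j) A' B' Z)) := by
    have e1 : inner ℝ Z Z = inner ℝ E' Z - inner ℝ E Z := by
      conv_lhs => rw [hZ, inner_sub_left]
    rw [e1, hE Z, hE' Z]
    simp only [K.eta_add_left, K.eta_add_mid, K.eta_smul_left, K.eta_smul_mid, map_add, map_smul,
      smul_eq_mul]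
    ring
  have k1 := abs_le.1 (hb A' B Z hA' hB)
  have k2 := abs_le.1 (hb A B' Z hA hB')
  have k3 := abs_le.1 (hb A' B' Z hA' hB')
  rw [real_inner_self_eq_norm_sq] at h1
  have h4 : ‖Z‖ ^ 2 ≤ t * (3 * (Cη * N ^ 2 * ‖Z‖)) := by
    have k0 : 0 ≤ Cη * N ^ 2 * ‖Z‖ := by positivity
    have k4 : t * K.ev p (K.eta (S.h j) A' B' Z) ≤ Cη * N ^ 2 * ‖Z‖ := by
      calc t * K.ev p (K.eta (S.h j) A' B' Z) ≤ t * (Cη * N ^ 2 * ‖Z‖) :=
            mul_le_mul_of_nonneg_left k3.2 ht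
        _ ≤ 1 * (Cη * N ^ 2 * ‖Z‖) := mul_le_mul_of_nonneg_right ht1 k0
        _ = _ := one_mul _
    have := mul_le_mul_of_nonneg_left (add_le_add (add_le_add k1.2 k2.2) k4) ht
    linarith
  by_contra hcon
  push Not at hcon
  have h5 : 0 ≤ 3 * Cη * N ^ 2 * t := by positivity
  have h6 : 0 < ‖Z‖ := lt_of_le_of_lt h5 hcon
  nlinarith

theorem inner_diff (a a' b b' : 𝔤) (x y δ : ℝ) (ha : ‖a‖ ≤ x) (hb' : ‖b'‖ ≤ y)
    (hda : ‖a' - a‖ ≤ δ) (hdb : ‖b' - b‖ ≤ δ) :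
    |inner ℝ a' b' - inner ℝ a b| ≤ (x + y) * δ := by
  have e : inner ℝ a' b' - inner ℝ a b = inner ℝ (a' - a) b' + inner ℝ a (b' - b) := by
    rw [inner_sub_left, inner_sub_right]; ring
  have hx : 0 ≤ x := (norm_nonneg _).trans ha
  have hδ : 0 ≤ δ := (norm_nonneg _).trans hda
  rw [e]
  calc _ ≤ |inner ℝ (a' - a) b'| + |inner ℝ a (b' - b)| := abs_add_le _ _
    _ ≤ ‖a' - a‖ * ‖b'‖ + ‖a‖ * ‖b' - b‖ :=
        add_le_add (abs_real_inner_le_norm _ _) (abs_real_inner_le_norm _ _)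
    _ ≤ δ * y + x * δ := by gcongr
    _ = _ := by ring

/-- part (a) : the `D η` terms -/
theorem partA {Cη : ℝ} (hC0 : 0 ≤ Cη) (hη : ∀ (j : ℕ) (p : P) (A B E : 𝔤),
    |K.ev p (K.eta (S.h j) A B E)| ≤ Cη * ‖A‖ * ‖B‖ * ‖E‖)
    (hη1 : ∀ (j : ℕ) (p : P) (D A B E : 𝔤),
    |K.ev p (K.D D (K.eta (S.h j) A B E))| ≤ Cη * ‖D‖ * ‖A‖ * ‖B‖ * ‖E‖)
    (X Y : 𝔤) (hXY : K.br X Y = 0)
    (j : ℕ) (p : P) (U V : 𝔤) (t N W : ℝ) (ht : 0 ≤ t) (ht1 : t ≤ 1)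
    (hX : ‖X‖ ≤ N) (hY : ‖Y‖ ≤ N) (hU : ‖U‖ ≤ N) (hV : ‖V‖ ≤ N)
    (hW1 : ‖K.br X V + K.br U Y‖ ≤ W) (hW2 : ‖K.br U V‖ ≤ W) :
    |(K.ev p (K.D (X + t • U) (K.eta (S.h j) (Y + t • V) (Y + t • V) (X + t • U)))
      - K.ev p (K.D (Y + t • V) (K.eta (S.h j) (X + t • U) (Y + t • V) (X + t • U)))
      - K.ev p (K.eta (S.h j) (t • (K.br X V + K.br U Y) + t ^ 2 • K.br U V) (Y + t • V)
        (X + t • U)))
      - (K.ev p (K.Q (S.h j) X Y)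
        + t * (2 * K.ev p (K.R1 (S.h j) X Y Y U) + 2 * K.ev p (K.R1 (S.h j) Y X X V)))| ≤
      (22 * Cη * N ^ 4 + 7 * Cη * W * N ^ 2) * t ^ 2 := by
  have hN : 0 ≤ N := (norm_nonneg _).trans hX
  have hW : 0 ≤ W := (norm_nonneg _).trans hW1
  have m1 := multi4 (fun a b c d => K.ev p (K.D a (K.eta (S.h j) b c d))) Cη
    (fun a a' b c d s => by
      simp only [map_add, map_smul, LinearMap.add_apply, LinearMap.smul_apply, smul_eq_mul])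
    (fun a b b' c d s => by
      simp only [K.eta_add_left, K.eta_smul_left, map_add, map_smul, smul_eq_mul])
    (fun a b c c' d s => by
      simp only [K.eta_add_mid, K.eta_smul_mid, map_add, map_smul, smul_eq_mul])
    (fun a b c d d' s => by
      simp only [K.eta_add_right, K.eta_smul_right, map_add, map_smul, smul_eq_mul])
    (fun a b c d => hη1 j p a b c d) hC0 X Y Y X U V V U N t ht ht1 hX hY hY hX hU hV hV hU
  have m2 := multi4 (fun a b c d => K.ev p (K.D a (K.eta (S.h j) b c d))) Cη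
    (fun a a' b c d s => by
      simp only [map_add, map_smul, LinearMap.add_apply, LinearMap.smul_apply, smul_eq_mul])
    (fun a b b' c d s => by
      simp only [K.eta_add_left, K.eta_smul_left, map_add, map_smul, smul_eq_mul])
    (fun a b c c' d s => by
      simp only [K.eta_add_mid, K.eta_smul_mid, map_add, map_smul, smul_eq_mul])
    (fun a b c d d' s => by
      simp only [K.eta_add_right, K.eta_smul_right, map_add, map_smul, smul_eq_mul])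
    (fun a b c d => hη1 j p a b c d) hC0 Y X Y X V U V U N t ht ht1 hY hX hY hX hV hU hV hU
  have i1 := congrArg (K.ev p) (K.id1 (S.h j) (S.symm j) X Y U hXY)
  have i2 := congrArg (K.ev p) (K.id2 (S.h j) (S.symm j) X Y V hXY)
  simp only [map_add, map_sub, map_smul, smul_eq_mul] at i1 i2
  set w1 := K.br X V + K.br U Y with hw1
  set w2 := K.br U V with hw2
  have e3 : K.ev p (K.eta (S.h j) (t • w1 + t ^ 2 • w2) (Y + t • V) (X + t • U)) =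
      t * K.ev p (K.eta (S.h j) w1 Y X) + t ^ 2 * (K.ev p (K.eta (S.h j) w1 V X)
        + K.ev p (K.eta (S.h j) w1 (Y + t • V) U)
        + K.ev p (K.eta (S.h j) w2 (Y + t • V) (X + t • U))) := by
    rw [K.eta_add_left, K.eta_smul_left, K.eta_smul_left, map_add, map_smul, map_smul,
      K.eta_add_right (S.h j) w1, K.eta_smul_right (S.h j) w1, K.eta_add_mid (S.h j) w1 Y (t • V) X,
      K.eta_smul_mid (S.h j) w1 V X]
    simp only [map_add, map_smul, smul_eq_mul]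
    ring
  have e4 : K.ev p (K.eta (S.h j) w1 Y X) = K.ev p (K.eta (S.h j) (K.br X V) Y X)
      + K.ev p (K.eta (S.h j) (K.br U Y) Y X) := by
    rw [hw1, K.eta_add_left, map_add]
  have hQ : K.ev p (K.Q (S.h j) X Y) = K.ev p (K.D X (K.eta (S.h j) Y Y X))
      - K.ev p (K.D Y (K.eta (S.h j) X Y X)) := by
    simp only [Calc.Q, map_sub]
  have hv : ‖Y + t • V‖ ≤ 2 * N := by
    calc ‖Y + t • V‖ ≤ ‖Y‖ + ‖t • V‖ := norm_add_le _ _
      _ = ‖Y‖ + t * ‖V‖ := by rw [norm_smul, Real.norm_eq_abs, abs_of_nonneg ht]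
      _ ≤ N + 1 * N := by gcongr
      _ = _ := by ring
  have hu : ‖X + t • U‖ ≤ 2 * N := by
    calc ‖X + t • U‖ ≤ ‖X‖ + ‖t • U‖ := norm_add_le _ _
      _ = ‖X‖ + t * ‖U‖ := by rw [norm_smul, Real.norm_eq_abs, abs_of_nonneg ht]
      _ ≤ N + 1 * N := by gcongr
      _ = _ := by ring
  have r1 : |K.ev p (K.eta (S.h j) w1 V X)| ≤ Cη * W * N ^ 2 := by
    calc _ ≤ Cη * ‖w1‖ * ‖V‖ * ‖X‖ := hη j p w1 V X
      _ ≤ Cη * W * N * N := by gcongr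
      _ = _ := by ring
  have r2 : |K.ev p (K.eta (S.h j) w1 (Y + t • V) U)| ≤ 2 * (Cη * W * N ^ 2) := by
    calc _ ≤ Cη * ‖w1‖ * ‖Y + t • V‖ * ‖U‖ := hη j p _ _ _
      _ ≤ Cη * W * (2 * N) * N := by gcongr
      _ = _ := by ring
  have r3 : |K.ev p (K.eta (S.h j) w2 (Y + t • V) (X + t • U))| ≤ 4 * (Cη * W * N ^ 2) := by
    calc _ ≤ Cη * ‖w2‖ * ‖Y + t • V‖ * ‖X + t • U‖ := hη j p _ _ _
      _ ≤ Cη * W * (2 * N) * (2 * N) := by gcongr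
      _ = _ := by ring
  have r4 : |t ^ 2 * (K.ev p (K.eta (S.h j) w1 V X)
        + K.ev p (K.eta (S.h j) w1 (Y + t • V) U)
        + K.ev p (K.eta (S.h j) w2 (Y + t • V) (X + t • U)))| ≤
      7 * (Cη * W * N ^ 2) * t ^ 2 := by
    rw [abs_mul, abs_of_nonneg (by positivity : (0:ℝ) ≤ t ^ 2), mul_comm]
    refine mul_le_mul_of_nonneg_right ?_ (by positivity)
    refine (abs_add_le _ _).trans ?_
    have := abs_add_le (K.ev p (K.eta (S.h j) w1 V X)) (K.ev p (K.eta (S.h j) w1 (Y + t • V) U))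
    linarith
  have key : (K.ev p (K.D (X + t • U) (K.eta (S.h j) (Y + t • V) (Y + t • V) (X + t • U)))
      - K.ev p (K.D (Y + t • V) (K.eta (S.h j) (X + t • U) (Y + t • V) (X + t • U)))
      - K.ev p (K.eta (S.h j) (t • w1 + t ^ 2 • w2) (Y + t • V) (X + t • U)))
      - (K.ev p (K.Q (S.h j) X Y)
        + t * (2 * K.ev p (K.R1 (S.h j) X Y Y U) + 2 * K.ev p (K.R1 (S.h j) Y X X V))) =
      (K.ev p (K.D (X + t • U) (K.eta (S.h j) (Y + t • V) (Y + t • V) (X + t • U))) -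
      (K.ev p (K.D X (K.eta (S.h j) Y Y X)) + t * (K.ev p (K.D U (K.eta (S.h j) Y Y X))
        + K.ev p (K.D X (K.eta (S.h j) V Y X)) + K.ev p (K.D X (K.eta (S.h j) Y V X))
        + K.ev p (K.D X (K.eta (S.h j) Y Y U)))))
      - (K.ev p (K.D (Y + t • V) (K.eta (S.h j) (X + t • U) (Y + t • V) (X + t • U))) -
      (K.ev p (K.D Y (K.eta (S.h j) X Y X)) + t * (K.ev p (K.D V (K.eta (S.h j) X Y X))
        + K.ev p (K.D Y (K.eta (S.h j) U Y X)) + K.ev p (K.D Y (K.eta (S.h j) X V X))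
        + K.ev p (K.D Y (K.eta (S.h j) X Y U)))))
      - t ^ 2 * (K.ev p (K.eta (S.h j) w1 V X)
        + K.ev p (K.eta (S.h j) w1 (Y + t • V) U)
        + K.ev p (K.eta (S.h j) w2 (Y + t • V) (X + t • U))) := by
    rw [e3, hQ, e4]
    linear_combination t * i1 + t * i2
  rw [key]
  have n1 := abs_sub (K.ev p (K.D (X + t • U) (K.eta (S.h j) (Y + t • V) (Y + t • V) (X + t • U))) -
      (K.ev p (K.D X (K.eta (S.h j) Y Y X)) + t * (K.ev p (K.D U (K.eta (S.h j) Y Y X))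
        + K.ev p (K.D X (K.eta (S.h j) V Y X)) + K.ev p (K.D X (K.eta (S.h j) Y V X))
        + K.ev p (K.D X (K.eta (S.h j) Y Y U))))) (K.ev p (K.D (Y + t • V) (K.eta (S.h j) (X + t • U) (Y + t • V) (X + t • U))) -
      (K.ev p (K.D Y (K.eta (S.h j) X Y X)) + t * (K.ev p (K.D V (K.eta (S.h j) X Y X))
        + K.ev p (K.D Y (K.eta (S.h j) U Y X)) + K.ev p (K.D Y (K.eta (S.h j) X V X))
        + K.ev p (K.D Y (K.eta (S.h j) X Y U)))))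
  refine (abs_sub _ _).trans ?_
  refine (add_le_add (n1.trans (add_le_add m1 m2)) r4).trans (le_of_eq ?_)
  ring

end SExpB

namespace SPert

variable {K : Calc P 𝔤} {𝔭 : Submodule ℝ 𝔤} (S : SPert K 𝔭)

open SExpB in
theorem num_expB (X Y : 𝔤) (hXY : K.br X Y = 0) (M : ℝ) : ∃ C : ℝ, 0 < C ∧ ∀ᶠ j in atTop,
    ∀ p U V, ‖U‖ ≤ M → ‖V‖ ≤ M → ∀ Vuu Vuv Vvu Vvv EXX EXY EYY,
    K.IsNabla (K.met (S.t j) (S.h j)) p (X + S.t j • U) (X + S.t j • U) Vuu →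
    K.IsNabla (K.met (S.t j) (S.h j)) p (X + S.t j • U) (Y + S.t j • V) Vuv →
    K.IsNabla (K.met (S.t j) (S.h j)) p (Y + S.t j • V) (X + S.t j • U) Vvu →
    K.IsNabla (K.met (S.t j) (S.h j)) p (Y + S.t j • V) (Y + S.t j • V) Vvv →
    K.IsEta (S.h j) p X X EXX → K.IsEta (S.h j) p X Y EXY → K.IsEta (S.h j) p Y Y EYY →
    |K.num (K.met (S.t j) (S.h j)) p (X + S.t j • U) (Y + S.t j • V) Vuu Vuv Vvu Vvv -
      (S.t j * K.ev p (K.Q (S.h j) X Y)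
        + S.t j ^ 2 * (inner ℝ EXY EXY - inner ℝ EXX EYY
          + 2 * K.ev p (K.R1 (S.h j) X Y Y U) + 2 * K.ev p (K.R1 (S.h j) Y X X V)
          + (1 / 4) * ‖K.br X V + K.br U Y‖ ^ 2))| ≤ C * S.t j ^ 3 := by
  obtain ⟨Cη, hCη, Hη⟩ := S.eta_bound
  obtain ⟨B, hB, HB⟩ := K.br_bound
  set N : ℝ := ‖X‖ + ‖Y‖ + |M| + 1 with hN
  have hN0 : 0 < N := by positivity
  set W : ℝ := 2 * B * N ^ 2 with hW
  have hW0 : 0 < W := by positivity
  obtain ⟨C1, hC1, H1⟩ := S.num_expA (2 * N + 2 * W)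
  have hη := eta0 S Hη
  have hη1 := eta1 S Hη
  refine ⟨C1 + (22 * Cη * N ^ 4 + 7 * Cη * W * N ^ 2) + W ^ 2 + 30 * Cη ^ 2 * N ^ 4, by positivity,
    ?_⟩
  have ht1 : ∀ᶠ j in atTop, S.t j ≤ 1 := S.t_lim.eventually_le_const one_pos
  filter_upwards [H1, ht1] with j H1 ht1
  intro p U V hU hV Vuu Vuv Vvu Vvv EXX EXY EYY n1 n2 n3 n4 hXX hXY' hYY
  set t := S.t j with htdef
  have ht : 0 < t := S.t_pos j
  have hX : ‖X‖ ≤ N := by
    have := norm_nonneg Y; have := abs_nonneg M; linarith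
  have hY : ‖Y‖ ≤ N := by
    have := norm_nonneg X; have := abs_nonneg M; linarith
  have hU' : ‖U‖ ≤ N := by
    have := norm_nonneg X; have := norm_nonneg Y; have := le_abs_self M; linarith
  have hV' : ‖V‖ ≤ N := by
    have := norm_nonneg X; have := norm_nonneg Y; have := le_abs_self M; linarith
  have hW1 : ‖K.br X V + K.br U Y‖ ≤ W := by
    calc _ ≤ ‖K.br X V‖ + ‖K.br U Y‖ := norm_add_le _ _
      _ ≤ B * ‖X‖ * ‖V‖ + B * ‖U‖ * ‖Y‖ := add_le_add (HB _ _) (HB _ _)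
      _ ≤ B * N * N + B * N * N := by gcongr
      _ = W := by rw [hW]; ring
  have hW2 : ‖K.br U V‖ ≤ W := by
    calc _ ≤ B * ‖U‖ * ‖V‖ := HB _ _
      _ ≤ B * N * N := by gcongr
      _ ≤ W := by rw [hW]; nlinarith [mul_pos hB (pow_pos hN0 2)]
  have hbr : K.br (X + t • U) (Y + t • V) =
      t • (K.br X V + K.br U Y) + t ^ 2 • K.br U V := by
    simp only [map_add, map_smul, LinearMap.add_apply, LinearMap.smul_apply, hXY]
    module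
  have hv : ‖Y + t • V‖ ≤ 2 * N := by
    calc ‖Y + t • V‖ ≤ ‖Y‖ + ‖t • V‖ := norm_add_le _ _
      _ = ‖Y‖ + t * ‖V‖ := by rw [norm_smul, Real.norm_eq_abs, abs_of_nonneg ht.le]
      _ ≤ N + 1 * N := by gcongr
      _ = _ := by ring
  have hu : ‖X + t • U‖ ≤ 2 * N := by
    calc ‖X + t • U‖ ≤ ‖X‖ + ‖t • U‖ := norm_add_le _ _
      _ = ‖X‖ + t * ‖U‖ := by rw [norm_smul, Real.norm_eq_abs, abs_of_nonneg ht.le]
      _ ≤ N + 1 * N := by gcongr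
      _ = _ := by ring
  have hbrn : ‖K.br (X + t • U) (Y + t • V)‖ ≤ (2 * N + 2 * W) * t := by
    rw [hbr]
    calc _ ≤ ‖t • (K.br X V + K.br U Y)‖ + ‖t ^ 2 • K.br U V‖ := norm_add_le _ _
      _ = t * ‖K.br X V + K.br U Y‖ + t ^ 2 * ‖K.br U V‖ := by
          rw [norm_smul, norm_smul, Real.norm_eq_abs, Real.norm_eq_abs, abs_of_nonneg ht.le,
            abs_of_nonneg (by positivity : (0:ℝ) ≤ t ^ 2)]
      _ ≤ t * W + t * W := by
          have : t ^ 2 ≤ t := by nlinarith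
          gcongr
      _ ≤ _ := by nlinarith [mul_pos hN0 ht]
  obtain ⟨Euu, hEuu⟩ := K.exists_eta (S.h j) p (X + t • U) (X + t • U)
  obtain ⟨Euv, hEuv⟩ := K.exists_eta (S.h j) p (X + t • U) (Y + t • V)
  obtain ⟨Evu, hEvu⟩ := K.exists_eta (S.h j) p (Y + t • V) (X + t • U)
  obtain ⟨Evv, hEvv⟩ := K.exists_eta (S.h j) p (Y + t • V) (Y + t • V)
  have A0 := H1 p (X + t • U) (Y + t • V) (by linarith) (by linarith) hbrn Vuu Vuv Vvu Vvv
    Euu Euv Evu Evv n1 n2 n3 n4 hEuu hEuv hEvu hEvv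
  have A1 := partA S hCη.le hη hη1 X Y hXY j p U V t N W ht.le ht1 hX hY hU' hV' hW1 hW2
  rw [← hbr] at A1
  have hYX' : K.IsEta (S.h j) p Y X EXY := by
    intro C
    rw [hXY' C, K.eta_comm_of (S.h j) X Y C (S.symm j) hXY]
  have d1 := E_diff S hη hCη.le j p X Y U V EXY Euv t N ht.le ht1 hX hY hU' hV' hXY' hEuv
  have d2 := E_diff S hη hCη.le j p Y X V U EXY Evu t N ht.le ht1 hY hX hV' hU' hYX' hEvu
  have d3 := E_diff S hη hCη.le j p X X U U EXX Euu t N ht.le ht1 hX hX hU' hU' hXX hEuu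
  have d4 := E_diff S hη hCη.le j p Y Y V V EYY Evv t N ht.le ht1 hY hY hV' hV' hYY hEvv
  have b1 : ‖EXY‖ ≤ Cη * N ^ 2 := by
    calc _ ≤ Cη * ‖X‖ * ‖Y‖ := E_norm S hη hCη.le j p _ _ _ hXY'
      _ ≤ Cη * N * N := by gcongr
      _ = _ := by ring
  have b2 : ‖EYY‖ ≤ Cη * N ^ 2 := by
    calc _ ≤ Cη * ‖Y‖ * ‖Y‖ := E_norm S hη hCη.le j p _ _ _ hYY
      _ ≤ Cη * N * N := by gcongr
      _ = _ := by ring
  have b3 : ‖Evu‖ ≤ 4 * (Cη * N ^ 2) := by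
    calc _ ≤ Cη * ‖Y + t • V‖ * ‖X + t • U‖ := E_norm S hη hCη.le j p _ _ _ hEvu
      _ ≤ Cη * (2 * N) * (2 * N) := by gcongr
      _ = _ := by ring
  have b4 : ‖Euu‖ ≤ 4 * (Cη * N ^ 2) := by
    calc _ ≤ Cη * ‖X + t • U‖ * ‖X + t • U‖ := E_norm S hη hCη.le j p _ _ _ hEuu
      _ ≤ Cη * (2 * N) * (2 * N) := by gcongr
      _ = _ := by ring
  have c1 := inner_diff EXY Euv EXY Evu _ _ _ b1 b3 d1 d2
  have c2 := inner_diff EYY Evv EXX Euu _ _ _ b2 b4 d4 d3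
  have hc : inner ℝ EYY EXX = inner ℝ EXX EYY := real_inner_comm _ _
  rw [hc] at c2
  have A2 : |(1 / 4) * ‖K.br (X + t • U) (Y + t • V)‖ ^ 2
      - t ^ 2 * ((1 / 4) * ‖K.br X V + K.br U Y‖ ^ 2)| ≤ W ^ 2 * t ^ 3 := by
    set w1 := K.br X V + K.br U Y with hw1
    set w2 := K.br U V with hw2
    have e1 : ‖K.br (X + t • U) (Y + t • V)‖ ^ 2 =
        t ^ 2 * ‖w1‖ ^ 2 + 2 * t ^ 3 * inner ℝ w1 w2 + t ^ 4 * ‖w2‖ ^ 2 := by
      rw [hbr, norm_add_sq_real, norm_smul, norm_smul, inner_smul_left, inner_smul_right,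
        Real.norm_eq_abs, Real.norm_eq_abs, mul_pow, mul_pow, sq_abs, sq_abs]
      simp only [conj_trivial]
      ring
    have e2 : (1 / 4) * ‖K.br (X + t • U) (Y + t • V)‖ ^ 2 - t ^ 2 * ((1 / 4) * ‖w1‖ ^ 2) =
        t ^ 3 * ((1 / 4) * (2 * inner ℝ w1 w2 + t * ‖w2‖ ^ 2)) := by
      rw [e1]; ring
    rw [e2, abs_mul, abs_of_pos (pow_pos ht 3), mul_comm]
    refine mul_le_mul_of_nonneg_right ?_ (pow_pos ht 3).le
    have i1 : |inner ℝ w1 w2| ≤ W * W :=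
      (abs_real_inner_le_norm _ _).trans (mul_le_mul hW1 hW2 (norm_nonneg _) hW0.le)
    have i2 : ‖w2‖ ^ 2 ≤ W ^ 2 := pow_le_pow_left₀ (norm_nonneg _) hW2 2
    have i3 : 0 ≤ ‖w2‖ ^ 2 := by positivity
    have i4 : t * ‖w2‖ ^ 2 ≤ W ^ 2 := by nlinarith
    have i5 : 0 ≤ t * ‖w2‖ ^ 2 := by positivity
    rw [abs_le] at i1 ⊢
    constructor
    · nlinarith only [i1.1, i4, i5, i3]
    · nlinarith only [i1.2, i4, i5, i3, mul_pos hW0 hW0]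
  set Φ : ℝ := K.ev p (K.D (X + t • U) (K.eta (S.h j) (Y + t • V) (Y + t • V) (X + t • U)))
      - K.ev p (K.D (Y + t • V) (K.eta (S.h j) (X + t • U) (Y + t • V) (X + t • U)))
      - K.ev p (K.eta (S.h j) (K.br (X + t • U) (Y + t • V)) (Y + t • V) (X + t • U)) with hΦ
  set q : ℝ := K.ev p (K.Q (S.h j) X Y) with hq
  set r1 : ℝ := K.ev p (K.R1 (S.h j) X Y Y U) with hr1
  set r2 : ℝ := K.ev p (K.R1 (S.h j) Y X X V) with hr2
  set nn : ℝ := K.num (K.met t (S.h j)) p (X + t • U) (Y + t • V) Vuu Vuv Vvu Vvv with hnn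
  have A1' : |t * (Φ - (q + t * (2 * r1 + 2 * r2)))| ≤
      (22 * Cη * N ^ 4 + 7 * Cη * W * N ^ 2) * t ^ 3 := by
    rw [abs_mul, abs_of_pos ht]
    calc _ ≤ t * ((22 * Cη * N ^ 4 + 7 * Cη * W * N ^ 2) * t ^ 2) :=
          mul_le_mul_of_nonneg_left A1 ht.le
      _ = _ := by ring
  have A3 : |t ^ 2 * ((inner ℝ Euv Evu - inner ℝ Evv Euu)
      - (inner ℝ EXY EXY - inner ℝ EXX EYY))| ≤ 30 * Cη ^ 2 * N ^ 4 * t ^ 3 := by
    rw [abs_mul, abs_of_pos (pow_pos ht 2)]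
    have k : |(inner ℝ Euv Evu - inner ℝ Evv Euu) - (inner ℝ EXY EXY - inner ℝ EXX EYY)| ≤
        30 * Cη ^ 2 * N ^ 4 * t := by
      have e : (Cη * N ^ 2 + 4 * (Cη * N ^ 2)) * (3 * Cη * N ^ 2 * t) =
          15 * Cη ^ 2 * N ^ 4 * t := by ring
      rw [e] at c1 c2
      have e2 : (inner ℝ Euv Evu - inner ℝ Evv Euu) - (inner ℝ EXY EXY - inner ℝ EXX EYY) =
          (inner ℝ Euv Evu - inner ℝ EXY EXY) - (inner ℝ Evv Euu - inner ℝ EXX EYY) := by ring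
      rw [e2]
      refine (abs_sub _ _).trans ((add_le_add c1 c2).trans (le_of_eq ?_))
      ring
    calc _ ≤ t ^ 2 * (30 * Cη ^ 2 * N ^ 4 * t) := mul_le_mul_of_nonneg_left k (pow_pos ht 2).le
      _ = _ := by ring
  rw [abs_le] at A0 A1' A2 A3 ⊢
  constructor <;> linarith [A0.1, A0.2, A1'.1, A1'.2, A2.1, A2.2, A3.1, A3.2]

end SPert

namespace SPert

variable {K : Calc P 𝔤} {𝔭 : Submodule ℝ 𝔤} (S : SPert K 𝔭)

theorem Q_small {ι : Type} (A B : ι → 𝔤) (M : ℝ) (pA : ∀ i, A i ∈ 𝔭) (pB : ∀ i, B i ∈ 𝔭)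
    (hAB : ∀ i, K.br (A i) (B i) = 0)
    (hA : ∀ i, K.Cl (A i)) (hB : ∀ i, K.Cl (B i)) (hi : ∀ i, LinearIndependent ℝ ![A i, B i])
    (hMA : ∀ i, ‖A i‖ ≤ M) (hMB : ∀ i, ‖B i‖ ≤ M) :
    Sm (fun j (x : ι × P) => K.ev x.2 (K.Q (S.h j) (A x.1) (B x.1))) := by
  obtain ⟨C, hC, hlow⟩ := S.Q_low
  obtain ⟨C', hC', hbd⟩ := S.Q_bound
  have hA2 : ∀ i, ‖A i‖ ^ 2 ≤ M ^ 2 := fun i => pow_le_pow_left₀ (norm_nonneg _) (hMA i) 2
  have hB2 : ∀ i, ‖B i‖ ^ 2 ≤ M ^ 2 := fun i => pow_le_pow_left₀ (norm_nonneg _) (hMB i) 2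
  have hprod : ∀ i, ‖A i‖ ^ 2 * ‖B i‖ ^ 2 ≤ M ^ 2 * M ^ 2 := fun i =>
    mul_le_mul (hA2 i) (hB2 i) (by positivity) (by positivity)
  refine K.sm_of_av A B (fun j i => K.Q (S.h j) (A i) (B i))
    (fun j => C * S.t j * (M ^ 2 * M ^ 2)) ?_ ?_ ?_ ?_ ?_ ?_
  · have := (S.t_lim.const_mul C).mul_const (M ^ 2 * M ^ 2)
    simpa using this
  · filter_upwards [hlow] with j hj i p
    have h1 := hj p (A i) (B i) (pA i) (pB i) (hi i) (hAB i)
    have h2 : C * S.t j * ‖A i‖ ^ 2 * ‖B i‖ ^ 2 ≤ C * S.t j * (M ^ 2 * M ^ 2) := by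
      rw [mul_assoc (C * S.t j)]
      exact mul_le_mul_of_nonneg_left (hprod i) (mul_nonneg hC.le (S.t_pos j).le)
    linarith
  · intro j i p
    have hBA : K.br (B i) (A i) = 0 := by rw [K.br_anti, hAB i, neg_zero]
    have e : K.Av (B i) (K.Av (A i) (K.Q (S.h j) (A i) (B i))) = 0 := by
      unfold Calc.Q
      rw [map_sub, K.Av_D _ (hA i), zero_sub, map_neg, K.Av_comm _ _ hBA, K.Av_D _ (hB i),
        map_zero, neg_zero]
    rw [e, map_zero]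
  · refine ⟨C' * (M ^ 2 * M ^ 2), fun j x => ?_⟩
    have h1 := hbd j [] (by simp) (A x.1) (B x.1) x.2
    simp only [Calc.Dl, List.foldr_nil, List.map_nil, List.prod_nil, mul_one] at h1
    refine h1.trans ?_
    rw [mul_assoc]
    exact mul_le_mul_of_nonneg_left (hprod x.1) hC'.le
  · refine ⟨C' * |M| * (M ^ 2 * M ^ 2), fun j x => ?_⟩
    have h1 := hbd j [A x.1] (by simp) (A x.1) (B x.1) x.2
    simp only [Calc.Dl, List.foldr_cons, List.foldr_nil, List.map_cons, List.map_nil,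
      List.prod_cons, List.prod_nil, mul_one] at h1
    refine h1.trans ?_
    rw [mul_assoc (C' * ‖A x.1‖)]
    have h2 : C' * ‖A x.1‖ ≤ C' * |M| :=
      mul_le_mul_of_nonneg_left ((hMA x.1).trans (le_abs_self M)) hC'.le
    exact mul_le_mul h2 (hprod x.1) (by positivity) (by positivity)
  · refine ⟨C' * |M| * (M ^ 2 * M ^ 2), fun j x => ?_⟩
    have h1 := hbd j [B x.1] (by simp) (A x.1) (B x.1) x.2
    simp only [Calc.Dl, List.foldr_cons, List.foldr_nil, List.map_cons, List.map_nil,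
      List.prod_cons, List.prod_nil, mul_one] at h1
    refine h1.trans ?_
    rw [mul_assoc (C' * ‖B x.1‖)]
    have h2 : C' * ‖B x.1‖ ≤ C' * |M| :=
      mul_le_mul_of_nonneg_left ((hMB x.1).trans (le_abs_self M)) hC'.le
    exact mul_le_mul h2 (hprod x.1) (by positivity) (by positivity)

theorem Q_small₁ (A B : 𝔤) (pA : A ∈ 𝔭) (pB : B ∈ 𝔭) (hAB : K.br A B = 0) (hA : K.Cl A) (hB : K.Cl B)
    (hi : LinearIndependent ℝ ![A, B]) : K.sm (fun j => K.Q (S.h j) A B) := by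
  have h := S.Q_small (ι := Unit) (fun _ => A) (fun _ => B) (max ‖A‖ ‖B‖) (fun _ => pA)
    (fun _ => pB) (fun _ => hAB)
    (fun _ => hA) (fun _ => hB) (fun _ => hi) (fun _ => le_max_left _ _)
    (fun _ => le_max_right _ _)
  exact h.comp (fun p : P => ((), p))

end SPert

end Pool.Agent.TH109.SS
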