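import Pool.Agent.TH109.SS.Grp2

/-!
A symmetric metric of rank at most one is not rigid: it has positive curvature.
-/

open scoped ContDiff Matrix.Norms.Frobenius Topology
open Matrix Filter Module Pool.Agent.H842R4 Pool.Agent.H842R4.Calc
open Pool.Agent.TH109.CG Pool.Agent.TH109.CG2 Pool.Agent.TH109.CG4

noncomputable section

namespace Pool.Agent.TH109.SS

variable {N : ℕ} {G : CGroup N} (σ : Invo G) (Q : InvProduct G)

theorem bound_bilV {E : Type} [NormedAddCommGroup E] [InnerProductSpace ℝ E]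
    [FiniteDimensional ℝ E] (V : Submodule ℝ E) (b : E →ₗ[ℝ] E →ₗ[ℝ] E)
    (h : ∀ A B : E, A ∈ V → B ∈ V → LinearIndependent ℝ ![A, B] → b A B ≠ 0) :
    ∃ c : ℝ, 0 < c ∧ ∀ A B : E, A ∈ V → B ∈ V → ‖A‖ = 1 → ‖B‖ = 1 → inner ℝ A B = (0 : ℝ) →
      c ≤ ‖b A B‖ ^ 2 := by
  have hV : IsClosed (V : Set E) := Submodule.closed_of_finiteDimensional _
  set S : Set (E × E) := {x | (x.1 ∈ (V : Set E) ∧ x.2 ∈ (V : Set E)) ∧
    ‖x.1‖ = 1 ∧ ‖x.2‖ = 1 ∧ inner ℝ x.1 x.2 = (0 : ℝ)} with hS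
  by_cases hne : S.Nonempty
  · have hcl : IsClosed S := by
      refine ((hV.preimage continuous_fst).inter (hV.preimage continuous_snd)).inter
        ((isClosed_eq continuous_fst.norm continuous_const).inter
        ((isClosed_eq continuous_snd.norm continuous_const).inter
        (isClosed_eq (continuous_fst.inner continuous_snd) continuous_const)))
    have hbd : Bornology.IsBounded S := by
      refine (Metric.isBounded_closedBall (x := (0 : E × E)) (r := 1)).subset fun x hx => ?_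
      rw [mem_closedBall_zero_iff, Prod.norm_def]
      exact max_le hx.2.1.le hx.2.2.1.le
    have : ProperSpace (E × E) := FiniteDimensional.proper ℝ _
    have hcp : IsCompact S := Metric.isCompact_of_isClosed_isBounded hcl hbd
    obtain ⟨x, ⟨hxV, hx⟩, hmin⟩ := hcp.exists_isMinOn hne (cont_bil b).continuousOn
    refine ⟨‖b x.1 x.2‖ ^ 2, ?_, fun A B hA hB h1 h2 h3 => ?_⟩
    · have hne0 : b x.1 x.2 ≠ 0 := by
        apply h _ _ hxV.1 hxV.2
        have h5 : Orthonormal ℝ ![x.1, x.2] := by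
          rw [orthonormal_iff_ite]
          intro i j
          have e1 : inner ℝ x.1 x.1 = (1 : ℝ) := by
            rw [real_inner_self_eq_norm_sq, hx.1]; norm_num
          have e2 : inner ℝ x.2 x.2 = (1 : ℝ) := by
            rw [real_inner_self_eq_norm_sq, hx.2.1]; norm_num
          have e3 : inner ℝ x.2 x.1 = (0 : ℝ) := by rw [real_inner_comm]; exact hx.2.2
          fin_cases i <;> fin_cases j
          · exact e1
          · exact hx.2.2
          · exact e3
          · exact e2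
        exact h5.linearIndependent
      positivity
    · have hAB : (A, B) ∈ S := ⟨⟨hA, hB⟩, h1, h2, h3⟩
      exact isMinOn_iff.1 hmin (A, B) hAB
  · exact ⟨1, one_pos, fun A B hA hB h1 h2 h3 => absurd ⟨(A, B), ⟨hA, hB⟩, h1, h2, h3⟩ hne⟩

theorem key_bound {c : ℝ}
    (h : ∀ A B : LQ Q, A ∈ pQ σ Q → B ∈ pQ σ Q → ‖A‖ = 1 → ‖B‖ = 1 → inner ℝ A B = (0 : ℝ) →
      c ≤ ‖(qCalc Q).br A B‖ ^ 2) (a b : LQ Q) (ha : a ∈ pQ σ Q) (hb : b ∈ pQ σ Q)
    (hpos : 0 < inner ℝ a a * inner ℝ b b - (inner ℝ a b : ℝ) ^ 2) :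
    c * (inner ℝ a a * inner ℝ b b - (inner ℝ a b : ℝ) ^ 2) ≤
        inner ℝ ((qCalc Q).br a b) ((qCalc Q).br a b) := by
  have haa : (0 : ℝ) < inner ℝ a a := by
    by_contra hcon
    push Not at hcon
    have h1 : (inner ℝ a a : ℝ) = 0 := le_antisymm hcon real_inner_self_nonneg
    rw [h1] at hpos
    nlinarith [sq_nonneg (inner ℝ a b : ℝ)]
  set d : LQ Q := b - (inner ℝ a b / inner ℝ a a) • a with hd
  have hdp' : d ∈ pQ σ Q := (pQ σ Q).sub_mem hb ((pQ σ Q).smul_mem _ ha)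
  have hdd : (inner ℝ d d : ℝ) * inner ℝ a a =
      inner ℝ a a * inner ℝ b b - (inner ℝ a b : ℝ) ^ 2 := by
    rw [hd, inner_sub_left, inner_sub_right, inner_sub_right, real_inner_smul_left,
      real_inner_smul_left, real_inner_smul_right, real_inner_smul_right, real_inner_comm b a]
    field_simp
    ring
  have had : (inner ℝ a d : ℝ) = 0 := by
    rw [hd, inner_sub_right, real_inner_smul_right]
    field_simp
    ring
  have hdp : (0 : ℝ) < inner ℝ d d := by
    by_contra hcon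
    push Not at hcon
    nlinarith
  have hbr : (qCalc Q).br a b = (qCalc Q).br a d := by
    rw [hd, map_sub, map_smul, (qCalc Q).br_self, smul_zero, sub_zero]
  have na : ‖a‖ ≠ 0 := by
    intro h0
    rw [real_inner_self_eq_norm_sq, h0] at haa
    norm_num at haa
  have nd : ‖d‖ ≠ 0 := by
    intro h0
    rw [real_inner_self_eq_norm_sq, h0] at hdp
    norm_num at hdp
  have h5 := h (‖a‖⁻¹ • a) (‖d‖⁻¹ • d) ((pQ σ Q).smul_mem _ ha) ((pQ σ Q).smul_mem _ hdp')
    (by rw [norm_smul, norm_inv, norm_norm, inv_mul_cancel₀ na])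
    (by rw [norm_smul, norm_inv, norm_norm, inv_mul_cancel₀ nd])
    (by rw [real_inner_smul_left, real_inner_smul_right, had, mul_zero, mul_zero])
  have h6 : ‖(qCalc Q).br (‖a‖⁻¹ • a) (‖d‖⁻¹ • d)‖ ^ 2 * (‖a‖ ^ 2 * ‖d‖ ^ 2) =
      ‖(qCalc Q).br a d‖ ^ 2 := by
    rw [map_smul, LinearMap.map_smul₂, norm_smul, norm_smul, norm_inv, norm_inv, norm_norm,
      norm_norm]
    field_simp
  rw [← hdd, hbr, real_inner_self_eq_norm_sq, real_inner_self_eq_norm_sq,
    real_inner_self_eq_norm_sq, ← h6]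
  have h7 : 0 ≤ ‖a‖ ^ 2 * ‖d‖ ^ 2 := by positivity
  have h8 := mul_le_mul_of_nonneg_right h5 h7
  linarith

/-- positive curvature without commuting elements -/
theorem base_bound
    (h : ¬ ∃ A B : lieAlg G, A ∈ pSub σ ∧ B ∈ pSub σ ∧ LinearIndependent ℝ ![A, B] ∧
      brk A B = 0) : ∃ c : ℝ, 0 < c ∧ ∀ (p : Pt G) (A B : lieAlg G), A ∈ pSub σ → B ∈ pSub σ →
        LinearIndependent ℝ ![A, B] → c ≤ cur Q (cMetric Q) A B p /
          ((cMetric Q).val p A A * (cMetric Q).val p B B - (cMetric Q).val p A B ^ 2) := by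
  obtain ⟨c, hc, hbound⟩ := bound_bilV (pQ σ Q) (qCalc Q).br
    fun A B hA hB hi h0 => h ⟨A, B, hA, hB, hi, h0⟩
  refine ⟨c, hc, fun p A B hA hB hi => ?_⟩
  have hg := (cMetric Q).gram_pos p A B hi
  rw [le_div_iff₀ hg]
  have h4 := key_bound σ Q hbound A B hA hB hg
  have h5 : cur Q (cMetric Q) A B p = Q.val (brk A B) (brk A B) := by
    unfold cur
    rw [curv_const]
    ring
  rw [h5]
  exact h4

end Pool.Agent.TH109.SS
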