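import Pool.Agent.TH109.SS.Pert

/-!
Smallness of the linearised curvature and its consequences (following `H842R4`).
-/

open MeasureTheory Filter Topology Pool.Agent.H842R4

noncomputable section

namespace Pool.Agent.TH109.SS

variable {P 𝔤 : Type} [NormedAddCommGroup 𝔤] [InnerProductSpace ℝ 𝔤] [FiniteDimensional ℝ 𝔤]

namespace SPert

variable {K : Calc P 𝔤} {𝔭 : Submodule ℝ 𝔤} (S : SPert K 𝔭)

/-- the bilinear form whose diagonal is the linearised curvature -/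
def E2F (K : Calc P 𝔤) (h : 𝔤 →ₗ[ℝ] 𝔤 →ₗ[ℝ] K.𝒜) (W : 𝔤) (p : P) : 𝔤 →ₗ[ℝ] 𝔤 →ₗ[ℝ] ℝ :=
  LinearMap.mk₂ ℝ (fun v v' => K.ev p (K.D v (K.eta h W W v')) - K.ev p (K.D W (K.eta h v W v')))
    (fun v₁ v₂ v' => by
      simp only [map_add, LinearMap.add_apply, K.eta_add_left]
      ring)
    (fun c v v' => by
      simp only [map_smul, LinearMap.smul_apply, K.eta_smul_left, smul_eq_mul]
      ring)
    (fun v v₁ v₂ => by
      simp only [map_add, K.eta_add_right]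
      ring)
    (fun c v v' => by
      simp only [map_smul, K.eta_smul_right, smul_eq_mul]
      ring)

lemma E2F_apply (K : Calc P 𝔤) (h : 𝔤 →ₗ[ℝ] 𝔤 →ₗ[ℝ] K.𝒜) (W : 𝔤) (p : P) (v v' : 𝔤) :
    E2F K h W p v v' =
      K.ev p (K.D v (K.eta h W W v')) - K.ev p (K.D W (K.eta h v W v')) := rfl

include S in
lemma E2F_bound (W : 𝔤) : ∃ C : ℝ, 0 ≤ C ∧ ∀ j p v v',
    |E2F K (S.h j) W p v v'| ≤ C * ‖v‖ * ‖v'‖ := by
  obtain ⟨C, hC, hb⟩ := S.eta_bound
  refine ⟨2 * C * ‖W‖ * ‖W‖, by positivity, ?_⟩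
  intro j p v v'
  rw [E2F_apply]
  have h1 := hb j [v] (by simp) W W v' p
  have h2 := hb j [W] (by simp) v W v' p
  simp only [Calc.Dl, List.foldr_cons, List.foldr_nil, List.map_cons, List.map_nil,
    List.prod_cons, List.prod_nil, mul_one] at h1 h2
  calc _ ≤ |K.ev p (K.D v (K.eta (S.h j) W W v'))| + |K.ev p (K.D W (K.eta (S.h j) v W v'))| :=
        abs_sub _ _
    _ ≤ C * ‖v‖ * ‖W‖ * ‖W‖ * ‖v'‖ + C * ‖W‖ * ‖v‖ * ‖W‖ * ‖v'‖ := add_le_add h1 h2
    _ = _ := by ring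

theorem e2_small (B W Z : 𝔤) (pB : ∀ s, K.Ad Z s B ∈ 𝔭) (pW : W ∈ 𝔭) (hBW : K.br B W = 0) (hB : K.Cl B) (hW : K.Cl W)
    (hi : LinearIndependent ℝ ![B, W]) (hZW : K.br Z W = 0) :
    K.sm (fun j => K.R1 (S.h j) B W W (K.br Z B)) := by
  obtain ⟨C, hC, hFb⟩ := S.E2F_bound W
  obtain ⟨c, hc, hbr⟩ := K.br_bound
  set u : ℝ → 𝔤 := fun s => K.Ad Z s B with hu
  set F : ℕ → P → 𝔤 →ₗ[ℝ] 𝔤 →ₗ[ℝ] ℝ := fun j p => E2F K (S.h j) W p with hF
  have hun : ∀ s, ‖u s‖ = ‖B‖ := fun s => K.Ad_norm Z s B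
  have hd0 : ∀ s, HasDerivAt u (K.br Z (u s)) s := fun s => K.Ad_der Z B s
  have hlin : ∀ (w : ℝ → 𝔤) (w' : 𝔤) (s : ℝ), HasDerivAt w w' s →
      HasDerivAt (fun x => K.br Z (w x)) (K.br Z w') s := fun w w' s hw =>
    (LinearMap.toContinuousLinearMap (K.br Z)).hasFDerivAt.comp_hasDerivAt s hw
  have hd1 : ∀ s, HasDerivAt (fun x => K.br Z (u x)) (K.br Z (K.br Z (u s))) s := fun s =>
    hlin u _ s (hd0 s)
  -- norms
  have hn1 : ∀ s, ‖K.br Z (u s)‖ ≤ c * ‖Z‖ * ‖B‖ := fun s => by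
    have := hbr Z (u s)
    rwa [hun s] at this
  have hn2 : ∀ s, ‖K.br Z (K.br Z (u s))‖ ≤ c * ‖Z‖ * (c * ‖Z‖ * ‖B‖) := fun s =>
    (hbr Z _).trans (mul_le_mul_of_nonneg_left (hn1 s) (by positivity))
  -- smallness of the curvature along the conjugation
  have hcomm : ∀ s, K.br (u s) W = 0 := by
    intro s
    have h1 := K.Ad_br Z s B W
    rw [K.Ad_fix Z s W hZW, hBW] at h1
    rw [h1]
    exact K.Ad_fix Z s 0 (map_zero _)
  have hQ := S.Q_small u (fun _ => W) (max ‖B‖ ‖W‖) pB (fun _ => pW) hcomm (fun s => K.Ad_cl Z s B hB)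
    (fun _ => hW) (fun s => K.Ad_indep Z B W hi hZW s)
    (fun s => (hun s).le.trans (le_max_left _ _)) (fun _ => le_max_right _ _)
  have hs : Sm (fun j (x : P × ℝ) => F j x.1 (u x.2) (u x.2)) := by
    have := hQ.comp (fun x : P × ℝ => (x.2, x.1))
    refine this.of_le fun j x => le_of_eq ?_
    simp only [hF, E2F_apply, Calc.Q, map_sub]
  have hL := landau (ι := P) (fun j p s => F j p (u s) (u s))
    (fun j p s => F j p (K.br Z (u s)) (u s) + F j p (u s) (K.br Z (u s)))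
    (fun j p s => (F j p (K.br Z (K.br Z (u s))) (u s) + F j p (K.br Z (u s)) (K.br Z (u s))) +
      (F j p (K.br Z (u s)) (K.br Z (u s)) + F j p (u s) (K.br Z (K.br Z (u s)))))
    (fun j p s => bilin_deriv (F j p) u u _ _ s (hd0 s) (hd0 s))
    (fun j p s => (bilin_deriv (F j p) (fun x => K.br Z (u x)) u _ _ s (hd1 s) (hd0 s)).add
      (bilin_deriv (F j p) u (fun x => K.br Z (u x)) _ _ s (hd0 s) (hd1 s)))
    hs (by
      refine ⟨C * (c * ‖Z‖ * (c * ‖Z‖ * ‖B‖)) * ‖B‖ +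
        C * (c * ‖Z‖ * ‖B‖) * (c * ‖Z‖ * ‖B‖) +
        (C * (c * ‖Z‖ * ‖B‖) * (c * ‖Z‖ * ‖B‖) + C * ‖B‖ * (c * ‖Z‖ * (c * ‖Z‖ * ‖B‖))), ?_⟩
      rintro j ⟨p, s⟩
      have hm : ∀ (v v' : 𝔤) (a b : ℝ), ‖v‖ ≤ a → ‖v'‖ ≤ b → |F j p v v'| ≤ C * a * b := by
        intro v v' a b ha hb
        have ha0 : 0 ≤ a := (norm_nonneg _).trans ha
        calc |F j p v v'| ≤ C * ‖v‖ * ‖v'‖ := hFb j p v v'
          _ ≤ C * a * b := by gcongr
      have k1 := hm _ _ _ _ (hn2 s) (hun s).le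
      have k2 := hm _ _ _ _ (hn1 s) (hn1 s)
      have k3 := hm _ _ _ _ (hun s).le (hn2 s)
      exact (abs_add_le _ _).trans (add_le_add ((abs_add_le _ _).trans (add_le_add k1 k2))
        ((abs_add_le _ _).trans (add_le_add k2 k3))))
  have h0 := hL.comp (fun p : P => (p, (0 : ℝ)))
  have hbr0 : K.br (K.br Z B) W = 0 := by
    have := K.jac Z B W
    rw [hBW, hZW, map_zero, map_zero, add_zero] at this
    exact this.symm
  have hu0 : u 0 = B := K.Ad_zero Z B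
  have hfin := h0.const_mul (1 / 2)
  refine hfin.of_le fun j p => le_of_eq ?_
  have hid := congrArg (K.ev p) (K.id1 (S.h j) (S.symm j) B W (K.br Z B) hBW)
  rw [hbr0, K.eta_zero_left] at hid
  simp only [map_sub, map_add, map_smul, map_zero, sub_zero, smul_eq_mul] at hid
  simp only [hu0, hF, E2F_apply]
  congr 1
  linarith

end SPert

namespace SPert

variable {K : Calc P 𝔤} {𝔭 : Submodule ℝ 𝔤} (S : SPert K 𝔭)

private lemma tang_bd_h (A B : 𝔤) : K.bd (fun j => S.h j A B) := by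
  simpa [Calc.Dl] using S.bd_h [] (by simp) A B

theorem tang1 (X Y : 𝔤) (pX : X ∈ 𝔭) (pY : Y ∈ 𝔭) (hXY : K.br X Y = 0) (hX : K.Cl X) (hY : K.Cl Y)
    (hi : LinearIndependent ℝ ![X, Y]) :
    K.sm (fun j => K.Av X (K.Av Y (K.eta (S.h j) X Y X ^ 2
      - K.eta (S.h j) X X X * K.eta (S.h j) Y Y X))) := by
  have h1 := (TangAux.sm_T K X Y
    (Calc.sm.bd_mul (S.tang_bd_h X X) (S.Q_small₁ X Y pX pY hXY hX hY hi))).smul (1 / 2 : ℝ)
  exact h1.congr fun j => TangAux.id1 K (S.h j) (S.symm j) X Y hXY hX hY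

theorem tang2 (X Y : 𝔤) (pX : X ∈ 𝔭) (pY : Y ∈ 𝔭) (hXY : K.br X Y = 0) (hX : K.Cl X) (hY : K.Cl Y)
    (hi : LinearIndependent ℝ ![X, Y]) :
    K.sm (fun j => K.Av X (K.Av Y (K.eta (S.h j) X Y Y ^ 2
      - K.eta (S.h j) X X Y * K.eta (S.h j) Y Y Y))) := by
  have h1 := (TangAux.sm_T K X Y
    (Calc.sm.bd_mul (S.tang_bd_h Y Y) (S.Q_small₁ X Y pX pY hXY hX hY hi))).smul (1 / 2 : ℝ)
  exact h1.congr fun j => TangAux.id2 K (S.h j) (S.symm j) X Y hXY hX hY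

theorem tang3 (X Y : 𝔤) (pX : X ∈ 𝔭) (pY : Y ∈ 𝔭) (hXY : K.br X Y = 0) (hX : K.Cl X) (hY : K.Cl Y)
    (hi : LinearIndependent ℝ ![X, Y]) :
    K.sm (fun j => K.Av X (K.Av Y ((2 : ℝ) • (K.eta (S.h j) X Y X * K.eta (S.h j) X Y Y)
      - K.eta (S.h j) X X X * K.eta (S.h j) Y Y Y
      - K.eta (S.h j) X X Y * K.eta (S.h j) Y Y X))) := by
  have h1 := TangAux.sm_T K X Y
    (Calc.sm.bd_mul (S.tang_bd_h X Y) (S.Q_small₁ X Y pX pY hXY hX hY hi))
  exact h1.congr fun j => TangAux.id3 K (S.h j) (S.symm j) X Y hXY hX hY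

end SPert

namespace SPert

variable {K : Calc P 𝔤} {𝔭 : Submodule ℝ 𝔤} (S : SPert K 𝔭)

theorem avg_small (X Y C V : 𝔤) (pC : C ∈ 𝔭) (pV : V ∈ 𝔭) (a b : ℝ) (hV : V = a • X + b • Y) (hXY : K.br X Y = 0)
    (hXC : K.br X C = 0) (hYC : K.br Y C = 0) (hX : K.Cl X) (hY : K.Cl Y) (hC : K.Cl C)
    (cV : K.Cl V) (hi : LinearIndependent ℝ ![V, C]) :
    K.sm (fun j => K.D C (K.Av X (K.Av Y (S.h j V V)))) := by
  have hVC : K.br V C = 0 := by rw [hV]; simp [hXC, hYC]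
  apply Calc.sm_D' C (fun j => K.Av X (K.Av Y (S.h j V V)))
  · exact Calc.bd_Av X (Calc.bd_Av Y (S.bd_h [] (by simp) V V))
  · have hQ := Calc.sm_Av X (Calc.sm_Av Y (S.Q_small₁ V C pV pC hVC cV hC hi))
    refine (hQ.smul (-2)).congr ?_
    intro j
    have e1 : K.Q (S.h j) V C = K.D V (K.D C (S.h j V C)) - (1 / 2 : ℝ) • K.D V (K.D V (S.h j C C))
      - (1 / 2 : ℝ) • K.D C (K.D C (S.h j V V)) :=
      K.Q_comm_formula (S.h j) (S.symm j) V C hVC
    have e2 : ∀ f, K.Av X (K.Av Y (K.D V f)) = 0 := by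
      intro f
      rw [hV]
      exact K.Av_Av_D X Y hXY hX hY a b f
    have e3 : ∀ f, K.D C (K.Av X (K.Av Y f)) = K.Av X (K.Av Y (K.D C f)) := by
      intro f
      rw [K.D_Av_comm X C hXC, K.D_Av_comm Y C hYC]
    rw [e3, e3, e1]
    simp only [map_sub, map_smul, e2]
    module

theorem zero_small (X Y C : 𝔤) (pX : X ∈ 𝔭) (pY : Y ∈ 𝔭) (pC : C ∈ 𝔭) (hXY : K.br X Y = 0) (hXC : K.br X C = 0) (hYC : K.br Y C = 0)
    (hX : K.Cl X) (hY : K.Cl Y) (hC : K.Cl C) (hi : LinearIndependent ℝ ![X, Y, C]) :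
    K.sm (fun j => K.Av X (K.Av Y (K.eta (S.h j) X Y C ^ 2
      - K.eta (S.h j) X X C * K.eta (S.h j) Y Y C))) := by
  have hYX : K.br Y X = 0 := by rw [K.br_anti, hXY, neg_zero]
  have hCX : K.br C X = 0 := by rw [K.br_anti, hXC, neg_zero]
  have hCY : K.br C Y = 0 := by rw [K.br_anti, hYC, neg_zero]
  have hi3 : ∀ a b c : ℝ, a • X + b • Y + c • C = 0 → a = 0 ∧ b = 0 ∧ c = 0 := by
    intro a b c h
    have h' := Fintype.linearIndependent_iff.1 hi ![a, b, c] (by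
      rw [Fin.sum_univ_three]
      simpa using h)
    exact ⟨h' 0, h' 1, h' 2⟩
  have pair : ∀ U V : 𝔤, (∀ s t : ℝ, s • U + t • V = 0 → s = 0 ∧ t = 0) →
      LinearIndependent ℝ ![U, V] := fun U V h => LinearIndependent.pair_iff.2 h
  have iXC : LinearIndependent ℝ ![X, C] := pair _ _ (fun s t h => by
    have := hi3 s 0 t (by rw [← h]; module)
    exact ⟨this.1, this.2.2⟩)
  have iYC : LinearIndependent ℝ ![Y, C] := pair _ _ (fun s t h => by
    have := hi3 0 s t (by rw [← h]; module)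
    exact ⟨this.2.1, this.2.2⟩)
  have iCX : LinearIndependent ℝ ![C, X] := pair _ _ (fun s t h => by
    have := hi3 t 0 s (by rw [← h]; module)
    exact ⟨this.2.2, this.1⟩)
  have iCY : LinearIndependent ℝ ![C, Y] := pair _ _ (fun s t h => by
    have := hi3 0 t s (by rw [← h]; module)
    exact ⟨this.2.2, this.2.1⟩)
  have iXY : LinearIndependent ℝ ![X, Y] := pair _ _ (fun s t h => by
    have := hi3 s t 0 (by rw [← h]; module)
    exact ⟨this.1, this.2.1⟩)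
  have iYX : LinearIndependent ℝ ![Y, X] := pair _ _ (fun s t h => by
    have := hi3 t s 0 (by rw [← h]; module)
    exact ⟨this.2.1, this.1⟩)
  have iXCY : LinearIndependent ℝ ![X + C, Y] := pair _ _ (fun s t h => by
    have := hi3 s t s (by rw [← h]; module)
    exact ⟨this.1, this.2.1⟩)
  have iYCX : LinearIndependent ℝ ![Y + C, X] := pair _ _ (fun s t h => by
    have := hi3 t s s (by rw [← h]; module)
    exact ⟨this.2.1, this.1⟩)
  have iXYC : LinearIndependent ℝ ![X + Y, C] := pair _ _ (fun s t h => by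
    have := hi3 s s t (by rw [← h]; module)
    exact ⟨this.1, this.2.2⟩)
  have cXC : K.Cl (X + C) := K.cl_add X C hXC hX hC
  have cYC : K.Cl (Y + C) := K.cl_add Y C hYC hY hC
  have cXY : K.Cl (X + Y) := K.cl_add X Y hXY hX hY
  have aX := S.avg_small X Y C X pC pX 1 0 (by module) hXY hXC hYC hX hY hC hX iXC
  have aY := S.avg_small X Y C Y pC pY 0 1 (by module) hXY hXC hYC hX hY hC hY iYC
  have aXY := S.avg_small X Y C (X + Y) pC (𝔭.add_mem pX pY) 1 1 (by module) hXY hXC hYC hX hY hC cXY iXYC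
  have eX : ∀ f, K.Av X (K.Av Y (K.D X f)) = 0 := by
    intro f
    have := K.Av_Av_D X Y hXY hX hY 1 0 f
    rwa [one_smul, zero_smul, add_zero] at this
  have eY : ∀ f, K.Av X (K.Av Y (K.D Y f)) = 0 := by
    intro f
    have := K.Av_Av_D X Y hXY hX hY 0 1 f
    rwa [one_smul, zero_smul, zero_add] at this
  have e3 : ∀ f, K.Av X (K.Av Y (K.D C f)) = K.D C (K.Av X (K.Av Y f)) := by
    intro f
    rw [K.D_Av_comm X C hXC, K.D_Av_comm Y C hYC]
  refine K.zero_core X Y hXY hX hY (fun j => K.eta (S.h j) X X C) (fun j => K.eta (S.h j) X Y C)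
    (fun j => K.eta (S.h j) Y Y C) (S.bd_eta [] (by simp) X X C) (S.bd_eta [] (by simp) X Y C)
    (S.bd_eta [] (by simp) Y Y C) ?_ ?_ ?_ ?_
  · -- D Y (eta X X C) - D X (eta X Y C)
    have q1 := S.Q_small₁ (Y + C) X (𝔭.add_mem pY pC) pX (by simp [hYX, hCX]) cYC hX iYCX
    have q2 := S.Q_small₁ Y X pY pX hYX hY hX iYX
    have q3 := S.Q_small₁ C X pC pX hCX hC hX iCX
    refine (((q1.sub q2).sub q3).smul (1 / 2)).congr ?_
    intro j
    rw [← K.polar (S.h j) (S.symm j) Y C X hYX hCX hYC,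
      K.eta_comm_of (S.h j) X Y C (S.symm j) hXY]
  · -- D Y (eta X Y C) - D X (eta Y Y C)
    have q1 := S.Q_small₁ (X + C) Y (𝔭.add_mem pX pC) pY (by simp [hXY, hCY]) cXC hY iXCY
    have q2 := S.Q_small₁ X Y pX pY hXY hX hY iXY
    have q3 := S.Q_small₁ C Y pC pY hCY hC hY iCY
    refine (((q1.sub q2).sub q3).smul (-(1 / 2))).congr ?_
    intro j
    have := K.polar (S.h j) (S.symm j) X C Y hXY hCY hXC
    have h2 : K.D Y (K.eta (S.h j) X Y C) - K.D X (K.eta (S.h j) Y Y C) =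
        -(K.D X (K.eta (S.h j) Y Y C) - K.D Y (K.eta (S.h j) X Y C)) := by abel
    rw [h2, this]
    module
  · -- average of eta X X C
    refine (aX.smul (-(1 / 2))).congr ?_
    intro j
    have : K.eta (S.h j) X X C = K.D X (S.h j X C) - (1 / 2 : ℝ) • K.D C (S.h j X X) := by
      simp only [Calc.eta, hXC, K.br_self, map_zero, LinearMap.zero_apply]
      module
    simp only [this, map_sub, map_smul, eX, e3]
    module
  · -- average of eta X Y C
    refine (((aXY.sub aX).sub aY).smul (-(1 / 4))).congr ?_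
    intro j
    have h1 : K.eta (S.h j) X Y C = (1 / 2 : ℝ) • (K.D X (S.h j Y C) + K.D Y (S.h j X C)
        - K.D C (S.h j X Y)) := by
      simp only [Calc.eta, hXY, hXC, hYC, map_zero, LinearMap.zero_apply, add_zero, sub_zero]
    have h2 : S.h j (X + Y) (X + Y) = S.h j X X + S.h j Y Y + (2 : ℝ) • S.h j X Y := by
      simp only [map_add, LinearMap.add_apply, S.symm j Y X]
      module
    rw [h1, h2]
    simp only [map_sub, map_add, map_smul, eX, eY, e3]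
    module

end SPert

end Pool.Agent.TH109.SS
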