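import Pool.Agent.TH109.SS.J

/-!
The Poincaré inequality along great circles.
-/

open MeasureTheory Filter Topology Pool.Agent.H842R4 Pool.Agent.H842R4.Calc
open Pool.Agent.TH109.CG2

noncomputable section

namespace Pool.Agent.TH109.SS

variable {P 𝔤 : Type} [NormedAddCommGroup 𝔤] [InnerProductSpace ℝ 𝔤]

/-- translations of functions along the flows -/
structure Tr (K : Calc P 𝔤) (M : Mean K) where
  R : 𝔤 → ℝ → K.𝒜 → K.𝒜
  ev_R : ∀ A s f p, K.ev p (R A s f) = K.ev (K.fl A s p) f
  E_R : ∀ A s f, M.E (R A s f) = M.E f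
  der : ∀ A f g s, HasDerivAt (fun u => M.E (f * R A u g)) (M.E (f * R A s (K.D A g))) s
  D_R : ∀ J U s f, K.D J (R U s f) = R U s (K.D (K.Ad U (-s) J) f)

variable {K : Calc P 𝔤} {M : Mean K} (T : Tr K M)

namespace Tr

theorem R_add (A : 𝔤) (s : ℝ) (f g : K.𝒜) : T.R A s (f + g) = T.R A s f + T.R A s g := by
  apply K.ext_ev; intro p; simp only [T.ev_R, map_add]

theorem R_sub (A : 𝔤) (s : ℝ) (f g : K.𝒜) : T.R A s (f - g) = T.R A s f - T.R A s g := by
  apply K.ext_ev; intro p; simp only [T.ev_R, map_sub]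

theorem R_smul (A : 𝔤) (s c : ℝ) (f : K.𝒜) : T.R A s (c • f) = c • T.R A s f := by
  apply K.ext_ev; intro p; simp only [T.ev_R, map_smul]

theorem R_mul (A : 𝔤) (s : ℝ) (f g : K.𝒜) : T.R A s (f * g) = T.R A s f * T.R A s g := by
  apply K.ext_ev; intro p; simp only [T.ev_R, map_mul]

theorem R_R (A : 𝔤) (s t : ℝ) (f : K.𝒜) : T.R A s (T.R A t f) = T.R A (t + s) f := by
  apply K.ext_ev; intro p; simp only [T.ev_R, K.fl_add]

include T in
theorem E_Av (A : 𝔤) (f : K.𝒜) : M.E (K.Av A f) = M.E f := by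
  have h1 : K.D A (K.Pr A f) = T.R A (2 * Real.pi) f - K.Av A f := by
    rw [K.D_Pr_comm A A (K.br_self A)]
    apply K.ext_ev
    intro p
    rw [ev_Pr, intervalIntegral.integral_mul_deriv_eq_deriv_mul (u := fun s => s)
      (u' := fun _ => 1) (v := fun s => K.ev (K.fl A s p) f) (fun s _ => hasDerivAt_id s)
      (fun s _ => K.der_ev A f p s) (continuous_const.intervalIntegrable _ _)
      ((K.cont_ev A (K.D A f) p).intervalIntegrable _ _), map_sub, ev_Av, T.ev_R]
    simp only [one_mul, zero_mul, sub_zero]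
    have := Real.pi_ne_zero
    field_simp
  have h2 := M.inv A (K.Pr A f)
  rw [h1, map_sub, T.E_R] at h2
  linarith

end Tr

theorem D_R_self (A : 𝔤) (s : ℝ) (f : K.𝒜) : K.D A (T.R A s f) = T.R A s (K.D A f) := by
  rw [T.D_R, K.Ad_fix A (-s) A (K.br_self A)]

/-- the average of a periodic function is invariant -/
theorem ev_fl_Av' (A : 𝔤) (f : K.𝒜) (hf : ∀ p, K.ev (K.fl A (2 * Real.pi) p) f = K.ev p f)
    (s : ℝ) (p : P) : K.ev (K.fl A s p) (K.Av A f) = K.ev p (K.Av A f) := by
  rw [ev_Av, ev_Av]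
  congr 1
  have hper : Function.Periodic (fun u => K.ev (K.fl A u p) f) (2 * Real.pi) := by
    intro u
    simp only
    rw [add_comm, K.fl_add, hf]
  have h1 := hper.intervalIntegral_add_eq s 0
  rw [zero_add] at h1
  rw [← h1]
  have h2 := intervalIntegral.integral_comp_add_right
    (a := 0) (b := 2 * Real.pi) (fun u => K.ev (K.fl A u p) f) s
  rw [zero_add, add_comm (2 * Real.pi) s] at h2
  rw [← h2]
  simp only [K.fl_add]

include T in
/-- Wirtinger's inequality -/
theorem wirt (A : 𝔤) (f : K.𝒜) (hf : ∀ p, K.ev (K.fl A (2 * Real.pi) p) f = K.ev p f)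
    (h0 : K.Av A f = 0) : M.E (f ^ 2) ≤ M.E (K.D A f ^ 2) := by
  rw [← T.E_Av A (f ^ 2), ← T.E_Av A (K.D A f ^ 2)]
  refine M.mono _ _ fun p => ?_
  rw [ev_Av, ev_Av]
  have hpi := Real.pi_pos
  refine mul_le_mul_of_nonneg_left ?_ (by positivity)
  have hper : ∀ u, K.ev (K.fl A (u + 2 * Real.pi) p) f = K.ev (K.fl A u p) f := by
    intro u
    rw [add_comm, K.fl_add, hf]
  have hper' : ∀ u, K.ev (K.fl A (u + 2 * Real.pi) p) (K.D A f) =
      K.ev (K.fl A u p) (K.D A f) := by
    intro u
    have h1 : HasDerivAt (fun y => K.ev (K.fl A (y + 2 * Real.pi) p) f)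
        (K.ev (K.fl A (u + 2 * Real.pi) p) (K.D A f)) u :=
      (K.der_ev A f p (u + 2 * Real.pi)).comp_add_const u (2 * Real.pi)
    rw [funext hper] at h1
    exact h1.unique (K.der_ev A f p u)
  have hw := Pool.Agent.H821R3.wirtinger (fun s => K.ev (K.fl A s p) f)
    (fun s => K.ev (K.fl A s p) (K.D A f)) (fun s => K.der_ev A f p s) (K.cont_ev A _ p)
    hper hper'
  have h1 : ∫ θ in (0 : ℝ)..(2 * Real.pi), K.ev (K.fl A θ p) f = 0 := by
    have h2 := congrArg (K.ev p) h0
    rw [ev_Av, map_zero] at h2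
    rcases mul_eq_zero.1 h2 with h3 | h3
    · exfalso
      have : (0 : ℝ) < 1 / (2 * Real.pi) := by positivity
      linarith
    · exact h3
  rw [h1] at hw
  simp only [map_pow]
  simpa using hw

/-- the antiperiodic case -/
theorem Av_anti (A : 𝔤) (f : K.𝒜) (hf : ∀ p, K.ev (K.fl A Real.pi p) f = - K.ev p f) :
    K.Av A f = 0 := by
  apply K.ext_ev
  intro p
  rw [ev_Av, map_zero]
  have h1 : ∫ s in (0 : ℝ)..(2 * Real.pi), K.ev (K.fl A s p) f =
      (∫ s in (0 : ℝ)..Real.pi, K.ev (K.fl A s p) f) +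
        ∫ s in Real.pi..(2 * Real.pi), K.ev (K.fl A s p) f :=
    (intervalIntegral.integral_add_adjacent_intervals ((K.cont_ev A f p).intervalIntegrable _ _)
      ((K.cont_ev A f p).intervalIntegrable _ _)).symm
  have h2 : ∫ s in Real.pi..(2 * Real.pi), K.ev (K.fl A s p) f =
      ∫ s in (0 : ℝ)..Real.pi, K.ev (K.fl A (s + Real.pi) p) f := by
    have h3 := intervalIntegral.integral_comp_add_right
      (a := 0) (b := Real.pi) (fun u => K.ev (K.fl A u p) f) Real.pi
    rw [h3]
    congr 1 <;> ring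
  have h4 : ∀ s, K.ev (K.fl A (s + Real.pi) p) f = - K.ev (K.fl A s p) f := by
    intro s
    rw [add_comm, K.fl_add, hf]
  rw [h1, h2]
  simp only [h4]
  rw [intervalIntegral.integral_neg]
  ring

include T in
/-- The Poincaré inequality for functions `φ` which are curls, in the form
`E φ² ≤ E (D_U φ)²`. -/
theorem poincare (U Z J : 𝔤) (φ x y : K.𝒜) (hper : ∀ p, K.ev (K.fl U (2 * Real.pi) p) φ = K.ev p φ)
    (hJ : K.D J φ = 0) (hφ : (2 : ℝ) • φ = K.D U x - K.D Z y) (hy : K.D J y = x)
    (hAd : ∀ s, K.Ad U (-s) J = Real.cos s • J + Real.sin s • Z) :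
    M.E (φ ^ 2) ≤ M.E (K.D U φ ^ 2) := by
  have hpi := Real.pi_pos
  -- the correlation function
  set c : ℝ → ℝ := fun s => M.E (φ * T.R U s φ) with hc
  have hcder : ∀ s, HasDerivAt c (M.E (φ * T.R U s (K.D U φ))) s := fun s => T.der U φ φ s
  have hcc : Continuous c := continuous_iff_continuousAt.2 fun s => (hcder s).continuousAt
  -- the identity
  have key : ∀ s, HasDerivAt (fun u => Real.sin u * M.E (φ * T.R U u x))
      (2 * Real.sin s * c s) s := by
    intro s
    have h1 := (Real.hasDerivAt_sin s).mul (T.der U φ x s)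
    refine h1.congr_deriv ?_
    have h2 := M.parts J φ (T.R U s y)
    rw [hJ, zero_mul, map_zero, neg_zero, T.D_R, hAd, map_add, LinearMap.add_apply, map_smul,
      map_smul, LinearMap.smul_apply, LinearMap.smul_apply, hy, T.R_add, T.R_smul, T.R_smul,
      mul_add, mul_smul_comm, mul_smul_comm, map_add, map_smul, map_smul, smul_eq_mul,
      smul_eq_mul] at h2
    have h3 : M.E (φ * T.R U s (K.D U x)) - M.E (φ * T.R U s (K.D Z y)) = 2 * c s := by
      rw [← map_sub, ← mul_sub, ← T.R_sub, ← hφ, T.R_smul, mul_smul_comm, map_smul, smul_eq_mul]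
    linear_combination h2 + Real.sin s * h3
  have hint : ∫ s in (0 : ℝ)..Real.pi, 2 * Real.sin s * (c s + c (s + Real.pi)) = 0 := by
    have h1 : ∀ s, HasDerivAt (fun u => Real.sin u * M.E (φ * T.R U u x) -
        Real.sin (u + Real.pi) * M.E (φ * T.R U (u + Real.pi) x))
        (2 * Real.sin s * (c s + c (s + Real.pi))) s := by
      intro s
      have h2 := (key s).sub ((key (s + Real.pi)).comp_add_const s Real.pi)
      refine h2.congr_deriv ?_
      rw [Real.sin_add_pi]
      ring
    rw [intervalIntegral.integral_eq_sub_of_hasDerivAt (fun s _ => h1 s)]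
    · simp [Real.sin_add_pi]
    · refine Continuous.intervalIntegrable ?_ _ _
      exact (continuous_const.mul Real.continuous_sin).mul
        (hcc.add (hcc.comp (continuous_id.add continuous_const)))
  -- the decomposition
  set m : K.𝒜 := K.Av U φ with hm
  set q : K.𝒜 := (1 / 2 : ℝ) • (φ + T.R U Real.pi φ) with hq
  set po : K.𝒜 := (1 / 2 : ℝ) • (φ - T.R U Real.pi φ) with hpo
  set pe : K.𝒜 := q - m with hpe
  have hRR : T.R U (2 * Real.pi) φ = φ := by
    apply K.ext_ev; intro p; rw [T.ev_R, hper]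
  have hRq : T.R U Real.pi q = q := by
    rw [hq, T.R_smul, T.R_add, T.R_R, ← two_mul, hRR, add_comm]
  have hRpo : T.R U Real.pi po = - po := by
    rw [hpo, T.R_smul, T.R_sub, T.R_R, ← two_mul, hRR, ← smul_neg, neg_sub]
  have hsum : φ = q + po := by rw [hq, hpo]; module
  have minv : ∀ s p, K.ev (K.fl U s p) m = K.ev p m := fun s p => ev_fl_Av' U φ hper s p
  have hRm : ∀ s, T.R U s m = m := by
    intro s; apply K.ext_ev; intro p; rw [T.ev_R, minv]
  have hRpe : T.R U Real.pi pe = pe := by rw [hpe, T.R_sub, hRq, hRm]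
  -- parity
  have par : ∀ f g : K.𝒜, T.R U Real.pi f = f → T.R U Real.pi g = -g → M.E (f * g) = 0 := by
    intro f g hf hg
    have h1 := T.E_R U Real.pi (f * g)
    have h2 : f * -g = -(f * g) := by ring
    rw [T.R_mul, hf, hg, h2, map_neg] at h1
    linarith
  have e1 : ∀ s, c s + c (s + Real.pi) = 2 * M.E (q * T.R U s q) := by
    intro s
    have h1 : c s + c (s + Real.pi) = 2 * M.E (φ * T.R U s q) := by
      rw [hc, hq, T.R_smul, T.R_add, T.R_R, add_comm Real.pi s, mul_smul_comm, map_smul, mul_add,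
        map_add, smul_eq_mul]
      ring
    have h2 : M.E (T.R U s q * po) = 0 := par _ _ (by rw [T.R_R, add_comm, ← T.R_R, hRq]) hRpo
    rw [h1]
    congr 1
    have h3 : φ * T.R U s q = q * T.R U s q + T.R U s q * po := by
      conv_lhs => rw [hsum]
      ring
    rw [h3, map_add, h2, add_zero]
  have mφ : M.E (m * φ) = M.E (m * m) := by
    rw [← T.E_Av U (m * φ), K.Av_mul_inv U φ m minv]
  have mRφ : M.E (m * T.R U Real.pi φ) = M.E (m * m) := by
    rw [← mφ, ← T.E_R U Real.pi (m * φ), T.R_mul, hRm]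
  have mpe : M.E (m * pe) = 0 := by
    rw [hpe, hq, mul_sub, map_sub, mul_smul_comm, map_smul, mul_add, map_add, mφ, mRφ, smul_eq_mul]
    ring
  have e2 : ∀ s, M.E (m ^ 2) - M.E (pe ^ 2) ≤ M.E (q * T.R U s q) := by
    intro s
    have h1 : q = m + pe := by rw [hpe]; abel
    have h2 : M.E (m * T.R U s pe) = 0 := by
      rw [← mpe, ← T.E_R U s (m * pe), T.R_mul, hRm]
    have h3 : M.E (q * T.R U s q) = M.E (m ^ 2) + M.E (pe * T.R U s pe) := by
      have h4 : q * T.R U s q = m ^ 2 + m * T.R U s pe + m * pe + pe * T.R U s pe := by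
        rw [h1, T.R_add, hRm]; ring
      rw [h4, map_add, map_add, map_add, h2, mpe]
      ring
    have h5 : 0 ≤ M.E ((pe + T.R U s pe) ^ 2) := M.E_nonneg _ fun p => by
      rw [map_pow]; positivity
    have h6 : (pe + T.R U s pe) ^ 2 = pe ^ 2 + (2 : ℝ) • (pe * T.R U s pe) + T.R U s (pe ^ 2) := by
      rw [pow_two pe, T.R_mul, two_smul]; ring
    rw [h6, map_add, map_add, map_smul, T.E_R, smul_eq_mul] at h5
    rw [h3]
    linarith
  have e3 : M.E (m ^ 2) ≤ M.E (pe ^ 2) := by
    by_contra hcon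
    push Not at hcon
    set δ := M.E (m ^ 2) - M.E (pe ^ 2) with hδ
    have hδ0 : 0 < δ := by linarith
    have h1 : ∫ s in (0 : ℝ)..Real.pi, 2 * Real.sin s * (2 * δ) ≤
        ∫ s in (0 : ℝ)..Real.pi, 2 * Real.sin s * (c s + c (s + Real.pi)) := by
      refine intervalIntegral.integral_mono_on hpi.le ?_ ?_ fun s hs => ?_
      · exact ((continuous_const.mul Real.continuous_sin).mul
          continuous_const).intervalIntegrable _ _
      · exact ((continuous_const.mul Real.continuous_sin).mul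
          (hcc.add (hcc.comp (continuous_id.add continuous_const)))).intervalIntegrable _ _
      · refine mul_le_mul_of_nonneg_left ?_ (mul_nonneg zero_le_two
          (Real.sin_nonneg_of_nonneg_of_le_pi hs.1 hs.2))
        rw [e1]
        linarith [e2 s]
    rw [hint] at h1
    have h2 : ∫ s in (0 : ℝ)..Real.pi, 2 * Real.sin s * (2 * δ) = 8 * δ := by
      have h3 : ∀ s, 2 * Real.sin s * (2 * δ) = (4 * δ) * Real.sin s := fun s => by ring
      simp only [h3]
      rw [intervalIntegral.integral_const_mul, integral_sin]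
      simp
      ring
    linarith
  -- periodicity of the parts
  have perR : ∀ f : K.𝒜, T.R U Real.pi f = f → ∀ p, K.ev (K.fl U Real.pi p) f = K.ev p f := by
    intro f hf p
    rw [← T.ev_R, hf]
  -- Wirtinger for the even part
  have hpe0 : K.Av U pe = 0 := by
    have h1 : K.Av U (T.R U Real.pi φ) = m := by
      apply K.ext_ev
      intro p
      rw [ev_Av, hm]
      simp only [T.ev_R]
      rw [← ev_fl_Av' U φ hper Real.pi p, ev_Av]
      congr 1
      refine intervalIntegral.integral_congr fun s _ => ?_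
      show K.ev (K.fl U Real.pi (K.fl U s p)) φ = K.ev (K.fl U s (K.fl U Real.pi p)) φ
      rw [← K.fl_add, ← K.fl_add, add_comm]
    have h2 : K.Av U m = m := by
      have h3 := K.Av_mul_inv U 1 m minv
      have h4 : K.Av U (1 : K.𝒜) = 1 := by
        have := K.Av_algebraMap U 1
        simpa using this
      rwa [mul_one, h4, mul_one] at h3
    rw [hpe, hq, map_sub, map_smul, map_add, h1, h2, ← hm]
    module
  have hpoAv : K.Av U po = 0 := Av_anti U po fun p => by rw [← T.ev_R, hRpo, map_neg]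
  have w1 : M.E (po ^ 2) ≤ M.E (K.D U po ^ 2) := by
    refine wirt T U po ?_ hpoAv
    intro p
    rw [← T.ev_R, two_mul, ← T.R_R, hRpo]
    have : T.R U Real.pi (-po) = - T.R U Real.pi po := by
      apply K.ext_ev; intro p; simp only [T.ev_R, map_neg]
    rw [this, hRpo, neg_neg]
  have w2 : M.E (pe ^ 2) ≤ (1 / 4) * M.E (K.D U pe ^ 2) := by
    have hfl : ∀ s p, K.ev (K.fl ((1 / 2 : ℝ) • U) s p) pe = K.ev (K.fl U (s / 2) p) pe := by
      intro s p
      have h1 := K.fl_comb U U (K.br_self U) (1 / 2) 0 s p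
      rw [zero_smul, add_zero, zero_mul, K.fl_zero] at h1
      rw [h1]
      congr 2
      ring
    have h1 := wirt T ((1 / 2 : ℝ) • U) pe (fun p => by
      rw [hfl, mul_div_cancel_left₀ _ two_ne_zero, perR _ hRpe]) (by
      apply K.ext_ev
      intro p
      have h2 := congrArg (K.ev p) hpe0
      rw [ev_Av, map_zero] at h2 ⊢
      simp only [hfl]
      have h3 : ∫ s in (0 : ℝ)..(2 * Real.pi), K.ev (K.fl U s p) pe = 0 := by
        rcases mul_eq_zero.1 h2 with h4 | h4
        · exfalso
          have : (0 : ℝ) < 1 / (2 * Real.pi) := by positivity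
          linarith
        · exact h4
      have h4 : ∫ s in (0 : ℝ)..(2 * Real.pi), K.ev (K.fl U (s / 2) p) pe =
          2 * ∫ s in (0 : ℝ)..Real.pi, K.ev (K.fl U s p) pe := by
        rw [intervalIntegral.integral_comp_div (fun s => K.ev (K.fl U s p) pe) two_ne_zero,
          zero_div, mul_div_cancel_left₀ _ two_ne_zero, smul_eq_mul]
      have h5 : ∫ s in (0 : ℝ)..(2 * Real.pi), K.ev (K.fl U s p) pe =
          2 * ∫ s in (0 : ℝ)..Real.pi, K.ev (K.fl U s p) pe := by
        have h6 : ∫ s in Real.pi..(2 * Real.pi), K.ev (K.fl U s p) pe =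
            ∫ s in (0 : ℝ)..Real.pi, K.ev (K.fl U s p) pe := by
          have h7 := intervalIntegral.integral_comp_add_right
            (a := 0) (b := Real.pi) (fun u => K.ev (K.fl U u p) pe) Real.pi
          rw [zero_add, ← two_mul] at h7
          rw [← h7]
          refine intervalIntegral.integral_congr fun s _ => ?_
          show K.ev (K.fl U (s + Real.pi) p) pe = K.ev (K.fl U s p) pe
          rw [add_comm, K.fl_add, perR _ hRpe]
        rw [← intervalIntegral.integral_add_adjacent_intervals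
          ((K.cont_ev U pe p).intervalIntegrable 0 Real.pi)
          ((K.cont_ev U pe p).intervalIntegrable Real.pi (2 * Real.pi)), h6]
        ring
      rw [h4, ← h5, h3, mul_zero])
    have h2 : K.D ((1 / 2 : ℝ) • U) pe ^ 2 = (1 / 4 : ℝ) • K.D U pe ^ 2 := by
      rw [map_smul, LinearMap.smul_apply, smul_pow]
      norm_num
    rwa [h2, map_smul, smul_eq_mul] at h1
  -- orthogonality
  have o1 : M.E (φ ^ 2) = M.E (m ^ 2) + M.E (pe ^ 2) + M.E (po ^ 2) := by
    have h1 : φ ^ 2 = m ^ 2 + pe ^ 2 + po ^ 2 + (2 : ℝ) • (m * pe) + (2 : ℝ) • (q * po) := by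
      have h2 : q = m + pe := by rw [hpe]; abel
      rw [hsum, h2, two_smul, two_smul]
      ring
    rw [h1, map_add, map_add, map_add, map_add, map_smul, map_smul, mpe, par q po hRq hRpo]
    simp
  have hDm : K.D U m = 0 := by
    apply K.ext_ev
    intro p
    have h1 := K.der_ev U m p 0
    simp only [minv] at h1
    have h2 := h1.unique (hasDerivAt_const (0 : ℝ) (K.ev p m))
    rw [K.fl_zero] at h2
    rw [h2, map_zero]
  have o2 : M.E (K.D U φ ^ 2) = M.E (K.D U pe ^ 2) + M.E (K.D U po ^ 2) := by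
    have h2 : K.D U φ = K.D U pe + K.D U po := by
      rw [hsum, map_add, hpe, map_sub, hDm, sub_zero]
    have h1 : K.D U φ ^ 2 = K.D U pe ^ 2 + K.D U po ^ 2 + (2 : ℝ) • (K.D U pe * K.D U po) := by
      rw [h2, two_smul]
      ring
    have h3 : T.R U Real.pi (K.D U po) = - K.D U po := by
      rw [← D_R_self, hRpo, map_neg]
    have h4 : T.R U Real.pi (K.D U pe) = K.D U pe := by
      rw [← D_R_self, hRpe]
    have h5 := par _ _ h4 h3
    have h6 : M.E ((2 : ℝ) • (K.D U pe * K.D U po)) = 2 * M.E (K.D U pe * K.D U po) :=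
      M.E.map_smul 2 _
    rw [h1, map_add, map_add, h6, h5]
    ring
  have p1 : 0 ≤ M.E (K.D U pe ^ 2) := M.E_nonneg _ fun p => by rw [map_pow]; positivity
  rw [o1, o2]
  linarith

end Pool.Agent.TH109.SS
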