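import Pool.Agent.TH109.SS.Asm
import Pool.Agent.TH109.CG3.Main3

/-!
Weight decomposition of `𝔭`, restricted roots.
-/

open Module Pool.Agent.H842R4 Pool.Agent.H842R4.Calc Pool.Agent.TH109.CG2 Pool.Agent.TH109.CG3

noncomputable section

namespace Pool.Agent.TH109.SS

section lin

variable {E : Type} [NormedAddCommGroup E] [InnerProductSpace ℝ E] [FiniteDimensional ℝ E]

theorem exists_joint_p (T1 T2 : E →ₗ[ℝ] E)
    (h1 : ∀ u v : E, inner ℝ (T1 u) v = - inner ℝ u (T1 v))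
    (h2 : ∀ u v : E, inner ℝ (T2 u) v = - inner ℝ u (T2 v))
    (hc : ∀ u, T1 (T2 u) = T2 (T1 u)) (W : Submodule ℝ E) (hW : W ≠ ⊥)
    (hW1 : ∀ u ∈ W, T1 (T1 u) ∈ W) (hW2 : ∀ u ∈ W, T2 (T2 u) ∈ W)
    (hW3 : ∀ u ∈ W, T1 (T2 u) ∈ W) :
    ∃ z ∈ W, ∃ a b c : ℝ, ‖z‖ = 1 ∧ T1 (T1 z) = a • z ∧ T2 (T2 z) = b • z ∧
      T1 (T2 z) = c • z := by
  have hnt : Nontrivial W := Submodule.nontrivial_iff_ne_bot.2 hW
  let T : Fin 3 → (W →ₗ[ℝ] W) := ![(T1 ∘ₗ T1).restrict hW1, (T2 ∘ₗ T2).restrict hW2,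
    (T1 ∘ₗ T2).restrict hW3]
  have hT : ∀ i, (T i).IsSymmetric := by
    intro i u v
    fin_cases i
    · show inner ℝ (T1 (T1 u)) (v : E) = inner ℝ (u : E) (T1 (T1 v))
      rw [h1, h1, neg_neg]
    · show inner ℝ (T2 (T2 u)) (v : E) = inner ℝ (u : E) (T2 (T2 v))
      rw [h2, h2, neg_neg]
    · show inner ℝ (T1 (T2 u)) (v : E) = inner ℝ (u : E) (T1 (T2 v))
      rw [h1, h2, neg_neg, hc]
  have hC : Pairwise (Function.onFun Commute T) := by
    intro i j _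
    show T i * T j = T j * T i
    refine LinearMap.ext fun u => Subtype.ext ?_
    fin_cases i <;> fin_cases j <;> simp [T, hc]
  have htop := LinearMap.IsSymmetric.iSup_iInf_eq_top_of_commute hT hC
  have hne : ∃ χ : Fin 3 → ℝ, (⨅ i, End.eigenspace (T i) (χ i)) ≠ ⊥ := by
    by_contra hcon
    push Not at hcon
    rw [iSup_congr hcon, iSup_bot] at htop
    exact bot_ne_top htop
  obtain ⟨χ, hχ⟩ := hne
  obtain ⟨x, hx, hx0⟩ := (Submodule.ne_bot_iff _).1 hχ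
  have hx' : ∀ i, T i x = χ i • x := fun i =>
    End.mem_eigenspace_iff.1 ((Submodule.mem_iInf _).1 hx i)
  have hx0' : (x : E) ≠ 0 := fun h => hx0 (Subtype.ext h)
  have hn : ‖(x : E)‖ ≠ 0 := norm_ne_zero_iff.2 hx0'
  refine ⟨‖(x : E)‖⁻¹ • (x : E), W.smul_mem _ x.2, χ 0, χ 1, χ 2, ?_, ?_, ?_, ?_⟩
  · rw [norm_smul, norm_inv, norm_norm, inv_mul_cancel₀ hn]
  · rw [map_smul, map_smul, smul_comm]
    congr 1
    exact congrArg Subtype.val (hx' 0)
  · rw [map_smul, map_smul, smul_comm]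
    congr 1
    exact congrArg Subtype.val (hx' 1)
  · rw [map_smul, map_smul, smul_comm]
    congr 1
    exact congrArg Subtype.val (hx' 2)

/-- weight decomposition of a subspace invariant under the products -/
theorem exists_sweights (T1 T2 : E →ₗ[ℝ] E)
    (h1 : ∀ u v : E, inner ℝ (T1 u) v = - inner ℝ u (T1 v))
    (h2 : ∀ u v : E, inner ℝ (T2 u) v = - inner ℝ u (T2 v))
    (hc : ∀ u, T1 (T2 u) = T2 (T1 u)) (d : ℕ) : ∀ (W : Submodule ℝ E), finrank ℝ W ≤ d →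
    (∀ u ∈ W, T1 (T1 u) ∈ W) → (∀ u ∈ W, T2 (T2 u) ∈ W) → (∀ u ∈ W, T1 (T2 u) ∈ W) →
    ∃ (ι0 ιR : Type) (_ : Fintype ι0) (_ : Fintype ιR) (e : ι0 → E) (μ ν : ιR → ℝ)
      (Z1 Z2 : ιR → E),
      (∀ i, e i ∈ W ∧ T1 (e i) = 0 ∧ T2 (e i) = 0) ∧ (∀ a, Z1 a ∈ W ∧ ‖Z1 a‖ = 1) ∧
      (∀ a, T1 (Z1 a) = μ a • Z2 a ∧ T1 (Z2 a) = -(μ a • Z1 a) ∧ T2 (Z1 a) = ν a • Z2 a ∧
        T2 (Z2 a) = -(ν a • Z1 a)) ∧ (∀ a, μ a ≠ 0 ∨ ν a ≠ 0) ∧
      Orthonormal ℝ Z2 ∧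
      ∀ u, ∀ v ∈ W, inner ℝ u v = ∑ i, inner ℝ u (e i) * inner ℝ v (e i) +
        ∑ a, inner ℝ u (Z1 a) * inner ℝ v (Z1 a) := by
  induction d with
  | zero =>
    intro W hd _ _ _
    have hW : W = ⊥ := Submodule.finrank_eq_zero.1 (Nat.le_zero.1 hd)
    refine ⟨Empty, Empty, inferInstance, inferInstance, Empty.elim, Empty.elim, Empty.elim,
      Empty.elim, Empty.elim, fun i => i.elim, fun a => a.elim, fun a => a.elim, fun a => a.elim,
      ?_, ?_⟩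
    · rw [orthonormal_iff_ite]
      intro a
      exact a.elim
    · intro u v hv
      rw [hW, Submodule.mem_bot] at hv
      simp [hv]
  | succ d ih =>
    intro W hd hW1 hW2 hW3
    by_cases hW : W = ⊥
    · exact ih W (by rw [hW, finrank_bot]; exact Nat.zero_le _) hW1 hW2 hW3
    obtain ⟨z, hzW, a, b, c, hz, ha, hb, hcc⟩ := exists_joint_p T1 T2 h1 h2 hc W hW hW1 hW2 hW3
    have hzz : inner ℝ z z = (1 : ℝ) := by rw [real_inner_self_eq_norm_sq, hz]; norm_num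
    set W' : Submodule ℝ E := W ⊓ (Submodule.span ℝ {z})ᗮ with hW'
    have mem' : ∀ v, v ∈ W' ↔ v ∈ W ∧ inner ℝ z v = (0 : ℝ) := by
      intro v
      rw [hW', Submodule.mem_inf, Submodule.mem_orthogonal_singleton_iff_inner_right]
    have hlt : W' < W := by
      refine lt_of_le_of_ne inf_le_left fun heq => ?_
      have := ((mem' z).1 (heq ▸ hzW)).2
      rw [hzz] at this
      exact one_ne_zero this
    have hfr : finrank ℝ W' ≤ d := by
      have := Submodule.finrank_lt_finrank_of_lt hlt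
      omega
    have s1 : ∀ u, inner ℝ z (T1 (T1 u)) = inner ℝ (T1 (T1 z)) u := by
      intro u; rw [h1, h1, neg_neg]
    have s2 : ∀ u, inner ℝ z (T2 (T2 u)) = inner ℝ (T2 (T2 z)) u := by
      intro u; rw [h2, h2, neg_neg]
    have s3 : ∀ u, inner ℝ z (T1 (T2 u)) = inner ℝ (T1 (T2 z)) u := by
      intro u; rw [hc z, h2, h1, neg_neg]
    obtain ⟨ι0, ιR, f0, fR, e, μ, ν, Z1, Z2, he, hZ, hw, hne, ho, hp⟩ := ih W' hfr
      (fun u hu => (mem' _).2 ⟨hW1 u ((mem' u).1 hu).1, by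
        rw [s1, ha, real_inner_smul_left, ((mem' u).1 hu).2, mul_zero]⟩)
      (fun u hu => (mem' _).2 ⟨hW2 u ((mem' u).1 hu).1, by
        rw [s2, hb, real_inner_smul_left, ((mem' u).1 hu).2, mul_zero]⟩)
      (fun u hu => (mem' _).2 ⟨hW3 u ((mem' u).1 hu).1, by
        rw [s3, hcc, real_inner_smul_left, ((mem' u).1 hu).2, mul_zero]⟩)
    have pars : ∀ u, ∀ v ∈ W, inner ℝ u v = inner ℝ u z * inner ℝ v z +
        (∑ i, inner ℝ u (e i) * inner ℝ v (e i) +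
        ∑ a, inner ℝ u (Z1 a) * inner ℝ v (Z1 a)) := by
      intro u v hv
      have hv' : v - inner ℝ z v • z ∈ W' := by
        rw [mem']
        refine ⟨W.sub_mem hv (W.smul_mem _ hzW), ?_⟩
        rw [inner_sub_right, real_inner_smul_right, hzz, mul_one, sub_self]
      have h3 := hp u _ hv'
      have h4 : ∀ x ∈ W', inner ℝ (v - inner ℝ z v • z) x = inner ℝ v x := by
        intro x hx
        rw [inner_sub_left, real_inner_smul_left, ((mem' x).1 hx).2, mul_zero, sub_zero]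
      have h5 : ∀ i, inner ℝ (v - inner ℝ z v • z) (e i) = inner ℝ v (e i) :=
        fun i => h4 _ (he i).1
      have h6 : ∀ i, inner ℝ (v - inner ℝ z v • z) (Z1 i) = inner ℝ v (Z1 i) :=
        fun i => h4 _ (hZ i).1
      simp only [h5, h6] at h3
      rw [inner_sub_right, real_inner_smul_right] at h3
      rw [real_inner_comm v z] at h3
      linarith
    by_cases h0 : T1 z = 0 ∧ T2 z = 0
    · -- zero weight
      refine ⟨Option ι0, ιR, inferInstance, fR, fun i => i.elim z e, μ, ν, Z1, Z2, ?_, ?_, hw, hne,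
        ho, ?_⟩
      · rintro (_ | i)
        · exact ⟨hzW, h0.1, h0.2⟩
        · exact ⟨((mem' _).1 (he i).1).1, (he i).2⟩
      · exact fun a => ⟨((mem' _).1 (hZ a).1).1, (hZ a).2⟩
      · intro u v hv
        have h3 := pars u v hv
        rw [Fintype.sum_option]
        simp only [Option.elim]
        linarith
    · -- nonzero weight
      obtain ⟨w, μ0, ν0, hww, e1, e2, e3, e4, hmn⟩ : ∃ (w : E) (μ0 ν0 : ℝ),
          inner ℝ w w = (1 : ℝ) ∧ T1 z = μ0 • w ∧ T1 w = -(μ0 • z) ∧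
          T2 z = ν0 • w ∧ T2 w = -(ν0 • z) ∧ (μ0 ≠ 0 ∨ ν0 ≠ 0) := by
        by_cases hT1 : T1 z = 0
        · have hT2 : T2 z ≠ 0 := fun h => h0 ⟨hT1, h⟩
          have hn : ‖T2 z‖ ≠ 0 := norm_ne_zero_iff.2 hT2
          have hb' : b = -‖T2 z‖ ^ 2 := by
            have := h2 z (T2 z)
            rw [hb, real_inner_smul_right, hzz, real_inner_self_eq_norm_sq] at this
            linarith
          refine ⟨‖T2 z‖⁻¹ • T2 z, 0, ‖T2 z‖, ?_, ?_, ?_, ?_, ?_, ?_⟩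
          · rw [real_inner_smul_left, real_inner_smul_right, real_inner_self_eq_norm_sq]
            field_simp
          · rw [hT1, zero_smul]
          · rw [map_smul, hc, hT1, map_zero, smul_zero, zero_smul, neg_zero]
          · rw [smul_smul, mul_inv_cancel₀ hn, one_smul]
          · rw [map_smul, hb, smul_smul, ← neg_smul]
            congr 1
            rw [hb']
            field_simp
          · exact Or.inr hn
        · have hn : ‖T1 z‖ ≠ 0 := norm_ne_zero_iff.2 hT1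
          have ha' : a = -‖T1 z‖ ^ 2 := by
            have := h1 z (T1 z)
            rw [ha, real_inner_smul_right, hzz, real_inner_self_eq_norm_sq] at this
            linarith
          have ha0 : a ≠ 0 := by rw [ha']; exact neg_ne_zero.2 (pow_ne_zero _ hn)
          -- `a T2 z = c T1 z`
          have h8 : a • T2 z = c • T1 z := by
            rw [← map_smul, ← ha, ← map_smul, ← hcc, hc, hc]
          have h9 : T2 z = (a⁻¹ * c) • T1 z := by
            rw [mul_smul, ← h8, smul_smul, inv_mul_cancel₀ ha0, one_smul]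
          refine ⟨‖T1 z‖⁻¹ • T1 z, ‖T1 z‖, (a⁻¹ * c) * ‖T1 z‖, ?_, ?_, ?_,
            ?_, ?_, ?_⟩
          · rw [real_inner_smul_left, real_inner_smul_right, real_inner_self_eq_norm_sq]
            field_simp
          · rw [smul_smul, mul_inv_cancel₀ hn, one_smul]
          · rw [map_smul, ha, smul_smul, ← neg_smul]
            congr 1
            rw [ha']
            field_simp
          · rw [smul_smul, mul_assoc, mul_inv_cancel₀ hn, mul_one]
            exact h9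
          · rw [map_smul, ← hc, hcc, smul_smul, ← neg_smul]
            congr 1
            rw [ha']
            field_simp
          · exact Or.inl hn
      refine ⟨ι0, Option ιR, f0, inferInstance, e, fun i => i.elim μ0 μ, fun i => i.elim ν0 ν,
        fun i => i.elim z Z1, fun i => i.elim w Z2, ?_, ?_, ?_, ?_, ?_, ?_⟩
      · exact fun i => ⟨((mem' _).1 (he i).1).1, (he i).2⟩
      · rintro (_ | a)
        · exact ⟨hzW, hz⟩
        · exact ⟨((mem' _).1 (hZ a).1).1, (hZ a).2⟩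
      · rintro (_ | a)
        · exact ⟨e1, e2, e3, e4⟩
        · exact hw a
      · rintro (_ | a)
        · exact hmn
        · exact hne a
      · classical
        rw [orthonormal_iff_ite] at ho ⊢
        have k1 : ∀ a b, inner ℝ (Z2 a) (Z2 b) = if a = b then (1 : ℝ) else 0 := ho
        have m1 : ∀ a, inner ℝ w (Z2 a) = (0 : ℝ) := by
          intro x
          have hz1 : inner ℝ z (Z1 x) = (0 : ℝ) := ((mem' _).1 (hZ x).1).2
          rcases hmn with h | h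
          · have h5 := h1 z (Z2 x)
            rw [e1, (hw x).2.1, inner_neg_right, real_inner_smul_right, real_inner_smul_left, hz1,
              mul_zero, neg_zero, neg_zero] at h5
            exact (mul_eq_zero.1 h5).resolve_left h
          · have h5 := h2 z (Z2 x)
            rw [e3, (hw x).2.2.2, inner_neg_right, real_inner_smul_right, real_inner_smul_left, hz1,
              mul_zero, neg_zero, neg_zero] at h5
            exact (mul_eq_zero.1 h5).resolve_left h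
        have n1 : ∀ a, inner ℝ (Z2 a) w = (0 : ℝ) := fun a => by rw [real_inner_comm]; exact m1 a
        rintro (_ | x) (_ | y) <;>
          simp [k1, m1, n1, hww, -inner_self_eq_norm_sq_to_K]
      · intro u v hv
        have h3 := pars u v hv
        rw [Fintype.sum_option]
        simp only [Option.elim]
        linarith

end lin

variable {P 𝔤 : Type} [NormedAddCommGroup 𝔤] [InnerProductSpace ℝ 𝔤]

/-- commuting operators have a common weight line in every subspace invariant under products -/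
theorem exists_sroot (K : Calc P 𝔤) [FiniteDimensional ℝ 𝔤] (T : Submodule ℝ 𝔤)
    (hT : ∀ H ∈ T, ∀ H' ∈ T, K.br H H' = 0) (W : Submodule ℝ 𝔤) (hW : W ≠ ⊥)
    (hWT : ∀ H ∈ T, ∀ H' ∈ T, ∀ u ∈ W, K.br H (K.br H' u) ∈ W) :
    ∃ z ∈ W, z ≠ 0 ∧ ((∀ H ∈ T, K.br H z = 0) ∨
      ∃ w, ∃ β : 𝔤 → ℝ, ‖z‖ = 1 ∧ ‖w‖ = 1 ∧ (∀ H ∈ T, K.br H z = β H • w) ∧
        (∀ H ∈ T, K.br H w = -(β H • z)) ∧ ∃ H ∈ T, β H ≠ 0) := by
  have hnt : Nontrivial W := Submodule.nontrivial_iff_ne_bot.2 hW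
  have hcomm : ∀ H ∈ T, ∀ H' ∈ T, ∀ u, K.br H (K.br H' u) = K.br H' (K.br H u) := by
    intro H hH H' hH' u
    rw [K.jac, hT H hH H' hH', map_zero, LinearMap.zero_apply, zero_add]
  let S : T × T → (W →ₗ[ℝ] W) := fun x => (K.br x.1 ∘ₗ K.br x.2).restrict
    (fun u hu => hWT x.1 x.1.2 x.2 x.2.2 u hu)
  have hS : ∀ x, (S x).IsSymmetric := by
    rintro ⟨H, H'⟩ u v
    show inner ℝ (K.br H (K.br H' u)) (v : 𝔤) = inner ℝ (u : 𝔤) (K.br H (K.br H' v))
    rw [br_skew, br_skew, neg_neg, hcomm H' H'.2 H H.2]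
  have hC : Pairwise (Function.onFun Commute S) := by
    rintro ⟨a, b⟩ ⟨c, d⟩ _
    show S (a, b) * S (c, d) = S (c, d) * S (a, b)
    refine LinearMap.ext fun u => Subtype.ext ?_
    show K.br a (K.br b (K.br c (K.br d u))) = K.br c (K.br d (K.br a (K.br b u)))
    rw [hcomm b b.2 c c.2, hcomm a a.2 c c.2, hcomm b b.2 d d.2, hcomm a a.2 d d.2]
  have htop := LinearMap.IsSymmetric.iSup_iInf_eq_top_of_commute hS hC
  have hne : ∃ χ : T × T → ℝ, (⨅ i, End.eigenspace (S i) (χ i)) ≠ ⊥ := by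
    by_contra hcon
    push Not at hcon
    rw [iSup_congr hcon, iSup_bot] at htop
    exact bot_ne_top htop
  obtain ⟨χ, hχ⟩ := hne
  obtain ⟨x, hx, hx0⟩ := (Submodule.ne_bot_iff _).1 hχ
  have hx' : ∀ H H' : T, K.br H (K.br H' x) = χ (H, H') • (x : 𝔤) := fun H H' =>
    congrArg Subtype.val (End.mem_eigenspace_iff.1 ((Submodule.mem_iInf _).1 hx (H, H')))
  have hx0' : (x : 𝔤) ≠ 0 := fun h => hx0 (Subtype.ext h)
  have hn : ‖(x : 𝔤)‖ ≠ 0 := norm_ne_zero_iff.2 hx0'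
  by_cases h0 : ∀ H ∈ T, K.br H x = 0
  · exact ⟨x, x.2, hx0', Or.inl h0⟩
  push Not at h0
  obtain ⟨H0, hH0, hne0⟩ := h0
  set z : 𝔤 := ‖(x : 𝔤)‖⁻¹ • (x : 𝔤) with hz
  have hz1 : ‖z‖ = 1 := by rw [hz, norm_smul, norm_inv, norm_norm, inv_mul_cancel₀ hn]
  have hzz : inner ℝ z z = (1 : ℝ) := by rw [real_inner_self_eq_norm_sq, hz1]; norm_num
  have hzχ : ∀ H H' : T, K.br H (K.br H' z) = χ (H, H') • z := by
    intro H H'
    rw [hz, map_smul, map_smul, hx', smul_comm]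
  have hz0 : K.br H0 z ≠ 0 := by
    intro h
    rw [hz, map_smul] at h
    exact hne0 ((smul_eq_zero.1 h).resolve_left (inv_ne_zero hn))
  set n : ℝ := ‖K.br H0 z‖ with hn'
  have hn0 : n ≠ 0 := norm_ne_zero_iff.2 hz0
  set H0' : T := ⟨H0, hH0⟩ with hH0'
  have ha : χ (H0', H0') = -n ^ 2 := by
    have h1 := br_skew K H0 z (K.br H0 z)
    have h2 : K.br H0 (K.br H0 z) = χ (H0', H0') • z := hzχ H0' H0'
    rw [h2, real_inner_smul_right, hzz, real_inner_self_eq_norm_sq] at h1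
    linarith
  have ha0 : χ (H0', H0') ≠ 0 := by rw [ha]; exact neg_ne_zero.2 (pow_ne_zero _ hn0)
  have hzW : z ∈ W := W.smul_mem _ x.2
  refine ⟨z, hzW, ?_, Or.inr ?_⟩
  · intro h
    rw [h, norm_zero] at hz1
    exact zero_ne_one hz1
  classical
  have key : ∀ (H : 𝔤) (hH : H ∈ T), K.br H z = ((-n ^ 2)⁻¹ * χ (H0', ⟨H, hH⟩)) • K.br H0 z := by
    intro H hH
    have h8 : χ (H0', H0') • K.br H z = χ (H0', ⟨H, hH⟩) • K.br H0 z := by
      have e1 : K.br H (K.br H0 (K.br H0 z)) = χ (H0', H0') • K.br H z := by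
        have : K.br H0 (K.br H0 z) = χ (H0', H0') • z := hzχ H0' H0'
        rw [this, map_smul]
      have e2 : K.br H0 (K.br H0 (K.br H z)) = χ (H0', ⟨H, hH⟩) • K.br H0 z := by
        have : K.br H0 (K.br H z) = χ (H0', ⟨H, hH⟩) • z := hzχ H0' ⟨H, hH⟩
        rw [this, map_smul]
      rw [← e1, ← e2, hcomm H hH H0 hH0, hcomm H hH H0 hH0]
    rw [mul_smul, ← h8, smul_smul, ha, inv_mul_cancel₀ (by rw [← ha]; exact ha0), one_smul]
  have hsymm : ∀ (H : 𝔤) (hH : H ∈ T), χ (⟨H, hH⟩, H0') = χ (H0', ⟨H, hH⟩) := by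
    intro H hH
    have h1 : K.br H (K.br H0 z) = χ (⟨H, hH⟩, H0') • z := hzχ ⟨H, hH⟩ H0'
    have h2 : K.br H0 (K.br H z) = χ (H0', ⟨H, hH⟩) • z := hzχ H0' ⟨H, hH⟩
    rw [hcomm H hH H0 hH0, h2] at h1
    have h3 := congrArg (fun v => inner ℝ v z) h1
    simp only [real_inner_smul_left, hzz, mul_one] at h3
    exact h3.symm
  refine ⟨n⁻¹ • K.br H0 z,
    fun H => if hH : H ∈ T then (-n ^ 2)⁻¹ * χ (H0', ⟨H, hH⟩) * n else 0, hz1, ?_, ?_, ?_, H0, hH0,
    ?_⟩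
  · rw [norm_smul, norm_inv, ← hn', Real.norm_of_nonneg (norm_nonneg _), inv_mul_cancel₀ hn0]
  · intro H hH
    simp only [dif_pos hH]
    rw [smul_smul, mul_assoc, mul_inv_cancel₀ hn0, mul_one]
    exact key H hH
  · intro H hH
    simp only [dif_pos hH]
    have h1 : K.br H (K.br H0 z) = χ (⟨H, hH⟩, H0') • z := hzχ ⟨H, hH⟩ H0'
    rw [map_smul, h1, hsymm, smul_smul, ← neg_smul]
    congr 1
    field_simp
  · simp only [dif_pos hH0]
    exact mul_ne_zero (mul_ne_zero (inv_ne_zero (neg_ne_zero.2 (pow_ne_zero _ hn0))) ha0) hn0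

/-- maximal abelian subspaces of `𝔭` -/
structure SMax (K : Calc P 𝔤) (𝔭 T : Submodule ℝ 𝔤) : Prop where
  le : T ≤ 𝔭
  ab : ∀ H ∈ T, ∀ H' ∈ T, K.br H H' = 0
  max : ∀ C ∈ 𝔭, (∀ H ∈ T, K.br H C = 0) → C ∈ T

theorem exists_smax (K : Calc P 𝔤) [FiniteDimensional ℝ 𝔤] (𝔭 T0 : Submodule ℝ 𝔤) (hp : T0 ≤ 𝔭)
    (h0 : ∀ H ∈ T0, ∀ H' ∈ T0, K.br H H' = 0) : ∃ T, T0 ≤ T ∧ SMax K 𝔭 T := by
  obtain ⟨T, ⟨hle, hTp, hab⟩, hmax⟩ := WellFounded.has_min (wellFounded_gt (α := Submodule ℝ 𝔤))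
    {T | T0 ≤ T ∧ T ≤ 𝔭 ∧ ∀ H ∈ T, ∀ H' ∈ T, K.br H H' = 0} ⟨T0, le_rfl, hp, h0⟩
  refine ⟨T, hle, hTp, hab, fun C hCp hC => ?_⟩
  have hmem : (T ⊔ Submodule.span ℝ {C}) ∈
      {T | T0 ≤ T ∧ T ≤ 𝔭 ∧ ∀ H ∈ T, ∀ H' ∈ T, K.br H H' = 0} := by
    refine ⟨hle.trans le_sup_left, sup_le hTp ?_, ?_⟩
    · rw [Submodule.span_le]
      rintro x rfl
      exact hCp
    intro H hH H' hH'
    obtain ⟨a, ha, c, hc, rfl⟩ := Submodule.mem_sup.1 hH
    obtain ⟨a', ha', c', hc', rfl⟩ := Submodule.mem_sup.1 hH'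
    obtain ⟨s, rfl⟩ := Submodule.mem_span_singleton.1 hc
    obtain ⟨s', rfl⟩ := Submodule.mem_span_singleton.1 hc'
    have h1 : K.br C a' = 0 := by rw [K.br_anti, hC a' ha', neg_zero]
    simp only [map_add, LinearMap.add_apply, map_smul, LinearMap.smul_apply, hab a ha a' ha',
      hC a ha, h1, K.br_self, smul_zero, add_zero]
  by_contra hCT
  refine hmax _ hmem ?_
  refine lt_of_le_of_ne le_sup_left fun heq => hCT ?_
  rw [heq]
  exact Submodule.mem_sup_right (Submodule.mem_span_singleton_self C)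

variable {K : Calc P 𝔤} {𝔭 : Submodule ℝ 𝔤}

/-- a triple whose first element is the coroot of a restricted root -/
structure STri (K : Calc P 𝔤) (𝔭 T : Submodule ℝ 𝔤) (e1 e2 e3 : 𝔤) : Prop where
  tri : Tri K e1 e2 e3
  mem : e1 ∈ T
  mem2 : e2 ∈ 𝔭
  mem3 : e3 ∈ 𝔭ᗮ
  ne : e1 ≠ 0
  rt : ∀ H ∈ T, inner ℝ H e1 = (0 : ℝ) → K.br H e2 = 0 ∧ K.br H e3 = 0

theorem w_mem (hS : SymP K 𝔭) {T : Submodule ℝ 𝔤} (hT : SMax K 𝔭 T) {z w : 𝔤} {β : 𝔤 → ℝ}
    (hzp : z ∈ 𝔭) (h1 : ∀ H ∈ T, K.br H z = β H • w)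
    (h3 : ∃ H ∈ T, β H ≠ 0) : w ∈ 𝔭ᗮ := by
  obtain ⟨H, hH, hne⟩ := h3
  have h4 := hS.pp H z (hT.le hH) hzp
  rw [h1 H hH] at h4
  have h5 := 𝔭ᗮ.smul_mem (β H)⁻¹ h4
  rwa [smul_smul, inv_mul_cancel₀ hne, one_smul] at h5

/-- the coroot triple of a root -/
theorem stri_of_root (hS : SymP K 𝔭) {T : Submodule ℝ 𝔤} (hT : SMax K 𝔭 T) {z w : 𝔤} {β : 𝔤 → ℝ}
    (hzp : z ∈ 𝔭) (hz : ‖z‖ = 1)
    (h1 : ∀ H ∈ T, K.br H z = β H • w) (h2 : ∀ H ∈ T, K.br H w = -(β H • z))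
    (h3 : ∃ H ∈ T, β H ≠ 0) :
    ∃ b ∈ T, b ≠ 0 ∧ (∀ H ∈ T, β H = inner ℝ b H) ∧
      STri K 𝔭 T ((2 / ‖b‖ ^ 2) • b) ((2 / ‖b‖) • z) ((2 / ‖b‖) • w) := by
  have hwp : w ∈ 𝔭ᗮ := w_mem hS hT hzp h1 h3
  have hzz : inner ℝ z z = (1 : ℝ) := by rw [real_inner_self_eq_norm_sq, hz]; norm_num
  have hb : K.br z w ∈ T := by
    refine hT.max _ (hS.pk z w hzp hwp) fun H hH => ?_
    rw [K.jac, h1 H hH, h2 H hH, map_smul, LinearMap.smul_apply, K.br_self, map_neg, map_smul,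
      K.br_self, smul_zero, neg_zero, add_zero]
  have hβ : ∀ H ∈ T, β H = inner ℝ (K.br z w) H := by
    intro H hH
    rw [K.ad_inv, K.br_anti w H, h2 H hH, neg_neg, real_inner_smul_right, hzz, mul_one]
  have hb0 : K.br z w ≠ 0 := by
    intro h
    obtain ⟨H, hH, hne⟩ := h3
    rw [hβ H hH, h, inner_zero_left] at hne
    exact hne rfl
  set b := K.br z w with hbd
  have hn : ‖b‖ ≠ 0 := norm_ne_zero_iff.2 hb0
  have hβb : β b = ‖b‖ ^ 2 := by rw [hβ b hb, real_inner_self_eq_norm_sq]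
  refine ⟨b, hb, hb0, hβ, ⟨⟨?_, ?_, ?_⟩, T.smul_mem _ hb, 𝔭.smul_mem _ hzp,
    𝔭ᗮ.smul_mem _ hwp, ?_, ?_⟩⟩
  · simp only [map_smul, LinearMap.smul_apply]
    rw [h1 b hb, hβb, smul_smul, smul_smul, smul_smul]
    congr 1
    field_simp
  · simp only [map_smul, LinearMap.smul_apply]
    rw [← hbd, smul_smul, smul_smul]
    congr 1
    field_simp
  · rw [K.br_anti]
    simp only [map_smul, LinearMap.smul_apply]
    rw [h2 b hb, hβb, smul_neg, smul_neg, neg_neg, smul_smul, smul_smul, smul_smul]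
    congr 1
    field_simp
  · exact smul_ne_zero (by positivity) hb0
  · intro H hH hi
    rw [real_inner_smul_right] at hi
    have h4 : inner ℝ H b = (0 : ℝ) := (mul_eq_zero.1 hi).resolve_left (by positivity)
    have h5 : β H = 0 := by rw [hβ H hH, real_inner_comm]; exact h4
    rw [map_smul, map_smul, h1 H hH, h2 H hH, h5]
    simp

theorem exists_stri [FiniteDimensional ℝ 𝔤] (hS : SymP K 𝔭) {T : Submodule ℝ 𝔤} (hT : SMax K 𝔭 T)
    (hne : ∃ A ∈ 𝔭, ∃ B ∈ 𝔭, K.br A B ≠ 0) : ∃ e1 e2 e3, STri K 𝔭 T e1 e2 e3 := by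
  have hTtop : 𝔭 ⊓ Tᗮ ≠ ⊥ := by
    intro h
    have h1 : 𝔭 ≤ T := by
      intro u hu
      have h4 : u - T.starProjection u ∈ 𝔭 ⊓ Tᗮ :=
        ⟨𝔭.sub_mem hu (hT.le (T.starProjection_apply_mem u)),
          Submodule.sub_starProjection_mem_orthogonal u⟩
      rw [h, Submodule.mem_bot] at h4
      rw [sub_eq_zero.1 h4]
      exact T.starProjection_apply_mem u
    obtain ⟨A, hA, B, hB, hAB⟩ := hne
    exact hAB (hT.ab A (h1 hA) B (h1 hB))
  obtain ⟨z, hz, hz0, h | ⟨w, β, h1, h2, h3, h4, h5⟩⟩ := exists_sroot K T hT.ab (𝔭 ⊓ Tᗮ) hTtop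
    (fun H hH H' hH' u hu => by
      refine ⟨hS.pk H _ (hT.le hH) (hS.pp H' u (hT.le hH') hu.1), ?_⟩
      rw [SetLike.mem_coe, Submodule.mem_orthogonal]
      intro H'' hH''
      have h1 := br_skew K H H'' (K.br H' u)
      rw [hT.ab H hH H'' hH'', inner_zero_left] at h1
      linarith)
  · exfalso
    have h1 : z ∈ T := hT.max z hz.1 h
    have h2 := (Submodule.mem_orthogonal _ _).1 hz.2 z h1
    exact hz0 (inner_self_eq_zero.1 h2)
  · obtain ⟨b, _, _, _, h6⟩ := stri_of_root hS hT hz.1 h1 h3 h4 h5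
    exact ⟨_, _, _, h6⟩

/-- properties of the shortest restricted coroot -/
structure SShort (K : Calc P 𝔤) (𝔭 : Submodule ℝ 𝔤) (X : 𝔤) : Prop where
  le : ∀ (m : ℤ) (A B : 𝔤), A ∈ 𝔭 → A ≠ 0 → K.br X A = (m : ℝ) • B → K.br X B = -((m : ℝ) • A) →
    -2 ≤ m ∧ m ≤ 2
  cor : ∀ A B : 𝔤, A ∈ 𝔭 → K.br X A = (2 : ℝ) • B → K.br X B = -((2 : ℝ) • A) →
    ∃ c : ℝ, K.br A B = c • X

theorem exists_sshort [FiniteDimensional ℝ 𝔤] (hSy : SymP K 𝔭) {T : Submodule ℝ 𝔤}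
    (hT : SMax K 𝔭 T) (hne : ∃ A ∈ 𝔭, ∃ B ∈ 𝔭, K.br A B ≠ 0)
    (hN : ∀ e1 e2 e3, Tri K e1 e2 e3 → ∃ n : ℕ, ‖e1‖ ^ 2 = n) :
    ∃ e1 e2 e3, STri K 𝔭 T e1 e2 e3 ∧ SShort K 𝔭 e1 := by
  classical
  have hex : ∃ n : ℕ, ∃ e1 e2 e3, STri K 𝔭 T e1 e2 e3 ∧ ‖e1‖ ^ 2 = n := by
    obtain ⟨e1, e2, e3, h⟩ := exists_stri hSy hT hne
    obtain ⟨n, hn⟩ := hN e1 e2 e3 h.tri
    exact ⟨n, e1, e2, e3, h, hn⟩
  obtain ⟨X, e2, e3, hX, hXn⟩ := Nat.find_spec hex
  have hmin : ∀ e1 e2 e3, STri K 𝔭 T e1 e2 e3 → ‖X‖ ^ 2 ≤ ‖e1‖ ^ 2 := by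
    intro f1 f2 f3 hf
    obtain ⟨n, hn⟩ := hN f1 f2 f3 hf.tri
    rw [hXn, hn]
    exact_mod_cast Nat.find_min' hex ⟨f1, f2, f3, hf, hn⟩
  have hX0 : ‖X‖ ≠ 0 := norm_ne_zero_iff.2 hX.ne
  have hXpos : 0 < ‖X‖ ^ 2 := by positivity
  have hcomm : ∀ H ∈ T, ∀ H' ∈ T, ∀ u, K.br H (K.br H' u) = K.br H' (K.br H u) := by
    intro H hH H' hH' u
    rw [K.jac, hT.ab H hH H' hH', map_zero, LinearMap.zero_apply, zero_add]
  -- the key estimate
  have key : ∀ (μ : ℝ) (W : Submodule ℝ 𝔤), μ ≠ 0 → W ≠ ⊥ → W ≤ 𝔭 →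
      (∀ H ∈ T, ∀ H' ∈ T, ∀ u ∈ W, K.br H (K.br H' u) ∈ W) →
      (∀ u ∈ W, K.br X (K.br X u) = -(μ ^ 2 • u)) →
      μ ^ 2 ≤ 4 ∧ (μ ^ 2 = 4 → ∃ z ∈ W, z ≠ 0 ∧ ∀ H ∈ T,
        K.br H z = (inner ℝ X H / ‖X‖ ^ 2) • K.br X z) := by
    intro μ W hμ hW hWp hinv hsq
    obtain ⟨z, hz, hz0, h | ⟨w, β, h1, h2, h3, h4, h5⟩⟩ := exists_sroot K T hT.ab W hW hinv
    · exfalso
      have h6 := hsq z hz
      rw [h X hX.mem, map_zero] at h6
      have h7 := neg_eq_zero.1 h6.symm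
      rcases smul_eq_zero.1 h7 with h8 | h8
      · exact hμ (pow_eq_zero_iff two_ne_zero |>.1 h8)
      · exact hz0 h8
    obtain ⟨b, hb, hb0, hβ, hR⟩ := stri_of_root hSy hT (hWp hz) h1 h3 h4 h5
    have hbn : ‖b‖ ≠ 0 := norm_ne_zero_iff.2 hb0
    have hle := hmin _ _ _ hR
    have e1 : ‖(2 / ‖b‖ ^ 2) • b‖ ^ 2 = 4 / ‖b‖ ^ 2 := by
      rw [norm_smul, Real.norm_of_nonneg (by positivity)]
      field_simp
      ring
    rw [e1] at hle
    have hle' : ‖X‖ ^ 2 * ‖b‖ ^ 2 ≤ 4 := by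
      rwa [le_div_iff₀ (by positivity)] at hle
    have hβX : (inner ℝ b X : ℝ) ^ 2 = μ ^ 2 := by
      have h6 := hsq z hz
      rw [h3 X hX.mem, map_smul, h4 X hX.mem, smul_neg, smul_smul] at h6
      have h7 := congrArg (fun v => inner ℝ v z) (neg_injective h6)
      simp only [real_inner_smul_left] at h7
      have h8 : (inner ℝ z z : ℝ) ≠ 0 := inner_self_ne_zero.2 hz0
      have h9 := mul_right_cancel₀ h8 h7
      rw [← h9, hβ X hX.mem]
      ring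
    have hCS : (inner ℝ b X : ℝ) ^ 2 ≤ ‖b‖ ^ 2 * ‖X‖ ^ 2 := by
      have := abs_real_inner_le_norm b X
      rw [← mul_pow, ← sq_abs (inner ℝ b X)]
      exact pow_le_pow_left₀ (abs_nonneg _) this 2
    refine ⟨by nlinarith, fun hμ4 => ⟨z, hz, hz0, fun H hH => ?_⟩⟩
    -- equality in Cauchy–Schwarz
    have hbX : b = (inner ℝ b X / ‖X‖ ^ 2) • X := by
      have h6 : inner ℝ (b - (inner ℝ b X / ‖X‖ ^ 2) • X) (b - (inner ℝ b X / ‖X‖ ^ 2) • X) =
          (0 : ℝ) := by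
        have hXb : (inner ℝ X b : ℝ) = inner ℝ b X := real_inner_comm _ _
        have hn2 : ‖b‖ ^ 2 * ‖X‖ ^ 2 = 4 := by nlinarith
        have e : inner ℝ (b - (inner ℝ b X / ‖X‖ ^ 2) • X) (b - (inner ℝ b X / ‖X‖ ^ 2) • X) =
            ‖b‖ ^ 2 - (inner ℝ b X : ℝ) ^ 2 / ‖X‖ ^ 2 := by
          rw [inner_sub_left, inner_sub_right, inner_sub_right, real_inner_smul_left,
            real_inner_smul_left, real_inner_smul_right, real_inner_smul_right,
            real_inner_self_eq_norm_sq, real_inner_self_eq_norm_sq, hXb]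
          field_simp
          ring
        rw [e, hβX, hμ4, ← hn2]
        field_simp
        ring
      exact sub_eq_zero.1 (inner_self_eq_zero.1 h6)
    rw [h3 H hH, h3 X hX.mem, smul_smul]
    congr 1
    rw [hβ H hH, hβ X hX.mem]
    conv_lhs => rw [hbX]
    rw [real_inner_smul_left]
    ring
  -- eigenspaces
  let V : ℝ → Submodule ℝ 𝔤 := fun μ =>
    { carrier := {u | u ∈ 𝔭 ∧ K.br X (K.br X u) = -(μ ^ 2 • u)}
      add_mem' := by
        intro a b ha hb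
        simp only [Set.mem_ofPred_eq] at ha hb ⊢
        refine ⟨𝔭.add_mem ha.1 hb.1, ?_⟩
        rw [map_add, map_add, ha.2, hb.2, smul_add, neg_add]
      zero_mem' := by simp
      smul_mem' := by
        intro c a ha
        simp only [Set.mem_ofPred_eq] at ha ⊢
        refine ⟨𝔭.smul_mem _ ha.1, ?_⟩
        rw [map_smul, map_smul, ha.2, smul_neg, smul_comm] }
  have hVp : ∀ μ, V μ ≤ 𝔭 := fun μ u hu => hu.1
  have hpp : ∀ H ∈ T, ∀ H' ∈ T, ∀ u ∈ 𝔭, K.br H (K.br H' u) ∈ 𝔭 := fun H hH H' hH' u hu =>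
    hSy.pk H _ (hT.le hH) (hSy.pp H' u (hT.le hH') hu)
  have hVinv : ∀ μ, ∀ H ∈ T, ∀ H' ∈ T, ∀ u ∈ V μ, K.br H (K.br H' u) ∈ V μ := by
    intro μ H hH H' hH' u hu
    refine ⟨hpp H hH H' hH' u hu.1, ?_⟩
    have hu' : K.br X (K.br X u) = -(μ ^ 2 • u) := hu.2
    rw [hcomm X hX.mem H hH, hcomm X hX.mem H hH, hcomm X hX.mem H' hH', hcomm X hX.mem H' hH',
      hu', map_neg, map_neg, map_smul, map_smul]
  have hVmem : ∀ (μ : ℝ) (A B : 𝔤), A ∈ 𝔭 → K.br X A = μ • B → K.br X B = -(μ • A) → A ∈ V μ := by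
    intro μ A B hA h1 h2
    refine ⟨hA, ?_⟩
    rw [h1, map_smul, h2, smul_neg, smul_smul]
    congr 2
    ring
  refine ⟨X, e2, e3, hX, ⟨?_, ?_⟩⟩
  · intro m A B hAp hA h1 h2
    by_cases hm : m = 0
    · subst hm; norm_num
    have hm' : (m : ℝ) ≠ 0 := by exact_mod_cast hm
    have hV : V m ≠ ⊥ := by
      rw [Submodule.ne_bot_iff]
      exact ⟨A, hVmem m A B hAp h1 h2, hA⟩
    have h3 := (key m (V m) hm' hV (hVp m) (hVinv m) (fun u hu => hu.2)).1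
    have h4 : m ^ 2 ≤ 4 := by exact_mod_cast h3
    constructor <;> nlinarith
  · intro A B hAp h1 h2
    -- the subspace on which `T` acts through the coroot
    let U : Submodule ℝ 𝔤 :=
      { carrier := {u | ∀ H ∈ T, K.br H u = (inner ℝ X H / ‖X‖ ^ 2) • K.br X u}
        add_mem' := by
          intro a b ha hb H hH
          rw [map_add, map_add, ha H hH, hb H hH, smul_add]
        zero_mem' := by intro H hH; simp
        smul_mem' := by
          intro c a ha H hH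
          rw [map_smul, map_smul, ha H hH, smul_comm] }
    have hUinv : ∀ H ∈ T, ∀ u ∈ U, K.br H u ∈ U := by
      intro H hH u hu H' hH'
      have hu' : K.br H' u = (inner ℝ X H' / ‖X‖ ^ 2) • K.br X u := hu H' hH'
      rw [hcomm H' hH' H hH, hu', map_smul, hcomm H hH X hX.mem]
    have hW : V 2 ⊓ (U ⊓ V 2)ᗮ = ⊥ := by
      by_contra hW
      obtain ⟨z, hz, hz0, hz'⟩ := (key 2 (V 2 ⊓ (U ⊓ V 2)ᗮ) two_ne_zero hW
        (inf_le_left.trans (hVp 2)) (by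
        intro H hH H' hH' u hu
        refine ⟨hVinv 2 H hH H' hH' u hu.1, ?_⟩
        rw [SetLike.mem_coe, Submodule.mem_orthogonal]
        intro v hv
        have h4 := (Submodule.mem_orthogonal _ _).1 hu.2 (K.br H' (K.br H v))
          ⟨hUinv H' hH' _ (hUinv H hH v hv.1), hVinv 2 H' hH' H hH v hv.2⟩
        have h5 := br_skew K H v (K.br H' u)
        have h6 := br_skew K H' (K.br H v) u
        rw [h4] at h6
        linarith) (fun u hu => hu.1.2)).2 (by norm_num)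
      have h4 := (Submodule.mem_orthogonal _ _).1 hz.2 z ⟨hz', hz.1⟩
      exact hz0 (inner_self_eq_zero.1 h4)
    have hVU : V 2 ≤ U := by
      intro u hu
      -- orthogonal decomposition
      have h4 : u - (U ⊓ V 2).starProjection u ∈ V 2 ⊓ (U ⊓ V 2)ᗮ := by
        refine ⟨(V 2).sub_mem hu ?_, Submodule.sub_starProjection_mem_orthogonal u⟩
        exact ((U ⊓ V 2).starProjection_apply_mem u).2
      rw [hW, Submodule.mem_bot] at h4
      have h5 : u = (U ⊓ V 2).starProjection u := sub_eq_zero.1 h4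
      rw [h5]
      exact ((U ⊓ V 2).starProjection_apply_mem u).1
    have hA : A ∈ U := hVU (hVmem 2 A B hAp h1 h2)
    have hB : ∀ H ∈ T, K.br H B = (inner ℝ X H / ‖X‖ ^ 2) • K.br X B := by
      intro H hH
      have h3 : B = (1 / 2 : ℝ) • K.br X A := by rw [h1, smul_smul]; norm_num
      rw [h3, map_smul, hcomm H hH X hX.mem, hA H hH, map_smul, map_smul, smul_comm]
    have hBk : B ∈ 𝔭ᗮ := by
      have h3 : B = (1 / 2 : ℝ) • K.br X A := by rw [h1, smul_smul]; norm_num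
      rw [h3]
      exact 𝔭ᗮ.smul_mem _ (hSy.pp X A (hT.le hX.mem) hAp)
    have hAB : K.br A B ∈ T := by
      refine hT.max _ (hSy.pk A B hAp hBk) fun H hH => ?_
      rw [K.jac, hA H hH, hB H hH, h1, h2, map_smul, LinearMap.smul_apply, map_smul,
        LinearMap.smul_apply, K.br_self, map_smul, map_neg, map_smul, K.br_self]
      simp
    set c : ℝ := 2 * inner ℝ A A / ‖X‖ ^ 2 with hc
    have hdiff : K.br A B - c • X ∈ T := T.sub_mem hAB (T.smul_mem _ hX.mem)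
    have horth : ∀ H ∈ T, inner ℝ (K.br A B - c • X) H = (0 : ℝ) := by
      intro H hH
      rw [inner_sub_left, K.ad_inv, K.br_anti B H, hB H hH, h2, real_inner_smul_left, smul_neg,
        neg_neg, real_inner_smul_right, real_inner_smul_right, hc]
      ring
    exact ⟨c, sub_eq_zero.1 (inner_self_eq_zero.1 (horth _ hdiff))⟩

end Pool.Agent.TH109.SS
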